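import Pool.Agent.Whl.Defs

/-!
# Connectivity lemmas
-/

namespace Whl

open Finset TurMod

variable {V : Type*}

/- MODULE ca -/
private theorem ca_cons (M : V → V → Prop) (x : V) (l : List V) : cnt M l ≤ cnt M (x :: l) := by
  cases l with
  | nil => simp [cnt]
  | cons y t => simp only [cnt]; omega

theorem cnt_append (M : V → V → Prop) (l l' : List V) : cnt M l + cnt M l' ≤ cnt M (l ++ l') := by
  induction l with
  | nil => simp [cnt]
  | cons x t ih =>
    cases t with
    | nil =>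
      have := ca_cons M x l'
      simpa [cnt] using this
    | cons y t =>
      simp only [cnt, List.cons_append] at ih ⊢
      omega

private theorem ca_snoc (M : V → V → Prop) (l : List V) (x y : V) :
    cnt M (l ++ [x, y]) = cnt M (l ++ [x]) + cnt M [x, y] := by
  induction l with
  | nil => simp [cnt]
  | cons a t ih =>
    cases t with
    | nil => simp [cnt]
    | cons b t =>
      simp only [cnt, List.cons_append] at ih ⊢
      omega

theorem cnt_reverse (M : V → V → Prop) (hM : ∀ x y, M x y → M y x) (l : List V) :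
    cnt M l.reverse = cnt M l := by
  classical
  induction l with
  | nil => simp
  | cons x t ih =>
    cases t with
    | nil => simp
    | cons y t =>
      rw [List.reverse_cons, List.reverse_cons, List.append_assoc]
      simp only [List.cons_append, List.nil_append]
      rw [ca_snoc, ← List.reverse_cons, ih]
      simp only [cnt]
      have : (if M y x then 1 else 0) = (if M x y then 1 else 0 : ℕ) := by
        by_cases h : M x y
        · rw [if_pos h, if_pos (hM _ _ h)]
        · rw [if_neg h, if_neg (fun h' => h (hM _ _ h'))]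
      rw [this]
      omega

theorem cnt_junction (M : V → V → Prop) (l l' : List V) (x y : V) (hx : l.getLast? = some x)
    (hy : l'.head? = some y) (hxy : M x y) : cnt M l + 1 + cnt M l' ≤ cnt M (l ++ l') := by
  induction l with
  | nil => simp at hx
  | cons a t ih =>
    cases t with
    | nil =>
      simp only [List.getLast?_singleton, Option.some.injEq] at hx
      subst hx
      cases l' with
      | nil => simp at hy
      | cons b s =>
        simp only [List.head?_cons, Option.some.injEq] at hy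
        subst hy
        simp [cnt, hxy]
    | cons b t =>
      have := ih (by simpa using hx)
      simp only [cnt, List.cons_append] at this ⊢
      omega

theorem cnt_glue (M : V → V → Prop) (l l' : List V) (x : V) (hx : l.getLast? = some x)
    (hy : l'.head? = some x) : cnt M l + cnt M l' ≤ cnt M (l ++ l'.tail) := by
  induction l with
  | nil => simp at hx
  | cons a t ih =>
    cases t with
    | nil =>
      simp only [List.getLast?_singleton, Option.some.injEq] at hx
      subst hx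
      cases l' with
      | nil => simp at hy
      | cons b s =>
        simp only [List.head?_cons, Option.some.injEq] at hy
        subst hy
        simp [cnt]
    | cons b t =>
      have := ih (by simpa using hx)
      simp only [cnt, List.cons_append] at this ⊢
      omega

private theorem ca_one (M : V → V → Prop) (X Y : Finset V) (l : List V)
    (h1 : ∃ y ∈ X, l.head? = some y) (h3 : ∃ x ∈ l, x ∈ Y)
    (hXY : Disjoint X Y)
    (h4 : ∀ v ∈ l, v ∈ X ∨ v ∈ Y)
    (h5 : l.IsChain (fun u v => (u ∈ X → v ∈ Y → M u v) ∧ (u ∈ Y → v ∈ X → M u v))) :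
    1 ≤ cnt M l := by
  induction l with
  | nil => obtain ⟨_, _, h⟩ := h1; simp at h
  | cons a t ih =>
    obtain ⟨a', ha', h⟩ := h1
    simp only [List.head?_cons, Option.some.injEq] at h
    subst h
    cases t with
    | nil =>
      obtain ⟨x, hx, hxY⟩ := h3
      simp only [List.mem_cons, List.not_mem_nil, or_false] at hx
      subst hx
      exact (Finset.disjoint_left.1 hXY ha' hxY).elim
    | cons b t =>
      have h6 := (List.isChain_cons_cons.1 h5)
      by_cases hb : b ∈ X
      · have h7 : ∃ x ∈ b :: t, x ∈ Y := by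
          obtain ⟨x, hx, hxY⟩ := h3
          rcases List.mem_cons.1 hx with h | h
          · subst h; exact (Finset.disjoint_left.1 hXY ha' hxY).elim
          · exact ⟨x, h, hxY⟩
        have := ih ⟨b, hb, rfl⟩ h7 (fun v hv => h4 v (List.mem_cons_of_mem _ hv)) h6.2
        exact this.trans (ca_cons M a (b :: t))
      · have hbY : b ∈ Y := by
          rcases h4 b (by simp) with h | h
          · exact absurd h hb
          · exact h
        simp only [cnt, if_pos (h6.1.1 ha' hbY)]
        omega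

theorem cnt_cross (M : V → V → Prop) (X Y : Finset V) (hXY : Disjoint X Y) (l : List V)
    (h1 : ∃ y ∈ Y, l.head? = some y) (h2 : ∃ y ∈ Y, l.getLast? = some y) (h3 : ∃ x ∈ l, x ∈ X)
    (h4 : ∀ v ∈ l, v ∈ X ∨ v ∈ Y)
    (h5 : l.IsChain (fun u v => (u ∈ X → v ∈ Y → M u v) ∧ (u ∈ Y → v ∈ X → M u v))) :
    2 ≤ cnt M l := by
  induction l with
  | nil => obtain ⟨_, _, h⟩ := h1; simp at h
  | cons a t ih =>
    obtain ⟨a', ha', h⟩ := h1
    simp only [List.head?_cons, Option.some.injEq] at h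
    subst h
    cases t with
    | nil =>
      obtain ⟨x, hx, hxX⟩ := h3
      simp only [List.mem_cons, List.not_mem_nil, or_false] at hx
      subst hx
      exact (Finset.disjoint_left.1 hXY hxX ha').elim
    | cons b t =>
      have h6 := (List.isChain_cons_cons.1 h5)
      have hlast : ∃ y ∈ Y, (b :: t).getLast? = some y := by
        obtain ⟨y, hy, h⟩ := h2
        exact ⟨y, hy, by simpa using h⟩
      by_cases hb : b ∈ Y
      · have h7 : ∃ x ∈ b :: t, x ∈ X := by
          obtain ⟨x, hx, hxX⟩ := h3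
          rcases List.mem_cons.1 hx with h | h
          · subst h; exact (Finset.disjoint_left.1 hXY hxX ha').elim
          · exact ⟨x, h, hxX⟩
        have := ih ⟨b, hb, rfl⟩ hlast h7 (fun v hv => h4 v (List.mem_cons_of_mem _ hv)) h6.2
        exact this.trans (ca_cons M a (b :: t))
      · have hbX : b ∈ X := by
          rcases h4 b (by simp) with h | h
          · exact h
          · exact absurd h hb
        obtain ⟨y, hy, hyl⟩ := hlast
        have := ca_one M X Y (b :: t) ⟨b, hbX, rfl⟩ ⟨y, List.mem_of_getLast? hyl, hy⟩ hXY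
          (fun v hv => h4 v (List.mem_cons_of_mem _ hv)) h6.2
        simp only [cnt, if_pos (h6.1.2 ha' hbX)] at this ⊢
        omega
/- END ca -/

/- MODULE cb -/
private theorem cb_split (H : SimpleGraph V) (u v : V) (huv : u ≠ v) (hadj : ¬ H.Adj u v) (l : List V)
    (hl : PathL H u v l) : ∃ (c : V) (m : List V), l = u :: ((c :: m) ++ [v]) := by
  obtain ⟨t, rfl⟩ : ∃ t, l = u :: t := by
    cases l with
    | nil => have := hl.2.2.1; simp at this
    | cons a t =>
      have := hl.2.2.1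
      simp only [List.head?_cons, Option.some.injEq] at this
      exact ⟨t, by rw [this]⟩
  have ht : t ≠ [] := by
    rintro rfl
    have := hl.2.2.2
    simp only [List.getLast?_singleton, Option.some.injEq] at this
    exact huv this
  obtain ⟨m, b, rfl⟩ : ∃ m b, t = m ++ [b] :=
    ⟨t.dropLast, t.getLast ht, (List.dropLast_append_getLast ht).symm⟩
  have hb : b = v := by
    have := hl.2.2.2
    rw [← List.cons_append, List.getLast?_append_of_ne_nil _ (by simp)] at this
    simpa using this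
  subst hb
  cases m with
  | nil =>
    have := hl.1
    simp only [List.nil_append, List.isChain_cons_cons] at this
    exact absurd this.1 hadj
  | cons c m => exact ⟨c, m, rfl⟩

theorem cyc_of_two (H : SimpleGraph V) (u v : V) (huv : u ≠ v) (hadj : ¬ H.Adj u v) (l l' : List V)
    (hl : PathL H u v l) (hl' : PathL H u v l') (hd : ∀ w ∈ l, w ∈ l' → w = u ∨ w = v) :
    ∃ L, CycL H L ∧ (∀ w, w ∈ L ↔ w ∈ l ∨ w ∈ l') ∧
      ∀ M : V → V → Prop, (∀ x y, M x y → M y x) → cnt M l + cnt M l' ≤ cyc M L := by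
  obtain ⟨c₁, m₁, e₁⟩ := cb_split H u v huv hadj l hl
  obtain ⟨c, m, e⟩ := cb_split H u v huv hadj l' hl'
  have hrev : l'.reverse = v :: ((c :: m).reverse ++ [u]) := by
    rw [e]
    simp
  have hc' : (l'.reverse).IsChain H.Adj := (hl'.reverse).1
  have hn' : (l'.reverse).Nodup := (hl'.reverse).2.1
  rw [hrev] at hc' hn'
  have hc2 : ((c :: m).reverse ++ [u]).IsChain H.Adj := hc'.tail
  have hc3 : ((c :: m).reverse).IsChain H.Adj := (List.isChain_append.1 hc2).1
  have hn2 := (List.nodup_cons.1 hn').2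
  have hvm : v ∉ (c :: m).reverse := fun h => (List.nodup_cons.1 hn').1 (List.mem_append_left _ h)
  have hum : u ∉ (c :: m).reverse := by
    intro h
    rw [List.nodup_append] at hn2
    exact hn2.2.2 u h u (by simp) rfl
  have hmn : ((c :: m).reverse).Nodup := by
    rw [List.nodup_append] at hn2
    exact hn2.1
  have hhead : ∃ b, ((c :: m).reverse).head? = some b ∧ H.Adj v b := by
    have hne : (c :: m).reverse ≠ [] := by simp
    obtain ⟨b, s, hs⟩ : ∃ b s, (c :: m).reverse = b :: s := List.exists_cons_of_ne_nil hne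
    refine ⟨b, by rw [hs]; rfl, ?_⟩
    rw [hs, List.cons_append, List.isChain_cons_cons] at hc'
    exact hc'.1
  have hlast : ((c :: m).reverse).getLast? = some c := by simp
  have huc : H.Adj u c := by
    have h := hl'.1
    rw [e] at h
    simp only [List.cons_append, List.isChain_cons_cons] at h
    exact h.1
  have hmem' : ∀ w, w ∈ l' ↔ w = u ∨ w = v ∨ w ∈ (c :: m).reverse := by
    intro w
    rw [← List.mem_reverse, hrev]
    simp only [List.mem_cons, List.mem_append, List.not_mem_nil, or_false]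
    tauto
  refine ⟨l ++ (c :: m).reverse, ⟨u, c, ⟨?_, ?_, ?_, ?_⟩, ?_, huc.symm⟩, ?_, ?_⟩
  · rw [List.isChain_append]
    refine ⟨hl.1, hc3, ?_⟩
    intro x hx y hy
    obtain ⟨b, hb, hvb⟩ := hhead
    rw [hl.2.2.2] at hx
    rw [hb] at hy
    simp only [Option.mem_def, Option.some.injEq] at hx hy
    subst hx hy
    exact hvb
  · rw [List.nodup_append]
    refine ⟨hl.2.1, hmn, ?_⟩
    intro a ha b hb hab
    subst hab
    rcases hd a ha ((hmem' a).2 (Or.inr (Or.inr hb))) with h | h
    · rw [h] at hb; exact hum hb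
    · rw [h] at hb; exact hvm hb
  · rw [e₁]; simp
  · rw [List.getLast?_append_of_ne_nil _ (by simp)]
    exact hlast
  · rw [e₁]; simp; omega
  · intro w
    rw [List.mem_append, hmem']
    constructor
    · rintro (h | h)
      · exact Or.inl h
      · exact Or.inr (Or.inr (Or.inr h))
    · rintro (h | h | h | h)
      · exact Or.inl h
      · rw [h]; exact Or.inl hl.left_mem
      · rw [h]; exact Or.inl hl.right_mem
      · exact Or.inr h
  · intro M hM
    have h1 : (l ++ (c :: m).reverse).head? = some u := by rw [e₁]; simp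
    unfold cyc
    rw [h1]
    have h2 : l ++ (c :: m).reverse ++ (some u).toList = l ++ (l'.reverse).tail := by
      rw [hrev]
      simp
    rw [h2]
    have h3 := cnt_glue M l l'.reverse v hl.2.2.2 (hl'.reverse).2.2.1
    rw [cnt_reverse M hM] at h3
    exact h3
/- END cb -/

/- MODULE cc -/
private theorem cd_chain (R S : V → V → Prop) (p : V → Prop)
    (hRS : ∀ a b, R a b → p a → p b → S a b) (l : List V) (h : l.IsChain R)
    (hp : ∀ w ∈ l, p w) : l.IsChain S := by
  induction l with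
  | nil => simp
  | cons a t ih =>
    cases t with
    | nil => simp
    | cons b t =>
      rw [List.isChain_cons_cons] at h ⊢
      exact ⟨hRS _ _ h.1 (hp a (by simp)) (hp b (by simp)),
        ih h.2 (fun w hw => hp w (List.mem_cons_of_mem _ hw))⟩

private theorem cd_mem (R : V → V → Prop) (p : V → Prop) (hR : ∀ a b, R a b → p b)
    (l : List V) (a : V) (ha : p a) (h : (a :: l).IsChain R) : ∀ w ∈ a :: l, p w := by
  induction l generalizing a with
  | nil => intro w hw; simp only [List.mem_cons, List.not_mem_nil, or_false] at hw; rw [hw]; exact ha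
  | cons b t ih =>
    rw [List.isChain_cons_cons] at h
    intro w hw
    rcases List.mem_cons.1 hw with h1 | h1
    · rw [h1]; exact ha
    · exact ih b (hR _ _ h.1) h.2 w h1

theorem two_vv [Fintype V] (H : SimpleGraph V) (U : Finset V) (u v : V) (hu : u ∈ U) (hv : v ∈ U)
    (huv : u ≠ v) (hadj : ¬ H.Adj u v)
    (h : ∀ C : Finset V, C.card ≤ 1 → u ∉ C → v ∉ C →
      ∃ l, PathL H u v l ∧ ∀ w ∈ l, w ∈ U ∧ w ∉ C) :
    ∃ l l', PathL H u v l ∧ PathL H u v l' ∧ (∀ w ∈ l, w ∈ U) ∧ (∀ w ∈ l', w ∈ U) ∧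
      ∀ w ∈ l, w ∈ l' → w = u ∨ w = v := by
  classical
  set pr : V → Prop := fun x => x ∈ U ∧ x ≠ u ∧ x ≠ v with hpr
  set r : V → V → Prop := fun x y => H.Adj x y ∧ pr x ∧ pr y with hr
  set A : Finset V := Finset.univ.filter (fun x => pr x ∧ H.Adj u x) with hA
  set B : Finset V := Finset.univ.filter (fun x => pr x ∧ H.Adj x v) with hB
  obtain ⟨W, hW, hWd⟩ := menger_rel r A B 2 (by
    intro X hX
    by_contra hc
    push Not at hc
    have hX1 : (X.filter (fun x => x ≠ u ∧ x ≠ v)).card ≤ 1 :=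
      (Finset.card_filter_le _ _).trans (by omega)
    obtain ⟨l, hl, hlU⟩ := h (X.filter (fun x => x ≠ u ∧ x ≠ v)) hX1 (by simp) (by simp)
    obtain ⟨t, rfl⟩ : ∃ t, l = u :: t := by
      cases l with
      | nil => have := hl.2.2.1; simp at this
      | cons a t =>
        have := hl.2.2.1
        simp only [List.head?_cons, Option.some.injEq] at this
        exact ⟨t, by rw [this]⟩
    have ht : t ≠ [] := by
      rintro rfl
      have := hl.2.2.2
      simp only [List.getLast?_singleton, Option.some.injEq] at this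
      exact huv this
    obtain ⟨m, b, rfl⟩ : ∃ m b, t = m ++ [b] := ⟨t.dropLast, t.getLast ht, (List.dropLast_append_getLast ht).symm⟩
    have hb : b = v := by
      have := hl.2.2.2
      rw [← List.cons_append, List.getLast?_append_of_ne_nil _ (by simp)] at this
      simpa using this
    subst hb
    have hnod := hl.2.1
    have hchain := hl.1
    have hm : m ≠ [] := by
      rintro rfl
      simp only [List.nil_append, List.isChain_cons_cons] at hchain
      exact hadj hchain.1
    have hum : u ∉ m := by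
      intro h'
      exact (List.nodup_cons.1 hnod).1 (List.mem_append_left _ h')
    have hvm : b ∉ m := by
      intro h'
      have h2 := (List.nodup_cons.1 hnod).2
      rw [List.nodup_append] at h2
      exact h2.2.2 b h' b (by simp) rfl
    have hmU : ∀ w ∈ m, pr w := by
      intro w hw
      refine ⟨(hlU w (by simp [hw])).1, ?_, ?_⟩
      · rintro rfl; exact hum hw
      · rintro rfl; exact hvm hw
    have hc1 : (m ++ [b]).IsChain H.Adj := hchain.tail
    have hc2 : m.IsChain H.Adj := (List.isChain_append.1 hc1).1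
    obtain ⟨w, hw, hwX⟩ := hX m ⟨cd_chain H.Adj r pr (fun a b h1 h2 h3 => ⟨h1, h2, h3⟩) m hc2 hmU, by
      cases m with
      | nil => exact absurd rfl hm
      | cons p s =>
        refine ⟨p, Finset.mem_filter.2 ⟨Finset.mem_univ _, hmU p (by simp), ?_⟩, rfl⟩
        simp only [List.cons_append, List.isChain_cons_cons] at hchain
        exact hchain.1, by
      refine ⟨m.getLast hm, Finset.mem_filter.2 ⟨Finset.mem_univ _, hmU _ (List.getLast_mem hm), ?_⟩,
        List.getLast?_eq_some_getLast hm⟩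
      exact (List.isChain_append.1 hc1).2.2 _ (List.getLast?_eq_some_getLast hm) b (by simp)⟩
    have h1 := (hlU w (by simp [hw])).2
    exact h1 (Finset.mem_filter.2 ⟨hwX, (hmU w hw).2⟩))
  have key : ∀ i < 2, ∃ l : List V, PathL H u v l ∧ (∀ w ∈ l, w ∈ U) ∧
      ∀ w ∈ l, w = u ∨ w = v ∨ w ∈ W i := by
    intro i hi
    obtain ⟨hc, ⟨a, haA, ha⟩, ⟨b, hbB, hb⟩⟩ := hW i hi
    obtain ⟨l', g1, g2, g3, g4, g5⟩ := walk_to_path hc ha hb
    obtain ⟨_, hpa, hua⟩ := Finset.mem_filter.1 haA
    obtain ⟨_, hpb, hbv⟩ := Finset.mem_filter.1 hbB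
    have hmem : ∀ w ∈ l', pr w := by
      cases l' with
      | nil => simp at g3
      | cons c t =>
        simp only [List.head?_cons, Option.some.injEq] at g3
        subst g3
        exact cd_mem r pr (fun a b h => h.2.2) t c hpa g1
    have hul : u ∉ l' := fun h' => (hmem u h').2.1 rfl
    have hvl : v ∉ l' := fun h' => (hmem v h').2.2 rfl
    have hcl : l'.IsChain H.Adj := g1.imp (fun _ _ h => h.1)
    have hne : l' ≠ [] := by rintro rfl; simp at g3
    refine ⟨u :: (l' ++ [v]), ⟨?_, ?_, by simp, ?_⟩, ?_, ?_⟩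
    · cases l' with
      | nil => simp at g3
      | cons c t =>
        simp only [List.head?_cons, Option.some.injEq] at g3
        subst g3
        rw [List.cons_append, List.isChain_cons_cons]
        refine ⟨hua, ?_⟩
        rw [← List.cons_append, List.isChain_append]
        refine ⟨hcl, by simp, ?_⟩
        intro x hx y hy
        rw [g4] at hx
        simp only [Option.mem_def, Option.some.injEq] at hx
        simp only [List.head?_cons, Option.mem_def, Option.some.injEq] at hy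
        subst hx hy
        exact hbv
    · rw [List.nodup_cons, List.nodup_append]
      refine ⟨?_, g2, by simp, ?_⟩
      · intro h'
        rcases List.mem_append.1 h' with h' | h'
        · exact hul h'
        · simp only [List.mem_cons, List.not_mem_nil, or_false] at h'
          exact huv h'
      · intro x hx y hy hxy
        simp only [List.mem_cons, List.not_mem_nil, or_false] at hy
        subst hxy hy
        exact hvl hx
    · rw [← List.cons_append, List.getLast?_append_of_ne_nil _ (by simp)]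
      simp
    · intro w hw
      rcases List.mem_cons.1 hw with h' | h'
      · rw [h']; exact hu
      · rcases List.mem_append.1 h' with h' | h'
        · exact (hmem w h').1
        · simp only [List.mem_cons, List.not_mem_nil, or_false] at h'
          rw [h']; exact hv
    · intro w hw
      rcases List.mem_cons.1 hw with h' | h'
      · exact Or.inl h'
      · rcases List.mem_append.1 h' with h' | h'
        · exact Or.inr (Or.inr (g5 w h'))
        · simp only [List.mem_cons, List.not_mem_nil, or_false] at h'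
          exact Or.inr (Or.inl h')
  obtain ⟨l, hl, hlU, hlW⟩ := key 0 (by norm_num)
  obtain ⟨l', hl', hlU', hlW'⟩ := key 1 (by norm_num)
  refine ⟨l, l', hl, hl', hlU, hlU', ?_⟩
  intro w hw hw'
  rcases hlW w hw with h1 | h1 | h1
  · exact Or.inl h1
  · exact Or.inr h1
  · rcases hlW' w hw' with h2 | h2 | h2
    · exact Or.inl h2
    · exact Or.inr h2
    · exact (hWd 0 (by norm_num) 1 (by norm_num) (by norm_num) h1 h2).elim
/- END cc -/

/- MODULE cd -/
theorem two_paths [Fintype V] [DecidableEq V] (H : SimpleGraph V) (Y : Finset V)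
    (hY : ∀ C ⊆ Y, C.card ≤ 1 → ∀ u ∈ Y \ C, ∀ v ∈ Y \ C, Joined H (Y \ C) u v)
    (P Q : Finset V) (hP : P ⊆ Y) (hQ : Q ⊆ Y) (hPc : P.card = 2) (hQc : Q.card = 2) :
    ∃ (l l' : List V) (p p' q q' : V), p ∈ P ∧ p' ∈ P ∧ p ≠ p' ∧ q ∈ Q ∧ q' ∈ Q ∧ q ≠ q' ∧
      PathL H p q l ∧ PathL H p' q' l' ∧ List.Disjoint l l' ∧ (∀ w ∈ l, w ∈ Y) ∧
      ∀ w ∈ l', w ∈ Y := by
  classical
  set r : V → V → Prop := fun x y => H.Adj x y ∧ x ∈ Y ∧ y ∈ Y with hr
  obtain ⟨W, hW, hWd⟩ := menger_rel r P Q 2 (by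
    intro X hX
    by_contra hc
    push Not at hc
    have hX1 : (X ∩ Y).card ≤ 1 := (Finset.card_le_card Finset.inter_subset_left).trans (by omega)
    obtain ⟨u, hu, huX⟩ : ∃ u ∈ P, u ∉ X := by
      by_contra h
      push Not at h
      have := Finset.card_le_card (show P ⊆ X from h)
      omega
    obtain ⟨v, hv, hvX⟩ : ∃ v ∈ Q, v ∉ X := by
      by_contra h
      push Not at h
      have := Finset.card_le_card (show Q ⊆ X from h)
      omega
    obtain ⟨l, hl, hlY⟩ := hY (X ∩ Y) Finset.inter_subset_right hX1 u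
      (Finset.mem_sdiff.2 ⟨hP hu, fun h => huX (Finset.mem_inter.1 h).1⟩) v
      (Finset.mem_sdiff.2 ⟨hQ hv, fun h => hvX (Finset.mem_inter.1 h).1⟩)
    obtain ⟨w, hw, hwX⟩ := hX l ⟨cd_chain H.Adj r (· ∈ Y) (fun a b h1 h2 h3 => ⟨h1, h2, h3⟩) l hl.1
      (fun w hw => (Finset.mem_sdiff.1 (hlY w hw)).1), ⟨u, hu, hl.2.2.1⟩, ⟨v, hv, hl.2.2.2⟩⟩
    obtain ⟨h1, h2⟩ := Finset.mem_sdiff.1 (hlY w hw)
    exact h2 (Finset.mem_inter.2 ⟨hwX, h1⟩))
  have key : ∀ i < 2, ∃ (l : List V) (p q : V), p ∈ P ∧ q ∈ Q ∧ PathL H p q l ∧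
      (∀ w ∈ l, w ∈ W i) ∧ ∀ w ∈ l, w ∈ Y := by
    intro i hi
    obtain ⟨hc, ⟨a, haA, ha⟩, ⟨b, hbB, hb⟩⟩ := hW i hi
    obtain ⟨l', g1, g2, g3, g4, g5⟩ := walk_to_path hc ha hb
    have hmem : ∀ w ∈ l', w ∈ Y := by
      cases l' with
      | nil => simp at g3
      | cons c t =>
        simp only [List.head?_cons, Option.some.injEq] at g3
        subst g3
        exact cd_mem r (· ∈ Y) (fun a b h => h.2.2) t c (hP haA) g1
    exact ⟨l', a, b, haA, hbB, ⟨g1.imp (fun _ _ h => h.1), g2, g3, g4⟩, g5, hmem⟩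
  obtain ⟨l, p, q, hp, hq, hl, hlW, hlY⟩ := key 0 (by norm_num)
  obtain ⟨l', p', q', hp', hq', hl', hlW', hlY'⟩ := key 1 (by norm_num)
  have hd : List.Disjoint l l' := by
    intro w hw hw'
    exact hWd 0 (by norm_num) 1 (by norm_num) (by norm_num) (hlW w hw) (hlW' w hw')
  refine ⟨l, l', p, p', q, q', hp, hp', ?_, hq, hq', ?_, hl, hl', hd, hlY, hlY'⟩
  · rintro rfl
    exact hd hl.left_mem hl'.left_mem
  · rintro rfl
    exact hd hl.right_mem hl'.right_mem
/- END cd -/

/- MODULE ce -/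
/-- LEMMA M, first case.  `v₁, v₂ ∈ Y ∖ C` are not joined in `Y ∖ C`, `|C| ≤ 1`.
PROOF. `U = W ∖ (S ∪ C)`.  For `C'` with at most one element (not `v₁`, `v₂`) the set `S ∪ C ∪ C'` has
at most `4 ≤ 5` elements, so `exists_path_of_conn` (with `X = S ∪ C ∪ C'`) gives a path from `v₁` to `v₂`
in `U ∖ C'`.  `v₁ ≠ v₂` and they are not adjacent (they are not joined: `[v₁, v₂]`; and `[v₁]` joins `v₁`
to itself).  `two_vv` gives `l, l'` inside `U ⊆ X ∪ (Y ∖ C)`.  Each contains a vertex of `X`
(otherwise it joins `v₁`, `v₂` in `Y ∖ C`), so `cnt_cross` gives `≥ 2` for each (`M` symmetric, and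
all `H`-edges between `X` and `Y` are in `M`); `cyc_of_two`. -/
theorem four_M_cut [Fintype V] [DecidableEq V] (H : SimpleGraph V) (M : V → V → Prop)
    (hsym : ∀ x y, M x y → M y x) (W X S Y : Finset V) (hW : W = X ∪ S ∪ Y) (hXS : Disjoint X S)
    (hXY : Disjoint X Y) (hSY : Disjoint S Y) (hS : S.card ≤ 2) (hconn : Conn H W 5)
    (hcross : ∀ x ∈ X, ∀ y ∈ Y, H.Adj x y → M x y) (C : Finset V) (hC : C ⊆ Y)
    (hC1 : C.card ≤ 1) (v₁ v₂ : V) (h₁ : v₁ ∈ Y \ C) (h₂ : v₂ ∈ Y \ C)
    (hnot : ¬ Joined H (Y \ C) v₁ v₂) : ∃ l, CycL H l ∧ 3 ≤ cyc M l := by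
  classical
  have hv₁ : v₁ ∈ W := by
    rw [hW]; exact Finset.mem_union_right _ (Finset.mem_sdiff.1 h₁).1
  have hv₂ : v₂ ∈ W := by
    rw [hW]; exact Finset.mem_union_right _ (Finset.mem_sdiff.1 h₂).1
  have hv₁S : v₁ ∉ S := fun h => (Finset.disjoint_left.1 hSY h) (Finset.mem_sdiff.1 h₁).1
  have hv₂S : v₂ ∉ S := fun h => (Finset.disjoint_left.1 hSY h) (Finset.mem_sdiff.1 h₂).1
  have hne : v₁ ≠ v₂ := by
    rintro rfl
    exact hnot ⟨[v₁], ⟨by simp, by simp, by simp, by simp⟩, by
      intro w hw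
      rw [List.mem_singleton] at hw
      subst hw
      exact h₁⟩
  have hadj : ¬ H.Adj v₁ v₂ := by
    intro hadj
    refine hnot ⟨[v₁, v₂], ⟨by simp [hadj], by simp [hne], by simp, by simp⟩, ?_⟩
    intro w hw
    simp only [List.mem_cons, List.not_mem_nil, or_false] at hw
    rcases hw with rfl | rfl
    · exact h₁
    · exact h₂
  have hUm : ∀ w, w ∈ W \ (S ∪ C) → w ∈ X ∨ w ∈ Y \ C := by
    intro w hw
    rw [Finset.mem_sdiff, Finset.mem_union, not_or, hW, Finset.mem_union, Finset.mem_union] at hw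
    obtain ⟨(hw1 | hw1) | hw1, hw2, hw3⟩ := hw
    · exact Or.inl hw1
    · exact absurd hw1 hw2
    · exact Or.inr (Finset.mem_sdiff.2 ⟨hw1, hw3⟩)
  obtain ⟨l, l', hl, hl', hlU, hlU', hdis⟩ := two_vv H (W \ (S ∪ C)) v₁ v₂
    (Finset.mem_sdiff.2 ⟨hv₁, by
      rw [Finset.mem_union, not_or]; exact ⟨hv₁S, (Finset.mem_sdiff.1 h₁).2⟩⟩)
    (Finset.mem_sdiff.2 ⟨hv₂, by
      rw [Finset.mem_union, not_or]; exact ⟨hv₂S, (Finset.mem_sdiff.1 h₂).2⟩⟩) hne hadj (by
    intro C' hC' h1 h2
    obtain ⟨l, hl, hlX⟩ := exists_path_of_conn H W (S ∪ C ∪ C') 5 hconn (by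
      have := Finset.card_union_le (S ∪ C) C'
      have := Finset.card_union_le S C
      omega) v₁ v₂ hv₁ (by
        rw [Finset.mem_union, Finset.mem_union, not_or, not_or]
        exact ⟨⟨hv₁S, (Finset.mem_sdiff.1 h₁).2⟩, h1⟩) hv₂ (by
        rw [Finset.mem_union, Finset.mem_union, not_or, not_or]
        exact ⟨⟨hv₂S, (Finset.mem_sdiff.1 h₂).2⟩, h2⟩)
    refine ⟨l, hl, fun w hw => ?_⟩
    obtain ⟨hw1, hw2⟩ := hlX w hw
    rw [Finset.mem_union, not_or] at hw2
    exact ⟨Finset.mem_sdiff.2 ⟨hw1, hw2.1⟩, hw2.2⟩)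
  have key : ∀ l : List V, PathL H v₁ v₂ l → (∀ w ∈ l, w ∈ W \ (S ∪ C)) → 2 ≤ cnt M l := by
    intro l hl hlU
    refine cnt_cross M X (Y \ C) ?_ l ⟨v₁, h₁, hl.2.2.1⟩ ⟨v₂, h₂, hl.2.2.2⟩ ?_
      (fun v hv => hUm v (hlU v hv)) ?_
    · exact Finset.disjoint_of_subset_right Finset.sdiff_subset hXY
    · by_contra hno
      push Not at hno
      exact hnot ⟨l, hl, fun w hw => (hUm w (hlU w hw)).resolve_left (hno w hw)⟩
    · refine hl.1.imp ?_
      intro a b hab
      exact ⟨fun ha hb => hcross a ha b (Finset.mem_sdiff.1 hb).1 hab,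
        fun ha hb => hsym _ _ (hcross b hb a (Finset.mem_sdiff.1 ha).1 hab.symm)⟩
  obtain ⟨L, hL, -, hLc⟩ := cyc_of_two H v₁ v₂ hne hadj l l' hl hl' hdis
  have h5 := hLc M hsym
  have h6 := key l hl hlU
  have h7 := key l' hl' hlU'
  exact ⟨L, hL, by omega⟩
/- END ce -/

/- MODULE cf -/
/-- LEMMA M, second case: there are four edges between `X` and `Y`.
PROOF. Let `E = {u ∈ X : u has an H-neighbour in Y}`.  If `|E| ≥ 4` take four elements `u i` of `E` and
neighbours `v i ∈ Y`; `M (u i) (v i)`, so the `v i` are distinct (`hM` with `hsym`).  Suppose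
`|E| ≤ 3`.  If `X ⊄ E`: `Conn` with `X := S ∪ E` (at most `5` elements), `A := X ∖ E`, (nonempty, disjoint
from `S ∪ E`, there is a vertex of `Y` outside) gives an edge from `a ∈ X ∖ E` to `c ∈ W`, `c ∉ X ∖ E`,
`c ∉ S ∪ E`, so `c ∈ Y`: contradiction to `a ∉ E`.  So `X = E` has at most three elements; take `x ∈ X`:
its neighbours in `W` are in `X ∖ {x}` (`≤ 2`), `S` (`≤ 2`), `Y` (`≤ 1` by `hM`), together `≤ 5 < 7`. -/
theorem four_cross [DecidableEq V] (H : SimpleGraph V) (M : V → V → Prop)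
    (hsym : ∀ x y, M x y → M y x) (hM : ∀ x y y', M x y → M x y' → y = y')
    (W X S Y : Finset V) (hW : W = X ∪ S ∪ Y) (hXS : Disjoint X S)
    (hXY : Disjoint X Y) (hSY : Disjoint S Y) (hS : S.card ≤ 2) (hX : X.Nonempty)
    (hY : Y.Nonempty) (hconn : Conn H W 5) (hdeg : ∀ v ∈ W, 7 ≤ dg H W v)
    (hcross : ∀ x ∈ X, ∀ y ∈ Y, H.Adj x y → M x y) :
    ∃ u v : Fin 4 → V, Function.Injective u ∧ Function.Injective v ∧
      ∀ i, u i ∈ X ∧ v i ∈ Y ∧ H.Adj (u i) (v i) ∧ M (u i) (v i) := by
  classical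
  set E : Finset V := X.filter (fun u => ∃ y ∈ Y, H.Adj u y) with hE
  by_cases hE4 : 4 ≤ E.card
  · have hmem : ∀ i : Fin 4, ((E.equivFin.symm (Fin.castLE hE4 i)) : V) ∈ X ∧
        ∃ y ∈ Y, H.Adj ((E.equivFin.symm (Fin.castLE hE4 i)) : V) y := fun i =>
      Finset.mem_filter.1 (E.equivFin.symm (Fin.castLE hE4 i)).2
    choose hX' v hvY hadj using hmem
    refine ⟨fun i => ((E.equivFin.symm (Fin.castLE hE4 i)) : V), v, ?_, ?_, ?_⟩
    · intro i j hij
      have := E.equivFin.symm.injective (Subtype.ext hij)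
      exact Fin.castLE_injective hE4 this
    · intro i j hij
      have h1 := hsym _ _ (hcross _ (hX' i) _ (hvY i) (hadj i))
      have h2 := hsym _ _ (hcross _ (hX' j) _ (hvY j) (hadj j))
      rw [← hij] at h2
      have h3 := hM _ _ _ h1 h2
      have := E.equivFin.symm.injective (Subtype.ext h3)
      exact Fin.castLE_injective hE4 this
    · intro i
      exact ⟨hX' i, hvY i, hadj i, hcross _ (hX' i) _ (hvY i) (hadj i)⟩
  · exfalso
    by_cases hne : (X \ E).Nonempty
    · obtain ⟨y, hy⟩ := hY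
      obtain ⟨a, ha, c, hcW, hcA, hcX, hac⟩ := hconn (S ∪ E) (X \ E) (by
          have := Finset.card_union_le S E
          omega) (by
          rw [hW]
          exact Finset.sdiff_subset.trans (Finset.subset_union_left.trans
            Finset.subset_union_left)) hne (by
          rw [Finset.disjoint_union_right]
          exact ⟨Finset.disjoint_of_subset_left Finset.sdiff_subset hXS,
            Finset.sdiff_disjoint⟩) ⟨y, by
          rw [hW]; exact Finset.mem_union_right _ hy, by
          intro h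
          exact Finset.disjoint_left.1 hXY (Finset.mem_sdiff.1 h).1 hy, by
          rw [Finset.mem_union, not_or]
          exact ⟨fun h => Finset.disjoint_left.1 hSY h hy, fun h =>
            Finset.disjoint_left.1 hXY (Finset.mem_filter.1 h).1 hy⟩⟩
      rw [Finset.mem_union, not_or] at hcX
      rw [hW, Finset.mem_union, Finset.mem_union] at hcW
      rcases hcW with (h | h) | h
      · exact hcA (Finset.mem_sdiff.2 ⟨h, hcX.2⟩)
      · exact hcX.1 h
      · exact (Finset.mem_sdiff.1 ha).2 (Finset.mem_filter.2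
          ⟨(Finset.mem_sdiff.1 ha).1, c, h, hac⟩)
    · rw [Finset.not_nonempty_iff_eq_empty, Finset.sdiff_eq_empty_iff_subset] at hne
      obtain ⟨x, hx⟩ := hX
      have h1 : X.card ≤ 3 := by
        have := Finset.card_le_card hne
        omega
      have hxW : x ∈ W := by
        rw [hW]; exact Finset.mem_union_left _ (Finset.mem_union_left _ hx)
      have h2 := hdeg x hxW
      have h3 : dg H W x ≤ (X.erase x ∪ S ∪ Y.filter (fun y => H.Adj x y)).card := by
        unfold dg
        refine Finset.card_le_card ?_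
        intro w hw
        rw [Finset.mem_filter, hW, Finset.mem_union, Finset.mem_union] at hw
        obtain ⟨(h | h) | h, hadj⟩ := hw
        · refine Finset.mem_union_left _ (Finset.mem_union_left _ (Finset.mem_erase.2 ⟨?_, h⟩))
          rintro rfl
          exact H.loopless.irrefl _ hadj
        · exact Finset.mem_union_left _ (Finset.mem_union_right _ h)
        · exact Finset.mem_union_right _ (Finset.mem_filter.2 ⟨h, hadj⟩)
      have h4 : (Y.filter (fun y => H.Adj x y)).card ≤ 1 := by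
        rw [Finset.card_le_one]
        intro a ha b hb
        rw [Finset.mem_filter] at ha hb
        exact hM x a b (hcross x hx a ha.1 ha.2) (hcross x hx b hb.1 hb.2)
      have h5 := Finset.card_union_le (X.erase x ∪ S) (Y.filter (fun y => H.Adj x y))
      have h6 := Finset.card_union_le (X.erase x) S
      have h7 := Finset.card_erase_of_mem hx
      omega
/- END cf -/

/- MODULE cg -/
private theorem cg_app (H : SimpleGraph V) (M : V → V → Prop) {a b c d : V} {l₁ l₂ : List V}
    {k₁ k₂ : ℕ} (h₁ : PathL H a b l₁) (h₂ : PathL H c d l₂) (hbc : H.Adj b c) (hM : M b c)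
    (hd : List.Disjoint l₁ l₂) (hk₁ : k₁ ≤ cnt M l₁) (hk₂ : k₂ ≤ cnt M l₂) :
    PathL H a d (l₁ ++ l₂) ∧ k₁ + 1 + k₂ ≤ cnt M (l₁ ++ l₂) := by
  obtain ⟨c1, n1, e1, f1⟩ := h₁
  obtain ⟨c2, n2, e2, f2⟩ := h₂
  refine ⟨⟨?_, ?_, ?_, ?_⟩, ?_⟩
  · rw [List.isChain_append]
    refine ⟨c1, c2, ?_⟩
    intro x hx y hy
    rw [f1] at hx
    rw [e2] at hy
    simp only [Option.mem_def, Option.some.injEq] at hx hy
    subst hx
    subst hy
    exact hbc
  · rw [List.nodup_append]
    refine ⟨n1, n2, ?_⟩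
    intro x hx y hy hxy
    subst hxy
    exact hd hx hy
  · rw [List.head?_append, e1]
    rfl
  · rw [List.getLast?_append, f2]
    rfl
  · have := cnt_junction M l₁ l₂ b c f1 e2 hM
    omega

private theorem cg_core (H : SimpleGraph V) (M : V → V → Prop) {a a' b b' c c' d d' : V}
    {α β γ δ : List V} (hα : PathL H a a' α) (hβ : PathL H b b' β) (hγ : PathL H c c' γ)
    (hδ : PathL H d d' δ) (h1 : H.Adj a' b) (h2 : H.Adj b' c) (h3 : H.Adj c' d)
    (h4 : H.Adj d' a) (m1 : M a' b) (m2 : M b' c) (m3 : M c' d) (m4 : M d' a)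
    (dab : List.Disjoint α β) (dac : List.Disjoint α γ) (dad : List.Disjoint α δ)
    (dbc : List.Disjoint β γ) (dbd : List.Disjoint β δ) (dcd : List.Disjoint γ δ) :
    ∃ l, CycL H l ∧ 3 ≤ cyc M l := by
  have s1 := cg_app H M (k₁ := 0) (k₂ := 0) hα hβ h1 m1 dab (Nat.zero_le _) (Nat.zero_le _)
  have s2 := cg_app H M (k₂ := 0) s1.1 hγ h2 m2
    (List.disjoint_append_left.2 ⟨dac, dbc⟩) s1.2 (Nat.zero_le _)
  have s3 := cg_app H M (k₂ := 0) s2.1 hδ h3 m3
    (List.disjoint_append_left.2 ⟨List.disjoint_append_left.2 ⟨dad, dbd⟩, dcd⟩) s2.2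
    (Nat.zero_le _)
  refine ⟨α ++ β ++ γ ++ δ, ⟨a, d', s3.1, ?_, h4⟩, ?_⟩
  · have e1 := List.length_pos_iff.2 hα.ne_nil
    have e2 := List.length_pos_iff.2 hβ.ne_nil
    have e3 := List.length_pos_iff.2 hγ.ne_nil
    simp only [List.length_append]
    omega
  · unfold cyc
    rw [s3.1.2.2.1]
    have e := cnt_junction M (α ++ β ++ γ ++ δ) [a] d' a s3.1.2.2.2 rfl m4
    have e' := s3.2
    simp only [Option.toList_some]
    omega

private theorem cg_main [Fintype V] [DecidableEq V] (H : SimpleGraph V) (M : V → V → Prop)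
    (hsym : ∀ x y, M x y → M y x) (X Y : Finset V) (hXY : Disjoint X Y) (u v : Fin 4 → V)
    (hv : Function.Injective v)
    (huv : ∀ i, u i ∈ X ∧ v i ∈ Y ∧ H.Adj (u i) (v i) ∧ M (u i) (v i))
    (hYc : ∀ C ⊆ Y, C.card ≤ 1 → ∀ a ∈ Y \ C, ∀ b ∈ Y \ C, Joined H (Y \ C) a b)
    (i j k m : Fin 4) (hij : i ≠ j) (hkm : k ≠ m) (hik : i ≠ k) (him : i ≠ m) (hjk : j ≠ k)
    (hjm : j ≠ m)
    (α β : List V) (hα : PathL H (u i) (u k) α) (hβ : PathL H (u j) (u m) β)
    (hd : List.Disjoint α β) (hαX : ∀ w ∈ α, w ∈ X) (hβX : ∀ w ∈ β, w ∈ X) :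
    ∃ l, CycL H l ∧ 3 ≤ cyc M l := by
  have hPY : ({v i, v k} : Finset V) ⊆ Y := by
    intro x hx
    rcases Finset.mem_insert.1 hx with rfl | hx
    · exact (huv i).2.1
    · rw [Finset.mem_singleton.1 hx]; exact (huv k).2.1
  have hQY : ({v j, v m} : Finset V) ⊆ Y := by
    intro x hx
    rcases Finset.mem_insert.1 hx with rfl | hx
    · exact (huv j).2.1
    · rw [Finset.mem_singleton.1 hx]; exact (huv m).2.1
  -- ends
  have key : ∀ (γ δ : List V) (q q' : V), q ∈ ({v j, v m} : Finset V) →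
      q' ∈ ({v j, v m} : Finset V) → q ≠ q' → PathL H (v i) q γ → PathL H (v k) q' δ →
      List.Disjoint γ δ → (∀ w ∈ γ, w ∈ Y) → (∀ w ∈ δ, w ∈ Y) →
      ∃ l, CycL H l ∧ 3 ≤ cyc M l := by
    intro γ δ q q' hq hq' hqq hγ hδ hγδ hγY hδY
    have dis : ∀ s t : List V, (∀ w ∈ s, w ∈ X) → (∀ w ∈ t, w ∈ Y) → List.Disjoint s t := by
      intro s t hs ht w hw hw'
      exact Finset.disjoint_left.1 hXY (hs w hw) (ht w hw')
    have rev : ∀ s : List V, ∀ Z : Finset V, (∀ w ∈ s, w ∈ Z) → ∀ w ∈ s.reverse, w ∈ Z :=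
      fun s Z hs w hw => hs w (List.mem_reverse.1 hw)
    rcases Finset.mem_insert.1 hq with rfl | hq
    · have hq2 : q' = v m := by
        rcases Finset.mem_insert.1 hq' with h | h
        · exact absurd h.symm hqq
        · exact Finset.mem_singleton.1 h
      subst hq2
      -- alpha, delta, beta reversed, gamma reversed
      exact cg_core H M hα hδ hβ.reverse hγ.reverse (huv k).2.2.1 (huv m).2.2.1.symm
        (huv j).2.2.1 (huv i).2.2.1.symm (huv k).2.2.2 (hsym _ _ (huv m).2.2.2) (huv j).2.2.2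
        (hsym _ _ (huv i).2.2.2) (dis _ _ hαX hδY)
        (fun w hw hw' => hd hw (List.mem_reverse.1 hw'))
        (dis _ _ hαX (rev _ _ hγY)) (dis _ _ (rev _ _ hβX) hδY).symm
        (fun w hw hw' => hγδ (List.mem_reverse.1 hw') hw)
        (dis _ _ (rev _ _ hβX) (rev _ _ hγY))
    · have hq1 := Finset.mem_singleton.1 hq
      subst hq1
      have hq2 : q' = v j := by
        rcases Finset.mem_insert.1 hq' with h | h
        · exact h
        · exact absurd (Finset.mem_singleton.1 h).symm hqq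
      subst hq2
      exact cg_core H M hα hδ hβ hγ.reverse (huv k).2.2.1 (huv j).2.2.1.symm
        (huv m).2.2.1 (huv i).2.2.1.symm (huv k).2.2.2 (hsym _ _ (huv j).2.2.2) (huv m).2.2.2
        (hsym _ _ (huv i).2.2.2) (dis _ _ hαX hδY) hd
        (dis _ _ hαX (rev _ _ hγY)) (dis _ _ hβX hδY).symm
        (fun w hw hw' => hγδ (List.mem_reverse.1 hw') hw)
        (dis _ _ hβX (rev _ _ hγY))
  obtain ⟨γ, δ, p, p', q, q', hp, hp', hpp, hq, hq', hqq, hγ, hδ, hγδ, hγY, hδY⟩ :=
    two_paths H Y hYc {v i, v k} {v j, v m} hPY hQY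
      (Finset.card_pair (fun h => hik (hv h))) (Finset.card_pair (fun h => hjm (hv h)))
  rcases Finset.mem_insert.1 hp with rfl | hp
  · have hp2 : p' = v k := by
      rcases Finset.mem_insert.1 hp' with h | h
      · exact absurd h.symm hpp
      · exact Finset.mem_singleton.1 h
    subst hp2
    exact key γ δ q q' hq hq' hqq hγ hδ hγδ hγY hδY
  · have hp1 := Finset.mem_singleton.1 hp
    subst hp1
    have hp2 : p' = v i := by
      rcases Finset.mem_insert.1 hp' with h | h
      · exact h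
      · exact absurd (Finset.mem_singleton.1 h).symm hpp
    subst hp2
    exact key δ γ q' q hq' hq hqq.symm hδ hγ hγδ.symm hδY hγY

/-- LEMMA M, second case: `X` and `Y` stay connected when one vertex is removed.
PROOF. `two_paths` in `X` for `{u 0, u 1}` and `{u 2, u 3}`: after renumbering disjoint paths `α` from
`u 0` to `u 2` and `β` from `u 1` to `u 3` (renumber by a permutation of `Fin 4`).  `two_paths` in
`Y` for `{v 0, v 2}` and `{v 1, v 3}`: disjoint paths.  If they are `γ : v 2 → v 1` and `δ : v 0 → v 3`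
the cycle is `α ++ γ ++ β ++ δ.reverse`, (`u 0 … u 2, v 2 … v 1, u 1 … u 3, v 3 … v 0`, closed by
`v 0 u 0`), if they are `γ : v 2 → v 3`, `δ : v 0 → v 1` it is `α ++ γ ++ β.reverse ++ δ.reverse`.
No duplicates: `X`, `Y` disjoint and the pairs of paths are disjoint.  Four junctions are in `M`
(three inside, one closing): `cnt_junction`. -/
theorem four_M_two [Fintype V] [DecidableEq V] (H : SimpleGraph V) (M : V → V → Prop)
    (hsym : ∀ x y, M x y → M y x) (X Y : Finset V) (hXY : Disjoint X Y) (u v : Fin 4 → V)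
    (hu : Function.Injective u) (hv : Function.Injective v)
    (huv : ∀ i, u i ∈ X ∧ v i ∈ Y ∧ H.Adj (u i) (v i) ∧ M (u i) (v i))
    (hXc : ∀ C ⊆ X, C.card ≤ 1 → ∀ a ∈ X \ C, ∀ b ∈ X \ C, Joined H (X \ C) a b)
    (hYc : ∀ C ⊆ Y, C.card ≤ 1 → ∀ a ∈ Y \ C, ∀ b ∈ Y \ C, Joined H (Y \ C) a b) :
    ∃ l, CycL H l ∧ 3 ≤ cyc M l := by
  have hsub : ∀ i j : Fin 4, ({u i, u j} : Finset V) ⊆ X := by
    intro i j x hx
    rcases Finset.mem_insert.1 hx with rfl | hx
    · exact (huv i).1
    · rw [Finset.mem_singleton.1 hx]; exact (huv j).1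
  have h01 : (0 : Fin 4) ≠ 1 := by decide
  have h02 : (0 : Fin 4) ≠ 2 := by decide
  have h03 : (0 : Fin 4) ≠ 3 := by decide
  have h12 : (1 : Fin 4) ≠ 2 := by decide
  have h13 : (1 : Fin 4) ≠ 3 := by decide
  have h23 : (2 : Fin 4) ≠ 3 := by decide
  obtain ⟨α, β, p, p', q, q', hp, hp', hpp, hq, hq', hqq, hα, hβ, hαβ, hαX, hβX⟩ :=
    two_paths H X hXc {u 0, u 1} {u 2, u 3} (hsub 0 1) (hsub 2 3)
      (Finset.card_pair (fun h => h01 (hu h))) (Finset.card_pair (fun h => h23 (hu h)))
  have hp2 : (p = u 0 ∧ p' = u 1) ∨ (p = u 1 ∧ p' = u 0) := by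
    rcases Finset.mem_insert.1 hp with h | h <;> rcases Finset.mem_insert.1 hp' with h' | h'
    · exact absurd (h.trans h'.symm) hpp
    · exact Or.inl ⟨h, Finset.mem_singleton.1 h'⟩
    · exact Or.inr ⟨Finset.mem_singleton.1 h, h'⟩
    · exact absurd ((Finset.mem_singleton.1 h).trans (Finset.mem_singleton.1 h').symm) hpp
  have hq2 : (q = u 2 ∧ q' = u 3) ∨ (q = u 3 ∧ q' = u 2) := by
    rcases Finset.mem_insert.1 hq with h | h <;> rcases Finset.mem_insert.1 hq' with h' | h'
    · exact absurd (h.trans h'.symm) hqq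
    · exact Or.inl ⟨h, Finset.mem_singleton.1 h'⟩
    · exact Or.inr ⟨Finset.mem_singleton.1 h, h'⟩
    · exact absurd ((Finset.mem_singleton.1 h).trans (Finset.mem_singleton.1 h').symm) hqq
  rcases hp2 with ⟨rfl, rfl⟩ | ⟨rfl, rfl⟩ <;> rcases hq2 with ⟨rfl, rfl⟩ | ⟨rfl, rfl⟩
  · exact cg_main H M hsym X Y hXY u v hv huv hYc 0 1 2 3 h01 h23 h02 h03 h12 h13 α β hα hβ
      hαβ hαX hβX
  · exact cg_main H M hsym X Y hXY u v hv huv hYc 0 1 3 2 h01 h23.symm h03 h02 h13 h12 α β hα hβ
      hαβ hαX hβX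
  · exact cg_main H M hsym X Y hXY u v hv huv hYc 1 0 2 3 h01.symm h23 h12 h13 h02 h03 α β hα hβ
      hαβ hαX hβX
  · exact cg_main H M hsym X Y hXY u v hv huv hYc 1 0 3 2 h01.symm h23.symm h13 h12 h03 h02 α β
      hα hβ hαβ hαX hβX
/- END cg -/

/- MODULE ch -/
/-- LEMMA M.  PROOF. If `X` or `Y` has `C` and two vertices as in `four_M_cut` (for `X` exchange the
roles of `X` and `Y`, `M` is symmetric) use it; otherwise `four_cross` and `four_M_two`. -/
theorem four_M [Fintype V] [DecidableEq V] (H : SimpleGraph V) (M : V → V → Prop)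
    (hsym : ∀ x y, M x y → M y x) (hM : ∀ x y y', M x y → M x y' → y = y')
    (W X S Y : Finset V) (hW : W = X ∪ S ∪ Y) (hXS : Disjoint X S)
    (hXY : Disjoint X Y) (hSY : Disjoint S Y) (hS : S.card ≤ 2) (hX : X.Nonempty)
    (hY : Y.Nonempty) (hconn : Conn H W 5) (hdeg : ∀ v ∈ W, 7 ≤ dg H W v)
    (hcross : ∀ x ∈ X, ∀ y ∈ Y, H.Adj x y → M x y) : ∃ l, CycL H l ∧ 3 ≤ cyc M l := by
  by_cases hcY : ∃ C ⊆ Y, C.card ≤ 1 ∧ ∃ v₁ ∈ Y \ C, ∃ v₂ ∈ Y \ C, ¬ Joined H (Y \ C) v₁ v₂
  · obtain ⟨C, hC, hC1, v₁, h₁, v₂, h₂, hnot⟩ := hcY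
    exact four_M_cut H M hsym W X S Y hW hXS hXY hSY hS hconn hcross C hC hC1 v₁ v₂ h₁ h₂ hnot
  by_cases hcX : ∃ C ⊆ X, C.card ≤ 1 ∧ ∃ v₁ ∈ X \ C, ∃ v₂ ∈ X \ C, ¬ Joined H (X \ C) v₁ v₂
  · obtain ⟨C, hC, hC1, v₁, h₁, v₂, h₂, hnot⟩ := hcX
    refine four_M_cut H M hsym W Y S X ?_ hSY.symm hXY.symm hXS.symm hS hconn ?_ C hC hC1 v₁ v₂
      h₁ h₂ hnot
    · rw [hW, Finset.union_comm (X ∪ S) Y, Finset.union_comm X S, Finset.union_assoc]
    · intro x hx y hy hxy
      exact hsym _ _ (hcross y hy x hx hxy.symm)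
  push Not at hcX hcY
  obtain ⟨u, v, hu, hv, huv⟩ := four_cross H M hsym hM W X S Y hW hXS hXY hSY hS hX hY hconn hdeg
    hcross
  exact four_M_two H M hsym X Y hXY u v hu hv huv
    (fun C hC hC1 a ha b hb => hcX C hC hC1 a ha b hb)
    (fun C hC hC1 a ha b hb => hcY C hC hC1 a ha b hb)
/- END ch -/

/- MODULE ci -/
private theorem ci_ne {r : V → V → Prop} {z : V} (hr : ∀ a b, r a b → b ≠ z) :
    ∀ (l : List V), l.IsChain r → (∀ a, l.head? = some a → a ≠ z) → ∀ w ∈ l, w ≠ z := by
  intro l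
  induction l with
  | nil => intro _ _ w hw; simp at hw
  | cons a l ih =>
    intro hc hh w hw
    rcases List.mem_cons.1 hw with rfl | hw'
    · exact hh w rfl
    · refine ih hc.tail ?_ w hw'
      intro b hb
      rw [List.isChain_cons] at hc
      exact hr a b (hc.1 b hb)

private theorem ci_chain {R S : V → V → Prop} : ∀ (l : List V), l.IsChain R →
    (∀ a ∈ l, ∀ b ∈ l, R a b → S a b) → l.IsChain S := by
  intro l
  induction l with
  | nil => intro _ _; exact List.isChain_nil
  | cons a l ih =>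
    intro hc h
    rw [List.isChain_cons] at hc ⊢
    refine ⟨?_, ih hc.2 (fun x hx y hy => h x (List.mem_cons_of_mem _ hx) y
      (List.mem_cons_of_mem _ hy))⟩
    intro b hb
    exact h a List.mem_cons_self b (List.mem_cons_of_mem _ (mem_of_head? hb)) (hc.1 b hb)

private theorem ci_tail {F : SimpleGraph V} {z c : V} {l : List V} (h : PathL F z c l)
    (hzc : z ≠ c) : ∃ a t, l = z :: a :: t ∧ F.Adj z a ∧ PathL F a c (a :: t) ∧ z ∉ a :: t := by
  obtain ⟨hc, hn, hh, hl⟩ := h
  cases l with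
  | nil => simp at hh
  | cons b l =>
    simp only [List.head?_cons, Option.some.injEq] at hh
    subst hh
    cases l with
    | nil =>
      simp only [List.getLast?_singleton, Option.some.injEq] at hl
      exact absurd hl hzc
    | cons a t =>
      have h1 := List.isChain_cons_cons.1 hc
      have h2 := List.nodup_cons.1 hn
      exact ⟨a, t, rfl, h1.1, ⟨h1.2, h2.2, rfl, by simpa using hl⟩, h2.1⟩

private theorem ci_cons {F : SimpleGraph V} {z a c : V} {l : List V} (h : PathL F a c l)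
    (hza : F.Adj z a) (hz : z ∉ l) : PathL F z c (z :: l) := by
  obtain ⟨hc, hn, hh, hl⟩ := h
  cases l with
  | nil => simp at hh
  | cons b l =>
    simp only [List.head?_cons, Option.some.injEq] at hh
    subst hh
    exact ⟨List.isChain_cons_cons.2 ⟨hza, hc⟩, List.nodup_cons.2 ⟨hz, hn⟩, rfl, by simpa using hl⟩

/-- A fan: either three paths from `z` to `C`, disjoint up to `z`, meeting `C` only in their last vertex,
or at most two vertices separate `z` from the rest of `C`.
PROOF. `menger_rel` for `r x y := F.Adj x y ∧ x ≠ z ∧ y ≠ z`, `A` = neighbours of `z`, `B = C`, `p = 3`.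
If there is a separator `S` with at most two elements, then `S ∖ {z}` is the set of the second
alternative (the vertices after `z` of a path from `z` to `c ∈ C` form an `A`-`C` walk which avoids
`z`).  Otherwise three disjoint walks; cut each at its first vertex in `C` (`walk_cut_first`), make
them paths (`walk_to_path`), put `z` in front. -/
theorem fan3 [Fintype V] [DecidableEq V] (F : SimpleGraph V) (z : V) (C : Finset V) (hz : z ∉ C) :
    (∃ (P : Fin 3 → List V) (e : Fin 3 → V), (∀ i, e i ∈ C ∧ PathL F z (e i) (P i) ∧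
        ∀ w ∈ P i, w ∈ C → w = e i) ∧
      ∀ i j, i ≠ j → ∀ w ∈ P i, w ∈ P j → w = z) ∨
    ∃ S : Finset V, S.card ≤ 2 ∧ z ∉ S ∧
      ∀ c ∈ C, c ∉ S → ¬ ∃ l, PathL F z c l ∧ ∀ w ∈ l, w ∉ S := by
  classical
  set r : V → V → Prop := fun x y => F.Adj x y ∧ x ≠ z ∧ y ≠ z with hr
  set A : Finset V := Finset.univ.filter (fun a => F.Adj z a) with hA
  by_cases h : ∀ X : Finset V, Sep r A C X → 3 ≤ X.card
  · left
    obtain ⟨P, hP, hd⟩ := menger_rel r A C 3 h
    have key : ∀ i : Fin 3, ∃ (Q : List V) (e : V), e ∈ C ∧ PathL F z e Q ∧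
        (∀ w ∈ Q, w ∈ C → w = e) ∧ ∀ w ∈ Q, w = z ∨ w ∈ P i := by
      intro i
      have h1 := hP i i.2
      obtain ⟨b0, hb0C, hb0⟩ := h1.2.2
      obtain ⟨l', b, hbC, hpre, hw, hl'⟩ := walk_cut_first h1 ⟨b0, mem_of_getLast? hb0, hb0C⟩
      obtain ⟨hc, ⟨a, haA, ha⟩, ⟨b', hb'C, hb'⟩⟩ := hw
      obtain ⟨l, g1, g2, g3, g4, g5⟩ := walk_to_path hc ha hb'
      have hbb : b' = b := by
        rw [List.getLast?_append_of_ne_nil _ (by simp)] at hb'
        simpa using hb'.symm
      subst hbb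
      have hza : F.Adj z a := (Finset.mem_filter.1 haA).2
      have hzl : z ∉ l := by
        intro hzl
        refine ci_ne (r := r) (z := z) (fun a b hab => hab.2.2) l g1 ?_ z hzl rfl
        intro a' ha'
        rw [g3] at ha'
        simp only [Option.some.injEq] at ha'
        subst ha'
        exact hza.ne'
      have hpl : PathL F a b' l := ⟨g1.imp (fun _ _ hab => hab.1), g2, g3, g4⟩
      refine ⟨z :: l, b', hbC, ci_cons hpl hza hzl, ?_, ?_⟩
      · intro w hw hwC
        rcases List.mem_cons.1 hw with rfl | hw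
        · exact absurd hwC hz
        · rcases List.mem_append.1 (g5 w hw) with h2 | h2
          · exact absurd hwC (hl' w h2)
          · simpa using h2
      · intro w hw
        rcases List.mem_cons.1 hw with rfl | hw
        · exact Or.inl rfl
        · exact Or.inr (hpre.subset (g5 w hw))
    choose Q e hQ using key
    refine ⟨Q, e, fun i => ⟨(hQ i).1, (hQ i).2.1, (hQ i).2.2.1⟩, ?_⟩
    intro i j hij w hwi hwj
    rcases (hQ i).2.2.2 w hwi with h1 | h1
    · exact h1
    · rcases (hQ j).2.2.2 w hwj with h2 | h2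
      · exact h2
      · exact absurd h2 (hd i i.2 j j.2 (fun h' => hij (Fin.ext h')) h1)
  · right
    push Not at h
    obtain ⟨X, hX, hXc⟩ := h
    refine ⟨X.erase z, (Finset.card_erase_le).trans (by omega), by simp, ?_⟩
    rintro c hcC hcS ⟨l, hl, hlS⟩
    obtain ⟨a, t, rfl, hza, hp, hzt⟩ := ci_tail hl (fun h' => hz (h' ▸ hcC))
    obtain ⟨v, hv, hvX⟩ := hX (a :: t) ⟨ci_chain _ hp.1 (fun x hx y hy hxy =>
      ⟨hxy, fun h' => hzt (h' ▸ hx), fun h' => hzt (h' ▸ hy)⟩), ⟨a, by simp [hA, hza], rfl⟩,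
      ⟨c, hcC, hp.2.2.2⟩⟩
    exact hlS v (List.mem_cons_of_mem _ hv)
      (Finset.mem_erase.2 ⟨fun h' => hzt (h' ▸ hv), hvX⟩)
/- END ci -/

/- MODULE cj -/
private theorem cj_core (F : SimpleGraph V) (x y z u v : V) (s t₁ t₂ p q : List V)
    (hl : PathL F x y (s ++ u :: (t₁ ++ v :: t₂)))
    (hp : PathL F z u p) (hq : PathL F z v q)
    (hpl : ∀ w ∈ p, w ∈ (s ++ u :: (t₁ ++ v :: t₂)) → w = u)
    (hql : ∀ w ∈ q, w ∈ (s ++ u :: (t₁ ++ v :: t₂)) → w = v)
    (hpq : ∀ w ∈ p, w ∈ q → w = z) :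
    ∃ l', PathL F x y l' ∧ z ∈ l' ∧
      ∀ w ∈ l', w ∈ (s ++ u :: (t₁ ++ v :: t₂)) ∨ w ∈ p ∨ w ∈ q := by
  obtain ⟨hc, hn, hh, hla⟩ := hl
  have e1 : s ++ u :: (t₁ ++ v :: t₂) = (s ++ [u]) ++ (t₁ ++ v :: t₂) := by simp
  have e2 : s ++ u :: (t₁ ++ v :: t₂) = (s ++ u :: t₁) ++ v :: t₂ := by simp
  have h1 : PathL F x u (s ++ [u]) := by
    refine ⟨?_, ?_, ?_, by simp⟩
    · rw [e1, List.isChain_append] at hc
      exact hc.1
    · rw [e1, List.nodup_append] at hn
      exact hn.1
    · rw [e1, List.head?_append_of_ne_nil _ (by simp)] at hh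
      exact hh
  have h2 : PathL F v y (v :: t₂) := by
    refine ⟨?_, ?_, rfl, ?_⟩
    · rw [e2, List.isChain_append] at hc
      exact hc.2.1
    · rw [e2, List.nodup_append] at hn
      exact hn.2.1
    · rw [e2, List.getLast?_append_of_ne_nil _ (by simp)] at hla
      exact hla
  have hm1 : ∀ w ∈ s ++ [u], w ∈ s ++ u :: (t₁ ++ v :: t₂) := by
    intro w hw
    rw [e1]; exact List.mem_append_left _ hw
  have hm2 : ∀ w ∈ v :: t₂, w ∈ s ++ u :: (t₁ ++ v :: t₂) := by
    intro w hw
    rw [e2]; exact List.mem_append_right _ hw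
  have hdis : ∀ w ∈ s ++ [u], w ∉ v :: t₂ := by
    intro w hw hw'
    rw [e1, List.nodup_append] at hn
    exact hn.2.2 w hw w (List.mem_append_right _ hw') rfl
  have g1 := h1.glue hp.reverse (fun w hw hw' => hpl w (List.mem_reverse.1 hw') (hm1 w hw))
  have g2 := g1.glue hq (by
    intro w hw hw'
    rcases List.mem_append.1 hw with hw | hw
    · have := hql w hw' (hm1 w hw)
      subst this
      exact absurd List.mem_cons_self (hdis w hw)
    · exact hpq w (List.mem_reverse.1 (List.mem_of_mem_tail hw)) hw')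
  have g3 := g2.glue h2 (by
    intro w hw hw'
    rcases List.mem_append.1 hw with hw | hw
    · rcases List.mem_append.1 hw with hw | hw
      · exact absurd hw' (hdis w hw)
      · have := hpl w (List.mem_reverse.1 (List.mem_of_mem_tail hw)) (hm2 w hw')
        subst this
        exact absurd hw' (hdis w (by simp))
    · exact hql w (List.mem_of_mem_tail hw) (hm2 w hw'))
  refine ⟨_, g3, ?_, ?_⟩
  · exact List.mem_append_left _ (List.mem_append_left _ g1.right_mem)
  · intro w hw
    rcases List.mem_append.1 hw with hw | hw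
    · rcases List.mem_append.1 hw with hw | hw
      · rcases List.mem_append.1 hw with hw | hw
        · exact Or.inl (hm1 w hw)
        · exact Or.inr (Or.inl (List.mem_reverse.1 (List.mem_of_mem_tail hw)))
      · exact Or.inr (Or.inr (List.mem_of_mem_tail hw))
    · exact Or.inl (hm2 w (List.mem_cons_of_mem _ hw))

/-- Rerouting an arc.  `l` is a path from `x` to `y`, `p : z → u`, `q : z → v` are paths disjoint up to
`z`, meeting `l` only in `u`, `v` (`u ≠ v` on `l`, `z ∉ l`).  Then there is a path from `x` to `y` through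
`z` in `l ∪ p ∪ q`.
PROOF. Write `l = l₁ ++ [a] ++ l₂ ++ [b] ++ l₃` with `{a, b} = {u, v}`; say `a = u`, `b = v` (otherwise
exchange): `l₁ ++ p.reverse ++ q.tail ++ l₃`. -/
theorem reroute (F : SimpleGraph V) (x y z u v : V) (l p q : List V) (hl : PathL F x y l)
    (hp : PathL F z u p) (hq : PathL F z v q) (huv : u ≠ v) (hu : u ∈ l) (hv : v ∈ l) (hz : z ∉ l)
    (hpl : ∀ w ∈ p, w ∈ l → w = u) (hql : ∀ w ∈ q, w ∈ l → w = v)
    (hpq : ∀ w ∈ p, w ∈ q → w = z) :
    ∃ l', PathL F x y l' ∧ z ∈ l' ∧ ∀ w ∈ l', w ∈ l ∨ w ∈ p ∨ w ∈ q := by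
  obtain ⟨s, t, rfl⟩ := List.append_of_mem hu
  rcases List.mem_append.1 hv with hvs | hvt
  · obtain ⟨s₁, s₂, rfl⟩ := List.append_of_mem hvs
    have e : (s₁ ++ v :: s₂) ++ u :: t = s₁ ++ v :: (s₂ ++ u :: t) := by simp
    rw [e] at hl hpl hql ⊢
    obtain ⟨l', h1, h2, h3⟩ := cj_core F x y z v u s₁ s₂ t q p hl hq hp hql hpl
      (fun w hw hw' => hpq w hw' hw)
    refine ⟨l', h1, h2, fun w hw => ?_⟩
    rcases h3 w hw with h | h | h
    · exact Or.inl h
    · exact Or.inr (Or.inr h)
    · exact Or.inr (Or.inl h)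
  · rcases List.mem_cons.1 hvt with h | hvt
    · exact absurd h.symm huv
    · obtain ⟨t₁, t₂, rfl⟩ := List.append_of_mem hvt
      exact cj_core F x y z u v s t₁ t₂ p q hl hp hq hpl hql hpq
/- END cj -/

/- MODULE ck -/
private theorem ck_arm (F : SimpleGraph V) (x y z b : V) (l : List V) (hl : PathL F z b l)
    (h : ∀ w ∈ l, w = b ∨ (w ≠ x ∧ w ≠ y)) :
    ∀ w ∈ l, w = b ∨ ∃ p, PathL F z w p ∧ x ∉ p ∧ y ∉ p := by
  intro w hw
  by_cases hwb : w = b
  · exact Or.inl hwb
  right
  obtain ⟨s, t, rfl⟩ := List.append_of_mem hw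
  obtain ⟨hc, hn, hh, hla⟩ := hl
  have e1 : s ++ w :: t = (s ++ [w]) ++ t := by simp
  have hbt : b ∈ t := by
    rw [List.getLast?_append_of_ne_nil _ (by simp)] at hla
    cases t with
    | nil =>
      simp only [List.getLast?_singleton, Option.some.injEq] at hla
      exact absurd hla hwb
    | cons c t =>
      rw [List.getLast?_cons_cons] at hla
      exact mem_of_getLast? hla
  have hb : ∀ v ∈ s ++ [w], v ≠ b := by
    intro v hv hvb
    subst hvb
    rw [e1, List.nodup_append] at hn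
    exact hn.2.2 v hv v hbt rfl
  refine ⟨s ++ [w], ⟨?_, ?_, ?_, by simp⟩, ?_, ?_⟩
  · rw [e1, List.isChain_append] at hc
    exact hc.1
  · rw [e1, List.nodup_append] at hn
    exact hn.1
  · rw [e1, List.head?_append_of_ne_nil _ (by simp)] at hh
    exact hh
  · intro hx
    rcases h x (by rw [e1]; exact List.mem_append_left _ hx) with h' | h'
    · exact hb x hx h'
    · exact h'.1 rfl
  · intro hy
    rcases h y (by rw [e1]; exact List.mem_append_left _ hy) with h' | h'
    · exact hb y hy h'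
    · exact h'.2 rfl

private theorem ck_join (F : SimpleGraph V) (x y z : V) (l l' : List V)
    (hl : PathL F z x l) (hl' : PathL F z y l')
    (h : ∀ w ∈ l, w = x ∨ (w ≠ x ∧ w ≠ y)) (h' : ∀ w ∈ l', w = y ∨ (w ≠ x ∧ w ≠ y))
    (hd : ∀ w ∈ l, w ∈ l' → w = z) :
    ∃ l, PathL F x y l ∧ z ∈ l ∧ ∀ w ∈ l, w = x ∨ w = y ∨
      ∃ p, PathL F z w p ∧ x ∉ p ∧ y ∉ p := by
  refine ⟨_, hl.reverse.glue hl' (fun w hw hw' => hd w (List.mem_reverse.1 hw) hw'),
    List.mem_append_left _ hl.reverse.right_mem, ?_⟩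
  intro w hw
  rcases List.mem_append.1 hw with hw | hw
  · rcases ck_arm F x y z x l hl h w (List.mem_reverse.1 hw) with h1 | h1
    · exact Or.inl h1
    · exact Or.inr (Or.inr h1)
  · rcases ck_arm F x y z y l' hl' h' w (List.mem_of_mem_tail hw) with h1 | h1
    · exact Or.inr (Or.inl h1)
    · exact Or.inr (Or.inr h1)

/-- The case of a separator `{x, y}`: `z` is not connected to the cycle without passing `x` or `y`.
PROOF. Let `Z` be the set of the vertices joined to `z` by a path avoiding `x`, `y`.  Menger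
(`menger_rel`, `p = 2`) for `r a b := F.Adj a b ∧ a ∈ Z ∪ {x, y} ∧ b ∈ Z ∪ {x, y} ∧ a ≠ z ∧ b ≠ z`, `A` = neighbours
of `z`(all in `Z ∪ {x, y}`), `B = {x, y}`.  No separator has at most one element: let `s` be one
(or none), say `s ≠ x` (`B ∖ {s} ≠ ∅`; the case `s ≠ y` is the same); `Insep F z x` for
`S = {s, y} ∖ {z}` (if `s = y`: `{y}`) gives a path from `z` to `x` avoiding `s` and `y`; all its vertices
but the last are in `Z` (they are joined to `z` avoiding `x`, `y`), its part after `z` is an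
`A`-`B` walk avoiding `s`, contradiction (if `s = z`, the part after `z` does not contain `z` either).
So there are two disjoint walks from neighbours of `z`, one ending in `x`, the other in `y`; each meets
`{x, y}` only in its end (take the first one, `walk_cut_first`); reverse the first, put `z`
between. -/
theorem through_z [Fintype V] [DecidableEq V] (F : SimpleGraph V) (x y z : V) (hxy : x ≠ y)
    (hxz : x ≠ z) (hyz : y ≠ z) (ixz : Insep F z x) (iyz : Insep F z y) :
    ∃ l, PathL F x y l ∧ z ∈ l ∧ ∀ w ∈ l, w = x ∨ w = y ∨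
      ∃ p, PathL F z w p ∧ x ∉ p ∧ y ∉ p := by
  classical
  set r : V → V → Prop := fun a b => F.Adj a b ∧ a ≠ z ∧ b ≠ z with hr
  set A : Finset V := Finset.univ.filter (fun a => F.Adj z a) with hA
  have hsep : ∀ X : Finset V, Sep r A {x, y} X → 2 ≤ X.card := by
    intro X hX
    by_contra hlt
    have hpath : ∀ t, t = x ∨ t = y → t ∉ X → False := by
      intro t ht htX
      have hzt : z ≠ t := by
        rcases ht with rfl | rfl
        · exact hxz.symm
        · exact hyz.symm
      have hi : Insep F z t := by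
        rcases ht with rfl | rfl
        · exact ixz
        · exact iyz
      obtain ⟨l, hl, hlS⟩ := hi (X.erase z) ((Finset.card_erase_le).trans (by omega)) (by simp)
        (fun h => htX (Finset.mem_erase.1 h).2)
      obtain ⟨a, s, rfl, hza, hp, hzs⟩ := ci_tail hl hzt
      obtain ⟨v, hv, hvX⟩ := hX (a :: s) ⟨ci_chain _ hp.1 (fun x hx y hy hxy =>
        ⟨hxy, fun h' => hzs (h' ▸ hx), fun h' => hzs (h' ▸ hy)⟩), ⟨a, by simp [hA, hza], rfl⟩,
        ⟨t, by simpa using ht, hp.2.2.2⟩⟩
      exact hlS v (List.mem_cons_of_mem _ hv)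
        (Finset.mem_erase.2 ⟨fun h' => hzs (h' ▸ hv), hvX⟩)
    have hx : x ∈ X := by
      by_contra h
      exact hpath x (Or.inl rfl) h
    have hy : y ∈ X := by
      by_contra h
      exact hpath y (Or.inr rfl) h
    have := Finset.one_lt_card.2 ⟨x, hx, y, hy, hxy⟩
    omega
  obtain ⟨P, hP, hd⟩ := menger_rel r A {x, y} 2 hsep
  have key : ∀ i < 2, ∃ (Q : List V) (e : V), (e = x ∨ e = y) ∧ PathL F z e Q ∧
      (∀ w ∈ Q, w = e ∨ (w ≠ x ∧ w ≠ y)) ∧ ∀ w ∈ Q, w = z ∨ w ∈ P i := by
    intro i hi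
    have h1 := hP i hi
    obtain ⟨b0, hb0C, hb0⟩ := h1.2.2
    obtain ⟨l', b, hbC, hpre, hw, hl'⟩ := walk_cut_first h1 ⟨b0, mem_of_getLast? hb0, hb0C⟩
    obtain ⟨hc, ⟨a, haA, ha⟩, ⟨b', hb'C, hb'⟩⟩ := hw
    obtain ⟨l, g1, g2, g3, g4, g5⟩ := walk_to_path hc ha hb'
    have hbb : b' = b := by
      rw [List.getLast?_append_of_ne_nil _ (by simp)] at hb'
      simpa using hb'.symm
    subst hbb
    have hza : F.Adj z a := (Finset.mem_filter.1 haA).2
    have hzl : z ∉ l := by
      intro hzl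
      refine ci_ne (r := r) (z := z) (fun a b hab => hab.2.2) l g1 ?_ z hzl rfl
      intro a' ha'
      rw [g3] at ha'
      simp only [Option.some.injEq] at ha'
      subst ha'
      exact hza.ne'
    have hpl : PathL F a b' l := ⟨g1.imp (fun _ _ hab => hab.1), g2, g3, g4⟩
    refine ⟨z :: l, b', by simpa using hbC, ci_cons hpl hza hzl, ?_, ?_⟩
    · intro w hw
      rcases List.mem_cons.1 hw with rfl | hw
      · exact Or.inr ⟨hxz.symm, hyz.symm⟩
      · rcases List.mem_append.1 (g5 w hw) with h2 | h2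
        · have := hl' w h2
          right
          constructor
          · rintro rfl; exact this (by simp)
          · rintro rfl; exact this (by simp)
        · left; simpa using h2
    · intro w hw
      rcases List.mem_cons.1 hw with rfl | hw
      · exact Or.inl rfl
      · exact Or.inr (hpre.subset (g5 w hw))
  obtain ⟨Q, e, he, hQ, hQ1, hQ2⟩ := key 0 (by norm_num)
  obtain ⟨Q', e', he', hQ', hQ1', hQ2'⟩ := key 1 (by norm_num)
  have hdis : ∀ w ∈ Q, w ∈ Q' → w = z := by
    intro w hw hw'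
    rcases hQ2 w hw with h1 | h1
    · exact h1
    · rcases hQ2' w hw' with h2 | h2
      · exact h2
      · exact absurd h2 (hd 0 (by norm_num) 1 (by norm_num) (by norm_num) h1)
  have hee : e ≠ e' := by
    rintro rfl
    have := hdis e hQ.right_mem hQ'.right_mem
    subst this
    rcases he with h | h
    · exact hxz h.symm
    · exact hyz h.symm
  rcases he with rfl | rfl
  · have he2 : e' = y := by
      rcases he' with h | h
      · exact absurd h.symm hee
      · exact h
    subst he2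
    exact ck_join F e e' z Q Q' hQ hQ' hQ1 hQ1' hdis
  · have he2 : e' = x := by
      rcases he' with h | h
      · exact h
      · exact absurd h.symm hee
    subst he2
    exact ck_join F e' e z Q' Q hQ' hQ hQ1' hQ1 (fun w hw hw' => hdis w hw' hw)
/- END ck -/

/- MODULE cl -/
private theorem cl_fin (F : SimpleGraph V) {x y z : V} (hxy : x ≠ y) (axy : ¬ F.Adj x y)
    {l l' : List V} (hl : PathL F x y l) (hl' : PathL F x y l') (hz : z ∈ l)
    (hd : ∀ w ∈ l, w ∈ l' → w = x ∨ w = y) : ∃ l, CycL F l ∧ x ∈ l ∧ y ∈ l ∧ z ∈ l := by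
  obtain ⟨L, hL, hmem, -⟩ := cyc_of_two F x y hxy axy l l' hl hl' hd
  exact ⟨L, hL, (hmem x).2 (Or.inl hl.left_mem), (hmem y).2 (Or.inl hl.right_mem),
    (hmem z).2 (Or.inl hz)⟩

private theorem cl_two (F : SimpleGraph V) {x y z u v : V} (hxy : x ≠ y) (axy : ¬ F.Adj x y)
    {l l' p q : List V} (hl : PathL F x y l) (hl' : PathL F x y l')
    (hd : ∀ w ∈ l, w ∈ l' → w = x ∨ w = y) (hz : z ∉ l) (hp : PathL F z u p)
    (hq : PathL F z v q) (huv : u ≠ v) (hu : u ∈ l) (hv : v ∈ l)
    (hpC : ∀ w ∈ p, w ∈ l ∨ w ∈ l' → w = u) (hqC : ∀ w ∈ q, w ∈ l ∨ w ∈ l' → w = v)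
    (hpq : ∀ w ∈ p, w ∈ q → w = z) : ∃ l, CycL F l ∧ x ∈ l ∧ y ∈ l ∧ z ∈ l := by
  obtain ⟨L, hL, hzL, hLm⟩ := reroute F x y z u v l p q hl hp hq huv hu hv hz
    (fun w hw hwl => hpC w hw (Or.inl hwl)) (fun w hw hwl => hqC w hw (Or.inl hwl)) hpq
  refine cl_fin F hxy axy hL hl' hzL ?_
  intro w hw hw'
  rcases hLm w hw with h | h | h
  · exact hd w h hw'
  · have e := hpC w h (Or.inr hw')
    rw [e] at hw' ⊢
    exact hd u hu hw'
  · have e := hqC w h (Or.inr hw')
    rw [e] at hw' ⊢
    exact hd v hv hw'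

/-- LEMMA W.  Three pairwise non-adjacent, pairwise inseparable vertices lie on a cycle.
PROOF. `two_vv` with `U = univ` for `x, y` (a set `C` with at most one element is a set with at most two
elements): internally disjoint paths `l, l'` from `x` to `y`.  If `z ∈ l` or `z ∈ l'` use `cyc_of_two`.
Otherwise `fan3` for `C = l ∪ l'` (as finsets).  In the first alternative two of the three ends
`e i` lie on `l` or two of them on `l'` (exchange `l`, `l'`); `e i ≠ e j` for `i ≠ j` as the paths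
are disjoint up to `z ∉ C`; `reroute` gives `l₁` from `x` to `y` through `z` which meets `l'` only in
`x`, `y` (`P i` meets `C` only in its end, which is on `l`); `cyc_of_two` for `l₁`, `l'`.
Second alternative `S`: `x ∈ S` since otherwise `Insep F z x` gives a path from `z` to `x ∈ C`
avoiding `S`; similarly `y ∈ S`, so `S = {x, y}` (two elements).  `through_z` gives `l₁`; it meets `l`
only in `x`, `y`: a common vertex `w ≠ x, y` is joined to `z` by a path avoiding `x`, `y`, i.e.
avoiding `S`, and `w ∈ C ∖ S`, contradiction.  `cyc_of_two` for `l₁`, `l`. -/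
theorem three_cycle [Fintype V] [DecidableEq V] (F : SimpleGraph V) (x y z : V) (hxy : x ≠ y)
    (hxz : x ≠ z) (hyz : y ≠ z) (axy : ¬ F.Adj x y) (axz : ¬ F.Adj x z) (ayz : ¬ F.Adj y z)
    (ixy : Insep F x y) (ixz : Insep F z x) (iyz : Insep F z y) :
    ∃ l, CycL F l ∧ x ∈ l ∧ y ∈ l ∧ z ∈ l := by
  obtain ⟨l, l', hl, hl', -, -, hd⟩ := two_vv F Finset.univ x y (Finset.mem_univ _)
    (Finset.mem_univ _) hxy axy (by
      intro C hC hx hy
      obtain ⟨l, h1, h2⟩ := ixy C (by omega) hx hy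
      exact ⟨l, h1, fun w hw => ⟨Finset.mem_univ _, h2 w hw⟩⟩)
  have hd' : ∀ w ∈ l', w ∈ l → w = x ∨ w = y := fun w hw hw' => hd w hw' hw
  by_cases hz : z ∈ l
  · exact cl_fin F hxy axy hl hl' hz hd
  by_cases hz' : z ∈ l'
  · exact cl_fin F hxy axy hl' hl hz' hd'
  have hC : ∀ w, w ∈ l.toFinset ∪ l'.toFinset ↔ w ∈ l ∨ w ∈ l' := by
    intro w
    rw [Finset.mem_union, List.mem_toFinset, List.mem_toFinset]
  rcases fan3 F z (l.toFinset ∪ l'.toFinset) (by rw [hC]; tauto) with ⟨P, e, h1, h2⟩ | ⟨S, hS, hzS, h⟩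
  · have hne : ∀ i j, i ≠ j → e i ≠ e j := by
      intro i j hij he
      have a1 := (h1 i).2.1.right_mem
      have a2 := (h1 j).2.1.right_mem
      rw [← he] at a2
      have a3 := h2 i j hij (e i) a1 a2
      have a4 := (h1 i).1
      rw [a3, hC] at a4
      tauto
    have pick : ∀ i j, i ≠ j → (e i ∈ l ∧ e j ∈ l) ∨ (e i ∈ l' ∧ e j ∈ l') →
        ∃ l, CycL F l ∧ x ∈ l ∧ y ∈ l ∧ z ∈ l := by
      intro i j hij hh
      rcases hh with ⟨a, b⟩ | ⟨a, b⟩
      · exact cl_two F hxy axy hl hl' hd hz (h1 i).2.1 (h1 j).2.1 (hne i j hij) a b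
          (fun w hw hw' => (h1 i).2.2 w hw ((hC w).2 hw'))
          (fun w hw hw' => (h1 j).2.2 w hw ((hC w).2 hw')) (h2 i j hij)
      · exact cl_two F hxy axy hl' hl hd' hz' (h1 i).2.1 (h1 j).2.1 (hne i j hij) a b
          (fun w hw hw' => (h1 i).2.2 w hw ((hC w).2 hw'.symm))
          (fun w hw hw' => (h1 j).2.2 w hw ((hC w).2 hw'.symm)) (h2 i j hij)
    have h01 : (0 : Fin 3) ≠ 1 := by decide
    have h02 : (0 : Fin 3) ≠ 2 := by decide
    have h12 : (1 : Fin 3) ≠ 2 := by decide
    have m0 := (hC _).1 (h1 0).1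
    have m1 := (hC _).1 (h1 1).1
    have m2 := (hC _).1 (h1 2).1
    rcases m0 with m0 | m0 <;> rcases m1 with m1 | m1
    · exact pick 0 1 h01 (Or.inl ⟨m0, m1⟩)
    · rcases m2 with m2 | m2
      · exact pick 0 2 h02 (Or.inl ⟨m0, m2⟩)
      · exact pick 1 2 h12 (Or.inr ⟨m1, m2⟩)
    · rcases m2 with m2 | m2
      · exact pick 1 2 h12 (Or.inl ⟨m1, m2⟩)
      · exact pick 0 2 h02 (Or.inr ⟨m0, m2⟩)
    · exact pick 0 1 h01 (Or.inr ⟨m0, m1⟩)
  · have hxS : x ∈ S := by
      by_contra hx
      exact h x ((hC x).2 (Or.inl hl.left_mem)) hx (ixz S hS hzS hx)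
    have hyS : y ∈ S := by
      by_contra hy
      exact h y ((hC y).2 (Or.inl hl.right_mem)) hy (iyz S hS hzS hy)
    have hSe : ({x, y} : Finset V) = S := by
      apply Finset.eq_of_subset_of_card_le
      · intro w hw
        rcases Finset.mem_insert.1 hw with rfl | hw
        · exact hxS
        · rw [Finset.mem_singleton.1 hw]; exact hyS
      · rw [Finset.card_pair hxy]; exact hS
    have hmS : ∀ w, w ∈ S → w = x ∨ w = y := by
      intro w hw
      rw [← hSe] at hw
      rcases Finset.mem_insert.1 hw with hw | hw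
      · exact Or.inl hw
      · exact Or.inr (Finset.mem_singleton.1 hw)
    obtain ⟨L, hL, hzL, hLm⟩ := through_z F x y z hxy hxz hyz ixz iyz
    refine cl_fin F hxy axy hL hl hzL ?_
    intro w hw hwl
    rcases hLm w hw with h' | h' | ⟨p, hp, hxp, hyp⟩
    · exact Or.inl h'
    · exact Or.inr h'
    · by_contra hcon
      refine h w ((hC w).2 (Or.inl hwl)) (fun hwS => hcon (hmS w hwS)) ⟨p, hp, ?_⟩
      intro v hv hvS
      rcases hmS v hvS with rfl | rfl
      · exact hxp hv
      · exact hyp hv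
/- END cl -/

end Whl
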