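import Pool.Agent.Whl.Rim
import Pool.Agent.Whl.Cyc

/-!
# Theorem A: a wheel in a dense linear triple system
-/

namespace Whl

open Finset TurMod

variable {V : Type*}

/- MODULE ba -/
theorem Trip.nbrs {G : SimpleGraph V} {A B : Finset V} (hT : Trip G A B) (a : V) (ha : a ∈ A) :
    ∃ x y z, x ∈ B ∧ y ∈ B ∧ z ∈ B ∧ x ≠ y ∧ x ≠ z ∧ y ≠ z ∧ G.Adj a x ∧ G.Adj a y ∧ G.Adj a z ∧
      ∀ w ∈ B, G.Adj a w → w = x ∨ w = y ∨ w = z := by
  classical
  have h := hT.three a ha
  unfold dg at h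
  obtain ⟨x, y, z, hxy, hxz, hyz, hs⟩ := Finset.card_eq_three.1 h
  have hx : x ∈ B.filter (fun w => G.Adj a w) := by rw [hs]; simp
  have hy : y ∈ B.filter (fun w => G.Adj a w) := by rw [hs]; simp
  have hz : z ∈ B.filter (fun w => G.Adj a w) := by rw [hs]; simp
  rw [Finset.mem_filter] at hx hy hz
  refine ⟨x, y, z, hx.1, hy.1, hz.1, hxy, hxz, hyz, hx.2, hy.2, hz.2, ?_⟩
  intro w hw hw'
  have : w ∈ B.filter (fun w => G.Adj a w) := Finset.mem_filter.2 ⟨hw, hw'⟩
  rw [hs] at this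
  simpa using this

theorem Trip.lk_unique {G : SimpleGraph V} {A B : Finset V} (hT : Trip G A B) {R : Finset V}
    (hR : R ⊆ B) {x y a a' : V} (h : Lk G A R x y a) (h' : Lk G A R x y a') : a = a' := by
  classical
  by_contra hne
  have h3 := hT.lin a h.1 a' h'.1 hne
  have h4 : 2 ≤ codeg G B a a' := by
    unfold codeg
    rw [← Nat.lt_iff_add_one_le, Finset.one_lt_card]
    exact ⟨x, Finset.mem_filter.2 ⟨hR h.2.2.1, h.2.2.2.2.1, h'.2.2.2.2.1⟩, y,
      Finset.mem_filter.2 ⟨hR h.2.2.2.1, h.2.2.2.2.2.1, h'.2.2.2.2.2.1⟩, h.2.1⟩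
  omega

theorem Trip.matching {G : SimpleGraph V} {A B : Finset V} (hT : Trip G A B) {R : Finset V}
    (hR : R ⊆ B) {x y y' z : V} (hz : z ∈ B) (hzR : z ∉ R)
    (h : ∃ a, Lk G A R x y a ∧ G.Adj a z) (h' : ∃ a, Lk G A R x y' a ∧ G.Adj a z) : y = y' := by
  classical
  obtain ⟨a, ha, haz⟩ := h
  obtain ⟨a', ha', haz'⟩ := h'
  have hxz : x ≠ z := by
    rintro rfl
    exact hzR ha.2.2.1
  have : a = a' := by
    by_contra hne
    have h3 := hT.lin a ha.1 a' ha'.1 hne
    have h4 : 2 ≤ codeg G B a a' := by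
      unfold codeg
      rw [← Nat.lt_iff_add_one_le, Finset.one_lt_card]
      exact ⟨x, Finset.mem_filter.2 ⟨hR ha.2.2.1, ha.2.2.2.2.1, ha'.2.2.2.2.1⟩, z,
        Finset.mem_filter.2 ⟨hz, haz, haz'⟩, hxz⟩
    omega
  subst this
  rcases ha'.2.2.2.2.2.2 y ha.2.2.2.1 ha.2.2.2.2.2.1 with h1 | h1
  · exact absurd h1.symm ha.2.1
  · exact h1

theorem Trip.colour {G : SimpleGraph V} {A B : Finset V} (hT : Trip G A B) {R : Finset V}
    (hR : R ⊆ B) {x y a : V} (h : Lk G A R x y a) :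
    ∃ z, z ∈ B ∧ z ∉ R ∧ G.Adj a z ∧ ∀ w ∈ B, w ∉ R → G.Adj a w → w = z := by
  classical
  obtain ⟨p, q, r, hp, hq, hr, hpq, hpr, hqr, ap, aq, ar, hall⟩ := hT.nbrs a h.1
  have hnot : ¬ (p ∈ R ∧ q ∈ R ∧ r ∈ R) := by
    rintro ⟨h1, h2, h3⟩
    have e1 := h.2.2.2.2.2.2 p h1 ap
    have e2 := h.2.2.2.2.2.2 q h2 aq
    have e3 := h.2.2.2.2.2.2 r h3 ar
    rcases e1 with e1 | e1 <;> rcases e2 with e2 | e2 <;> rcases e3 with e3 | e3
    all_goals first
      | exact hpq (e1.trans e2.symm)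
      | exact hpr (e1.trans e3.symm)
      | exact hqr (e2.trans e3.symm)
  have hx := hall x (hR h.2.2.1) h.2.2.2.2.1
  have hy := hall y (hR h.2.2.2.1) h.2.2.2.2.2.1
  have hxR := h.2.2.1
  have hyR := h.2.2.2.1
  have hxy := h.2.1
  have main : ∀ w ∈ B, w ∉ R → G.Adj a w → w ≠ x ∧ w ≠ y ∧ (w = p ∨ w = q ∨ w = r) := by
    intro w hw hwR haw
    refine ⟨?_, ?_, hall w hw haw⟩
    · rintro rfl; exact hwR hxR
    · rintro rfl; exact hwR hyR
  have hz : ∃ z, z ∈ B ∧ z ∉ R ∧ G.Adj a z := by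
    by_contra hcon
    push Not at hcon
    apply hnot
    refine ⟨?_, ?_, ?_⟩
    · by_contra h1; exact hcon p hp h1 ap
    · by_contra h1; exact hcon q hq h1 aq
    · by_contra h1; exact hcon r hr h1 ar
  obtain ⟨z, hzB, hzR, haz⟩ := hz
  refine ⟨z, hzB, hzR, haz, ?_⟩
  intro w hw hwR haw
  obtain ⟨h1, h2, h3⟩ := main w hw hwR haw
  obtain ⟨h4, h5, h6⟩ := main z hzB hzR haz
  by_contra hne
  rcases hx with rfl | rfl | rfl <;> rcases hy with rfl | rfl | rfl <;>
    rcases h3 with rfl | rfl | rfl <;> rcases h6 with rfl | rfl | rfl <;>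
    first
      | exact hxy rfl
      | exact h1 rfl
      | exact h2 rfl
      | exact h4 rfl
      | exact h5 rfl
      | exact hne rfl
/- END ba -/

/- MODULE bb -/
private theorem bb_extend (F : SimpleGraph V) (S : Finset V) (x₀ x y : V) (hy : y ∉ S)
    (hxy : F.Adj x y) (h : ∃ l, PathL F x₀ x l ∧ ∀ u ∈ l, u ∉ S) :
    ∃ l, PathL F x₀ y l ∧ ∀ u ∈ l, u ∉ S := by
  obtain ⟨l, hl, hlS⟩ := h
  by_cases hyl : y ∈ l
  · obtain ⟨z, hz, _, l', hl', hsub, _⟩ := cut_first hl (fun v => v = y) ⟨y, hyl, rfl⟩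
    subst hz
    exact ⟨l', hl', fun u hu => hlS u (hsub u hu)⟩
  · have h2 : PathL F x y [x, y] := by
      refine ⟨by simpa using hxy, by simpa using hxy.ne, by simp, by simp⟩
    have h3 := hl.glue h2 (by
      intro v hv hv'
      simp only [List.mem_cons, List.not_mem_nil, or_false] at hv'
      rcases hv' with h | h
      · exact h
      · subst h; exact absurd hv hyl)
    refine ⟨_, h3, ?_⟩
    intro u hu
    rw [List.mem_append] at hu
    rcases hu with hu | hu
    · exact hlS u hu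
    · simp only [List.tail_cons, List.mem_cons, List.not_mem_nil, or_false] at hu
      subst hu
      exact hy

theorem wheel_of_conn [Fintype V] [DecidableEq V] (G : SimpleGraph V) (A B R : Finset V)
    (hT : Trip G A B) (hR : R ⊆ B) (ρ : V → ℕ) (hρ : Set.InjOn ρ B) (W : Finset V)
    (hWne : W.Nonempty) (hconn : Conn (EB G A B R ρ) W 5)
    (hdeg : ∀ v ∈ W, 7 ≤ dg (EB G A B R ρ) W v) : HasWheel G := by
  classical
  set s : Finset V := Finset.univ.filter
    (fun z => ∃ x ∈ W, ∃ y ∈ W, ∃ a, Bad G A B R ρ x y z a) with hs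
  have hsne : s.Nonempty := by
    obtain ⟨v, hv⟩ := hWne
    have h := hdeg v hv
    unfold dg at h
    obtain ⟨w, hw⟩ := Finset.card_pos.1 (by omega : 0 < (W.filter (fun w => (EB G A B R ρ).Adj v w)).card)
    obtain ⟨hwW, z, a, hb⟩ := Finset.mem_filter.1 hw
    exact ⟨z, Finset.mem_filter.2 ⟨Finset.mem_univ _, v, hv, w, hwW, a, hb⟩⟩
  obtain ⟨z, hzs, hmax⟩ := Finset.exists_max_image s ρ hsne
  obtain ⟨_, x₀, hx₀, y₀, hy₀, a₀, hb₀⟩ := Finset.mem_filter.1 hzs
  obtain ⟨hL₀, hzB, hzR, haz₀, S₀, hS₀, hxS, hyS, hno⟩ := hb₀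
  set F := FL G A B R ρ (ρ z) with hF
  set X : Finset V := (W \ S₀).filter (fun w => ∃ l, PathL F x₀ w l ∧ ∀ u ∈ l, u ∉ S₀) with hX
  set S : Finset V := W ∩ S₀ with hS
  set Y : Finset V := (W \ S₀) \ X with hY
  have hXW : ∀ v ∈ X, v ∈ W ∧ v ∉ S₀ := fun v hv =>
    Finset.mem_sdiff.1 (Finset.mem_filter.1 hv).1
  have hYW : ∀ v ∈ Y, (v ∈ W ∧ v ∉ S₀) ∧ v ∉ X := fun v hv =>
    ⟨Finset.mem_sdiff.1 (Finset.mem_sdiff.1 hv).1, (Finset.mem_sdiff.1 hv).2⟩
  have hW : W = X ∪ S ∪ Y := by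
    ext v
    simp only [Finset.mem_union]
    constructor
    · intro hv
      by_cases h1 : v ∈ S₀
      · exact Or.inl (Or.inr (Finset.mem_inter.2 ⟨hv, h1⟩))
      · by_cases h2 : v ∈ X
        · exact Or.inl (Or.inl h2)
        · exact Or.inr (Finset.mem_sdiff.2 ⟨Finset.mem_sdiff.2 ⟨hv, h1⟩, h2⟩)
    · rintro ((h | h) | h)
      · exact (hXW v h).1
      · exact (Finset.mem_inter.1 h).1
      · exact (hYW v h).1.1
  have hx₀X : x₀ ∈ X := by
    rw [hX, Finset.mem_filter, Finset.mem_sdiff]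
    refine ⟨⟨hx₀, hxS⟩, [x₀], ⟨by simp, by simp, by simp, by simp⟩, ?_⟩
    intro u hu
    rw [List.mem_singleton] at hu
    rw [hu]
    exact hxS
  have hy₀Y : y₀ ∈ Y := by
    rw [hY, Finset.mem_sdiff, Finset.mem_sdiff]
    refine ⟨⟨hy₀, hyS⟩, ?_⟩
    intro h
    exact hno (Finset.mem_filter.1 h).2
  obtain ⟨l, hl, hc⟩ := four_M (EB G A B R ρ) (fun x y => ∃ a, Lk G A R x y a ∧ G.Adj a z)
    (by rintro x y ⟨a, h1, h2⟩; exact ⟨a, h1.symm, h2⟩)
    (by intro x y y' h h'; exact hT.matching hR hzB hzR h h')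
    W X S Y hW
    (by
      rw [Finset.disjoint_left]
      intro v hv hv'
      exact (hXW v hv).2 (Finset.mem_inter.1 hv').2)
    (by
      rw [Finset.disjoint_left]
      intro v hv hv'
      exact (hYW v hv').2 hv)
    (by
      rw [Finset.disjoint_left]
      intro v hv hv'
      exact (hYW v hv').1.2 (Finset.mem_inter.1 hv).2)
    ((Finset.card_le_card Finset.inter_subset_right).trans hS₀)
    ⟨x₀, hx₀X⟩ ⟨y₀, hy₀Y⟩ hconn hdeg
    (by
      rintro x hx y hy ⟨z', a', hb⟩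
      refine ⟨a', hb.1, ?_⟩
      have hz's : z' ∈ s := Finset.mem_filter.2 ⟨Finset.mem_univ _, x, (hXW x hx).1, y,
        (hYW y hy).1.1, a', hb⟩
      have hle := hmax z' hz's
      rcases hle.lt_or_eq with hlt | heq
      · exfalso
        apply (hYW y hy).2
        rw [hX, Finset.mem_filter, Finset.mem_sdiff]
        refine ⟨(hYW y hy).1, ?_⟩
        refine bb_extend F S₀ x₀ x y (hYW y hy).1.2 ?_ (Finset.mem_filter.1 hx).2
        refine ⟨a', hb.1, ?_⟩
        intro w hwB hwR haw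
        obtain ⟨z₁, _, _, _, hu⟩ := hT.colour hR hb.1
        have e1 := hu w hwB hwR haw
        have e2 := hu z' hb.2.1 hb.2.2.1 hb.2.2.2.1
        rw [e1, ← e2]
        exact hlt
      · have : z' = z := hρ hb.2.1 hzB heq
        rw [← this]
        exact hb.2.2.2.1)
  have hle : EB G A B R ρ ≤ FR G A R := by
    rintro x y ⟨z', a', hb⟩
    exact ⟨a', hb.1⟩
  obtain ⟨x, y, h1, h2, h3⟩ := hl
  exact wheel_of_colour G A B R hT hR l ⟨x, y, h1.mono hle, h2, hle h3⟩ z hzB hzR hc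
/- END bb -/

/- MODULE bc -/
theorem vol_bad [Fintype V] [DecidableEq V] (G : SimpleGraph V) (A B R : Finset V)
    (hT : Trip G A B) (hR : R ⊆ B) (ρ : V → ℕ) (hρ : Set.InjOn ρ B) (hw : ¬ HasWheel G) :
    vol (EB G A B R ρ) B ≤ 30 * B.card := by
  by_contra hcon
  push Not at hcon
  have h1 := vol_le (EB G A B R ρ) B
  have hB : 6 ≤ B.card := by
    by_contra h
    have h2 : B.card * (B.card - 1) ≤ B.card * 30 := Nat.mul_le_mul_left _ (by omega)
    have h3 : B.card * 30 = 30 * B.card := Nat.mul_comm _ _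
    omega
  obtain ⟨S, hS, _, h3, h4, h5⟩ := potential (EB G A B R ρ) B 30 5 (by norm_num) (by norm_num)
    (by omega) (by
      have h6 : ((30 * B.card : ℕ) : ℝ) < (vol (EB G A B R ρ) B : ℝ) := by exact_mod_cast hcon
      push_cast at h6
      push_cast
      linarith)
  refine hw (wheel_of_conn G A B R hT hR ρ hρ S ?_ h5 ?_)
  · rw [← Finset.card_pos]
    have : (0 : ℝ) < (S.card : ℝ) := by linarith
    exact_mod_cast this
  · intro v hv
    have h6 := h3 v hv
    have h7 : (15 : ℝ) < (dg (EB G A B R ρ) S v : ℝ) := by linarith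
    have h8 : 15 < dg (EB G A B R ρ) S v := by exact_mod_cast h7
    omega

open Classical in
theorem card_bad [Fintype V] (G : SimpleGraph V) (A B R : Finset V)
    (hT : Trip G A B) (hR : R ⊆ B) (ρ : V → ℕ) (hρ : Set.InjOn ρ B) (hw : ¬ HasWheel G) :
    (A.filter (fun a => ∃ x y z, Bad G A B R ρ x y z a)).card ≤ 15 * B.card := by
  set A₁ := A.filter (fun a => ∃ x y z, Bad G A B R ρ x y z a) with hA₁
  have hv := vol_bad G A B R hT hR ρ hρ hw
  have key : 2 * A₁.card ≤ vol (EB G A B R ρ) B := by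
    have h1 : ∀ a ∈ A₁, ∃ p : V × V, ∃ z, Bad G A B R ρ p.1 p.2 z a := by
      intro a ha
      obtain ⟨_, x, y, z, h⟩ := Finset.mem_filter.1 ha
      exact ⟨(x, y), z, h⟩
    choose! p hp using h1
    set T : Finset (Σ _ : V, V) := B.sigma (fun v => B.filter (fun w => (EB G A B R ρ).Adj v w)) with hT'
    have hTc : T.card = vol (EB G A B R ρ) B := by
      rw [hT', Finset.card_sigma]
      rfl
    rw [← hTc]
    have hmem : ∀ a ∈ A₁, ∃ z, Bad G A B R ρ (p a).1 (p a).2 z a := hp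
    have hf : (A₁ ×ˢ (Finset.univ : Finset Bool)).card ≤ T.card := by
      refine Finset.card_le_card_of_injOn
        (fun q => if q.2 then ⟨(p q.1).1, (p q.1).2⟩ else ⟨(p q.1).2, (p q.1).1⟩) ?_ ?_
      · rintro ⟨a, b⟩ hq
        rw [Finset.mem_coe, Finset.mem_product] at hq
        obtain ⟨z, hz⟩ := hmem a hq.1
        have hx : (p a).1 ∈ B := hR hz.1.2.2.1
        have hy : (p a).2 ∈ B := hR hz.1.2.2.2.1
        rw [Finset.mem_coe]
        cases b
        · simp only [Bool.false_eq_true, if_false]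
          rw [hT', Finset.mem_sigma, Finset.mem_filter]
          exact ⟨hy, hx, ⟨z, a, hz.symm⟩⟩
        · simp only [if_true]
          rw [hT', Finset.mem_sigma, Finset.mem_filter]
          exact ⟨hx, hy, ⟨z, a, hz⟩⟩
      · rintro ⟨a, b⟩ hq ⟨a', b'⟩ hq' heq
        rw [Finset.mem_coe, Finset.mem_product] at hq hq'
        obtain ⟨z, hz⟩ := hmem a hq.1
        obtain ⟨z', hz'⟩ := hmem a' hq'.1
        cases b <;> cases b'
        · simp only [Bool.false_eq_true, if_false, Sigma.mk.injEq, heq_eq_eq] at heq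
          have h2 := hz'.1
          rw [← heq.1, ← heq.2] at h2
          rw [hT.lk_unique hR hz.1 h2]
        · simp only [Bool.false_eq_true, if_false, if_true, Sigma.mk.injEq, heq_eq_eq] at heq
          have h2 := hz'.1
          rw [← heq.1, ← heq.2] at h2
          have h3 := hT.lk_unique hR hz.1 h2.symm
          subst h3
          exact (hz.1.2.1 heq.2).elim
        · simp only [Bool.false_eq_true, if_false, if_true, Sigma.mk.injEq, heq_eq_eq] at heq
          have h2 := hz'.1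
          rw [← heq.1, ← heq.2] at h2
          have h3 := hT.lk_unique hR hz.1 h2.symm
          subst h3
          exact (hz.1.2.1 heq.1).elim
        · simp only [if_true, Sigma.mk.injEq, heq_eq_eq] at heq
          have h2 := hz'.1
          rw [← heq.1, ← heq.2] at h2
          rw [hT.lk_unique hR hz.1 h2]
    rw [Finset.card_product, Finset.card_univ, Fintype.card_bool] at hf
    omega
  omega
/- END bc -/

/- MODULE bd -/
/-- PROOF. Let `R' = R.erase z`.  `Lk G A R' x y a` holds (the neighbours of `a` in `B` are `x, y, z`).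
As it is not bad, for every `S` with at most two elements, `x, y ∉ S`, there is a path from `x` to `y` in
`FL G A B R' ρ (ρ z)` avoiding `S`.  Every edge `u v` of `FL G A B R' ρ (ρ z)` is an edge of `FR G A R`:
its link `a'` has exactly the neighbours `u, v` in `R'`, and it is not adjacent to `z` (otherwise, as
`z ∈ B`, `z ∉ R'`, `ρ z < ρ z`), so the same holds in `R`.  `PathL.mono`. -/
theorem insep_of_not_bad [DecidableEq V] (G : SimpleGraph V) (A B R : Finset V) (hT : Trip G A B)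
    (hR : R ⊆ B) (ρ : V → ℕ) (a x y z : V) (ha : a ∈ A) (hx : x ∈ R) (hy : y ∈ R) (hz : z ∈ R)
    (hxy : x ≠ y) (hxz : x ≠ z) (hyz : y ≠ z) (hax : G.Adj a x) (hay : G.Adj a y)
    (haz : G.Adj a z) (hall : ∀ w ∈ B, G.Adj a w → w = x ∨ w = y ∨ w = z)
    (h : ¬ Bad G A B (R.erase z) ρ x y z a) : Insep (FR G A R) x y := by
  have hlk : Lk G A (R.erase z) x y a := by
    refine ⟨ha, hxy, Finset.mem_erase.2 ⟨hxz, hx⟩, Finset.mem_erase.2 ⟨hyz, hy⟩, hax, hay, ?_⟩
    intro w hw haw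
    rw [Finset.mem_erase] at hw
    rcases hall w (hR hw.2) haw with h1 | h1 | h1
    · exact Or.inl h1
    · exact Or.inr h1
    · exact absurd h1 hw.1
  have hle : FL G A B (R.erase z) ρ (ρ z) ≤ FR G A R := by
    intro u v huv
    obtain ⟨a', ha', hcol⟩ := huv
    have hz' : ¬ G.Adj a' z := fun h1 =>
      lt_irrefl _ (hcol z (hR hz) (Finset.notMem_erase z R) h1)
    refine ⟨a', ha'.1, ha'.2.1, Finset.mem_of_mem_erase ha'.2.2.1,
      Finset.mem_of_mem_erase ha'.2.2.2.1, ha'.2.2.2.2.1, ha'.2.2.2.2.2.1, ?_⟩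
    intro w hw haw
    have hwz : w ≠ z := by
      rintro rfl
      exact hz' haw
    exact ha'.2.2.2.2.2.2 w (Finset.mem_erase.2 ⟨hwz, hw⟩) haw
  intro S hS hxS hyS
  by_contra hno
  apply h
  refine ⟨hlk, hR hz, Finset.notMem_erase z R, haz, S, hS, hxS, hyS, ?_⟩
  rintro ⟨l, hl, hlS⟩
  exact hno ⟨l, hl.mono hle, hlS⟩

private lemma bd_nonadj [DecidableEq V] (G : SimpleGraph V) (A B R : Finset V) (hT : Trip G A B)
    (hR : R ⊆ B) (a x y z : V) (ha : a ∈ A) (hx : x ∈ R) (hy : y ∈ R) (hz : z ∈ R)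
    (hxz : x ≠ z) (hyz : y ≠ z) (hax : G.Adj a x) (hay : G.Adj a y)
    (haz : G.Adj a z) : ¬ (FR G A R).Adj x y := by
  classical
  rintro ⟨a', ha'⟩
  have haa : a = a' := by
    by_contra hne
    have h1 := hT.lin a ha a' ha'.1 hne
    rw [codeg] at h1
    have h2 := Finset.card_le_one.1 h1 x
      (Finset.mem_filter.2 ⟨hR hx, hax, ha'.2.2.2.2.1⟩) y
      (Finset.mem_filter.2 ⟨hR hy, hay, ha'.2.2.2.2.2.1⟩)
    exact ha'.2.1 h2
  subst haa
  rcases ha'.2.2.2.2.2.2 z hz haz with h1 | h1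
  · exact hxz h1.symm
  · exact hyz h1.symm

/-- PROOF. `Trip.nbrs` gives `x, y, z`, all in `R`.  If none of `Bad … (R.erase z) … x y z a`,
`Bad … (R.erase y) … z x y a`, `Bad … (R.erase x) … z y x a` holds then `insep_of_not_bad` three times
(`Insep F x y`, `Insep F z x`, `Insep F z y` for `F = FR G A R`); the three vertices are pairwise not
adjacent in `FR G A R` (a link `a'` of `x y` has the two neighbours `x, y` in common with `a`, so
`a' = a`, but `a` has three neighbours in `R`).  `three_cycle` and `wheel_of_triple`. -/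
theorem some_bad [Fintype V] [DecidableEq V] (G : SimpleGraph V) (A B R : Finset V)
    (hT : Trip G A B) (hR : R ⊆ B) (ρ : V → ℕ) (hw : ¬ HasWheel G) (a : V) (ha : a ∈ A)
    (haR : ∀ w ∈ B, G.Adj a w → w ∈ R) :
    ∃ z ∈ R, G.Adj a z ∧ ∃ x y, Bad G A B (R.erase z) ρ x y z a := by
  by_contra hno
  push Not at hno
  obtain ⟨x, y, z, hxB, hyB, hzB, hxy, hxz, hyz, hax, hay, haz, hall⟩ := hT.nbrs a ha
  have hx := haR x hxB hax
  have hy := haR y hyB hay
  have hz := haR z hzB haz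
  have i1 : Insep (FR G A R) x y :=
    insep_of_not_bad G A B R hT hR ρ a x y z ha hx hy hz hxy hxz hyz hax hay haz hall
      (hno z hz haz x y)
  have i2 : Insep (FR G A R) z x :=
    insep_of_not_bad G A B R hT hR ρ a z x y ha hz hx hy hxz.symm hyz.symm hxy haz hax hay
      (fun w hw haw => by
        rcases hall w hw haw with h1 | h1 | h1
        · exact Or.inr (Or.inl h1)
        · exact Or.inr (Or.inr h1)
        · exact Or.inl h1) (hno y hy hay z x)
  have i3 : Insep (FR G A R) z y :=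
    insep_of_not_bad G A B R hT hR ρ a z y x ha hz hy hx hyz.symm hxz.symm hxy.symm haz hay hax
      (fun w hw haw => by
        rcases hall w hw haw with h1 | h1 | h1
        · exact Or.inr (Or.inr h1)
        · exact Or.inr (Or.inl h1)
        · exact Or.inl h1) (hno x hx hax z y)
  obtain ⟨l, hl, hxl, hyl, hzl⟩ := three_cycle (FR G A R) x y z hxy hxz hyz
    (bd_nonadj G A B R hT hR a x y z ha hx hy hz hxz hyz hax hay haz)
    (bd_nonadj G A B R hT hR a x z y ha hx hz hy hxy hyz.symm hax haz hay)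
    (bd_nonadj G A B R hT hR a y z x ha hy hz hx hxy.symm hxz.symm hay haz hax) i1 i2 i3
  exact hw (wheel_of_triple G A B R hT hR l hl a x y z ha hxy hxz hyz hxl hyl hzl hax hay haz)
/- END bd -/

/- MODULE be -/
theorem thmA [Fintype V] [DecidableEq V] (G : SimpleGraph V) (A B : Finset V) (hT : Trip G A B)
    (hw : ¬ HasWheel G) : A.card ≤ 120 * B.card := by
  classical
  obtain ⟨ρ, hρ⟩ : ∃ ρ : V → ℕ, Function.Injective ρ :=
    ⟨fun v => (Fintype.equivFin V v : ℕ), fun u v h => (Fintype.equivFin V).injective (Fin.ext h)⟩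
  set NB : V → Finset V := fun a => B.filter (fun w => G.Adj a w) with hNB
  have hN3 : ∀ a ∈ A, (NB a).card = 3 := by
    intro a ha
    have h := hT.three a ha
    unfold dg at h
    rw [hNB]
    convert h
  have hNB' : ∀ a, NB a ⊆ B := fun a => Finset.filter_subset _ _
  have hz : ∀ (a : V) (R : Finset V), a ∈ A → NB a ⊆ R → R ⊆ B →
      ∃ z ∈ R, G.Adj a z ∧ ∃ x y, Bad G A B (R.erase z) ρ x y z a := by
    intro a R ha h1 h2
    exact some_bad G A B R hT h2 ρ hw a ha (fun w hw1 hw2 => h1 (Finset.mem_filter.2 ⟨hw1, hw2⟩))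
  choose! z hz using hz
  set S : Finset (Σ _ : V, Finset V) := A.sigma (fun a => Finset.Icc (NB a) B) with hS
  set T : Finset (Σ _ : Finset V, V) := B.powerset.sigma
    (fun R => A.filter (fun a => ∃ x y z, Bad G A B R ρ x y z a)) with hT'
  have hST : S.card ≤ T.card := by
    refine Finset.card_le_card_of_injOn (fun p => ⟨p.2.erase (z p.1 p.2), p.1⟩) ?_ ?_
    · rintro ⟨a, R⟩ hp
      rw [Finset.mem_coe, hS, Finset.mem_sigma, Finset.mem_Icc] at hp
      obtain ⟨ha, h1, h2⟩ := hp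
      obtain ⟨hzR, haz, x, y, hb⟩ := hz a R ha h1 h2
      rw [Finset.mem_coe, hT', Finset.mem_sigma, Finset.mem_powerset, Finset.mem_filter]
      exact ⟨(Finset.erase_subset _ _).trans h2, ha, x, y, _, hb⟩
    · rintro ⟨a, R⟩ hp ⟨a', R'⟩ hp' heq
      rw [Finset.mem_coe, hS, Finset.mem_sigma, Finset.mem_Icc] at hp hp'
      obtain ⟨ha, h1, h2⟩ := hp
      obtain ⟨ha', h1', h2'⟩ := hp'
      simp only [Sigma.mk.injEq, heq_eq_eq] at heq
      obtain ⟨h3, rfl⟩ := heq
      dsimp only at h1 h2 h1' h2' ha ha'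
      obtain ⟨hzR, haz, _⟩ := hz a R ha h1 h2
      obtain ⟨hzR', haz', _⟩ := hz a R' ha' h1' h2'
      have h4 : z a R ∈ R' := h1' (Finset.mem_filter.2 ⟨h2 hzR, haz⟩)
      have h5 : z a R = z a R' := by
        by_contra hne
        have h6 : z a R ∈ R'.erase (z a R') := Finset.mem_erase.2 ⟨hne, h4⟩
        rw [← h3] at h6
        exact (Finset.notMem_erase _ _) h6
      have h6 : R = R' := by
        rw [← Finset.insert_erase hzR, ← Finset.insert_erase hzR', h3, h5]
      rw [h6]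
  have hSc : S.card = A.card * 2 ^ (B.card - 3) := by
    rw [hS, Finset.card_sigma, Finset.sum_congr rfl (fun a ha => by
      rw [Finset.card_Icc_finset (hNB' a), hN3 a ha]), Finset.sum_const, smul_eq_mul]
  have hTc : T.card ≤ 2 ^ B.card * (15 * B.card) := by
    rw [hT', Finset.card_sigma]
    refine (Finset.sum_le_card_nsmul _ _ (15 * B.card) ?_).trans ?_
    · intro R hR
      have := card_bad G A B R hT (Finset.mem_powerset.1 hR) ρ hρ.injOn hw
      convert this
    · rw [Finset.card_powerset, smul_eq_mul]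
  rcases A.eq_empty_or_nonempty with h | ⟨a₀, ha₀⟩
  · simp [h]
  have hB3 : 3 ≤ B.card := by
    rw [← hN3 a₀ ha₀]
    exact Finset.card_le_card (hNB' a₀)
  have h1 : A.card * 2 ^ (B.card - 3) ≤ 2 ^ B.card * (15 * B.card) := by
    rw [← hSc]
    exact hST.trans hTc
  have h2 : 2 ^ B.card = 2 ^ (B.card - 3) * 8 := by
    rw [show (8 : ℕ) = 2 ^ 3 by norm_num, ← pow_add]
    congr 1
    omega
  rw [h2] at h1
  have h3 : 0 < 2 ^ (B.card - 3) := by positivity
  have h4 : A.card * 2 ^ (B.card - 3) ≤ (120 * B.card) * 2 ^ (B.card - 3) := by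
    calc A.card * 2 ^ (B.card - 3) ≤ 2 ^ (B.card - 3) * 8 * (15 * B.card) := h1
      _ = (120 * B.card) * 2 ^ (B.card - 3) := by ring
  exact Nat.le_of_mul_le_mul_right h4 h3
/- END be -/

end Whl
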