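import Pool.Agent.Whl.Defs

/-!
# Degeneracy
-/

namespace Whl

open Finset TurMod

/- MODULE oa -/
private lemma oa_mono {V : Type*} (G : SimpleGraph V) {S T : Finset V} (h : S ⊆ T) (v : V) :
    dg G S v ≤ dg G T v := by
  classical
  exact Finset.card_le_card (Finset.filter_subset_filter _ h)

/-- PROOF. Induction on `|X|`: choose `v ∈ X` with `dg G X v ≤ d`, apply the hypothesis to `X.erase v` and give
`v` a rank larger than all others. -/
theorem exists_rank {V : Type*} [DecidableEq V] (G : SimpleGraph V) (d : ℕ) (X : Finset V)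
    (h : ∀ U ⊆ X, U.Nonempty → ∃ v ∈ U, dg G U v ≤ d) :
    ∃ ρ : V → ℕ, Set.InjOn ρ X ∧ ∀ v ∈ X, dg G (X.filter (fun u => ρ u < ρ v)) v ≤ d := by
  induction hn : X.card generalizing X with
  | zero =>
    have hX : X = ∅ := Finset.card_eq_zero.1 hn
    subst hX
    exact ⟨fun _ => 0, by simp, by simp⟩
  | succ m ih =>
    have hne : X.Nonempty := by
      rw [← Finset.card_pos]; omega
    obtain ⟨v, hv, hvd⟩ := h X (Finset.Subset.refl X) hne
    obtain ⟨ρ, hρ, hρd⟩ := ih (X.erase v)
      (fun U hU hUn => h U (hU.trans (Finset.erase_subset v X)) hUn)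
      (by rw [Finset.card_erase_of_mem hv]; omega)
    have hlt : ∀ w ∈ X, ρ w < X.sup ρ + 1 := fun w hw => Nat.lt_succ_of_le (Finset.le_sup hw)
    refine ⟨Function.update ρ v (X.sup ρ + 1), ?_, ?_⟩
    · intro a ha b hb hab
      rw [Finset.mem_coe] at ha hb
      by_cases hav : a = v
      · by_cases hbv : b = v
        · rw [hav, hbv]
        · exfalso
          subst hav
          rw [Function.update_self, Function.update_of_ne hbv] at hab
          have := hlt b hb
          omega
      · by_cases hbv : b = v
        · exfalso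
          subst hbv
          rw [Function.update_self, Function.update_of_ne hav] at hab
          have := hlt a ha
          omega
        · rw [Function.update_of_ne hav, Function.update_of_ne hbv] at hab
          exact hρ (Finset.mem_coe.2 (Finset.mem_erase.2 ⟨hav, ha⟩))
            (Finset.mem_coe.2 (Finset.mem_erase.2 ⟨hbv, hb⟩)) hab
    · intro w hw
      by_cases hwv : w = v
      · subst hwv
        exact (oa_mono G (Finset.filter_subset _ _) w).trans hvd
      · refine le_trans (oa_mono G ?_ w) (hρd w (Finset.mem_erase.2 ⟨hwv, hw⟩))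
        intro u hu
        rw [Finset.mem_filter] at hu
        have huv : u ≠ v := by
          rintro rfl
          have h1 := hu.2
          rw [Function.update_self, Function.update_of_ne hwv] at h1
          have := hlt w hw
          omega
        rw [Finset.mem_filter, Finset.mem_erase]
        refine ⟨⟨huv, hu.1⟩, ?_⟩
        have h1 := hu.2
        rwa [Function.update_of_ne huv, Function.update_of_ne hwv] at h1

/-- PROOF. Let `d` be the largest number for which there is a nonempty `X` with `d ≤ dg G X v` for all
`v ∈ X` (`dg ≤ |V|`; `d ≥ d₀`). For nonempty `U` not all degrees are `≥ d + 1`. -/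
theorem exists_core {V : Type*} [Fintype V] (G : SimpleGraph V) (d₀ : ℕ) (X₀ : Finset V)
    (hne : X₀.Nonempty) (h : ∀ v ∈ X₀, d₀ ≤ dg G X₀ v) :
    ∃ d ≥ d₀, ∃ X : Finset V, X.Nonempty ∧ (∀ v ∈ X, d ≤ dg G X v) ∧
      ∀ U : Finset V, U.Nonempty → ∃ v ∈ U, dg G U v ≤ d := by
  classical
  set P : ℕ → Prop := fun d => ∃ X : Finset V, X.Nonempty ∧ ∀ v ∈ X, d ≤ dg G X v with hP
  have hle : ∀ (S : Finset V) (v : V), dg G S v ≤ Fintype.card V := by
    intro S v
    exact (Finset.card_le_univ _)
  have hb : ∀ d, P d → d ≤ Fintype.card V := by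
    rintro d ⟨X, ⟨v, hv⟩, hX⟩
    exact (hX v hv).trans (hle X v)
  have hP0 : P d₀ := ⟨X₀, hne, h⟩
  have h1 : P (Nat.findGreatest P (Fintype.card V)) :=
    Nat.findGreatest_spec (hb d₀ hP0) hP0
  obtain ⟨X, hXn, hX⟩ := h1
  refine ⟨Nat.findGreatest P (Fintype.card V), Nat.le_findGreatest (hb d₀ hP0) hP0, X, hXn, hX, ?_⟩
  intro U hU
  by_contra hno
  push Not at hno
  have h2 : P (Nat.findGreatest P (Fintype.card V) + 1) := ⟨U, hU, fun v hv => hno v hv⟩
  have h3 := Nat.le_findGreatest (hb _ h2) h2
  omega
/- END oa -/

/- MODULE ob -/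
/-- Greedy colouring. PROOF. By induction on `|X|` every finite set `X` has a colouring
`c : V → Fin (d+1)`, proper on `X`: remove `v` with `dg G X v ≤ d`, colour the rest, give `v` a colour not
used by its neighbours in `X`.  Then `X = univ`. -/
theorem colorable_of_degen {V : Type*} [Fintype V] (G : SimpleGraph V) (d : ℕ)
    (h : ∀ U : Finset V, U.Nonempty → ∃ v ∈ U, dg G U v ≤ d) : G.Colorable (d + 1) := by
  classical
  have key : ∀ (m : ℕ) (X : Finset V), X.card = m →
      ∃ c : V → Fin (d + 1), ∀ u ∈ X, ∀ w ∈ X, G.Adj u w → c u ≠ c w := by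
    intro m
    induction m with
    | zero =>
      intro X hX
      rw [Finset.card_eq_zero] at hX
      subst hX
      exact ⟨fun _ => 0, by simp⟩
    | succ m ih =>
      intro X hX
      have hne : X.Nonempty := by
        rw [← Finset.card_pos]; omega
      obtain ⟨v, hv, hvd⟩ := h X hne
      obtain ⟨c, hc⟩ := ih (X.erase v) (by rw [Finset.card_erase_of_mem hv]; omega)
      have hcol : ∃ e : Fin (d + 1), e ∉ (X.filter (fun w => G.Adj v w)).image c := by
        by_contra hall
        push Not at hall
        have h1 : (Finset.univ : Finset (Fin (d + 1)))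
            ⊆ (X.filter (fun w => G.Adj v w)).image c := fun e _ => hall e
        have h2 := (Finset.card_le_card h1).trans Finset.card_image_le
        rw [Finset.card_univ, Fintype.card_fin] at h2
        have h3 : (X.filter (fun w => G.Adj v w)).card ≤ d := hvd
        omega
      obtain ⟨e, he⟩ := hcol
      have hev : ∀ w ∈ X, G.Adj v w → e ≠ c w := by
        intro w hw hvw hew
        apply he
        rw [hew]
        exact Finset.mem_image_of_mem c (Finset.mem_filter.2 ⟨hw, hvw⟩)
      refine ⟨Function.update c v e, ?_⟩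
      intro u hu w hw huw
      by_cases huv : u = v
      · subst huv
        have hwu : w ≠ u := huw.ne'
        rw [Function.update_self, Function.update_of_ne hwu]
        exact hev w hw huw
      · by_cases hwv : w = v
        · subst hwv
          rw [Function.update_self, Function.update_of_ne huv]
          exact (hev u hu huw.symm).symm
        · rw [Function.update_of_ne huv, Function.update_of_ne hwv]
          exact hc u (Finset.mem_erase.2 ⟨huv, hu⟩) w (Finset.mem_erase.2 ⟨hwv, hw⟩) huw
  obtain ⟨c, hc⟩ := key _ Finset.univ rfl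
  exact ⟨SimpleGraph.Coloring.mk c fun {u w} huw => hc u (Finset.mem_univ u) w (Finset.mem_univ w) huw⟩
/- END ob -/

end Whl
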