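import Pool.Agent.TurMod.Menger
import Pool.Agent.TurMod.Pot

/-!
# Wheel-free graphs are degree-bounded (MP_e2a513_co): definitions

Paper proof: store file Whl_paper_helper28.md.  `TurMod.PathL G x y l`: the list `l` of vertices is a
path from `x` to `y`; `TurMod.dg G S v`: number of neighbours of `v` in `S`; `TurMod.vol G S`: twice
the number of edges in `S`; `TurMod.Conn G S t`: `S` induces a graph without separation of order at
most `t`; `TurMod.menger_rel`: Menger; `TurMod.potential`: Mader.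
-/

namespace Whl

open Finset TurMod

variable {V : Type*}

/-- `G` has an induced wheel: an induced cycle of length at least `4` and a vertex outside it with
at least three neighbours on it -/
def HasWheel (G : SimpleGraph V) : Prop :=
  ∃ n : ℕ, 4 ≤ n ∧ ∃ (c : SimpleGraph.cycleGraph n ↪g G) (h : V), h ∉ Set.range c ∧
    ∃ i j k : Fin n, i ≠ j ∧ i ≠ k ∧ j ≠ k ∧ G.Adj h (c i) ∧ G.Adj h (c j) ∧ G.Adj h (c k)

/-- stable set -/
def Stab (G : SimpleGraph V) (I : Finset V) : Prop := ∀ x ∈ I, ∀ y ∈ I, ¬ G.Adj x y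

/-- `X` contains no clique with `r` elements -/
def NoK (G : SimpleGraph V) (r : ℕ) (X : Finset V) : Prop :=
  ∀ K ⊆ X, K.card = r → ∃ x ∈ K, ∃ y ∈ K, x ≠ y ∧ ¬ G.Adj x y

/-- the list `l` of distinct vertices is (in cyclic order) a cycle of `F` -/
def CycL (F : SimpleGraph V) (l : List V) : Prop :=
  ∃ x y, PathL F x y l ∧ 3 ≤ l.length ∧ F.Adj y x

open Classical in
/-- number of consecutive pairs of `l` in the relation `M` -/
noncomputable def cnt (M : V → V → Prop) : List V → ℕ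
  | [] => 0
  | [_] => 0
  | x :: y :: t => (if M x y then 1 else 0) + cnt M (y :: t)

/-- number of cyclically consecutive pairs of `l` in the relation `M` -/
noncomputable def cyc (M : V → V → Prop) (l : List V) : ℕ := cnt M (l ++ l.head?.toList)

/-- `u` and `v` are joined by a path inside `U` -/
def Joined (H : SimpleGraph V) (U : Finset V) (u v : V) : Prop :=
  ∃ l, PathL H u v l ∧ ∀ w ∈ l, w ∈ U

/-- no set of at most two other vertices separates `u` and `v` -/
def Insep (F : SimpleGraph V) (u v : V) : Prop :=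
  ∀ S : Finset V, S.card ≤ 2 → u ∉ S → v ∉ S → ∃ l, PathL F u v l ∧ ∀ w ∈ l, w ∉ S

/-- `A` and `B` are disjoint stable sets, every vertex of `A` has exactly three neighbours in `B`,
two vertices of `A` have at most one common neighbour in `B` -/
structure Trip (G : SimpleGraph V) (A B : Finset V) : Prop where
  disj : Disjoint A B
  stA : Stab G A
  stB : Stab G B
  three : ∀ a ∈ A, dg G B a = 3
  lin : ∀ a ∈ A, ∀ a' ∈ A, a ≠ a' → codeg G B a a' ≤ 1

/-- `a ∈ A` links `x` and `y` over `R`: these are its only neighbours in `R` -/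
def Lk (G : SimpleGraph V) (A R : Finset V) (x y a : V) : Prop :=
  a ∈ A ∧ x ≠ y ∧ x ∈ R ∧ y ∈ R ∧ G.Adj a x ∧ G.Adj a y ∧ ∀ w ∈ R, G.Adj a w → w = x ∨ w = y

lemma Lk.symm {G : SimpleGraph V} {A R : Finset V} {x y a : V} (h : Lk G A R x y a) :
    Lk G A R y x a :=
  ⟨h.1, h.2.1.symm, h.2.2.2.1, h.2.2.1, h.2.2.2.2.2.1, h.2.2.2.2.1,
    fun w hw hw' => (h.2.2.2.2.2.2 w hw hw').symm⟩

/-- the graph of linked pairs -/
def FR (G : SimpleGraph V) (A R : Finset V) : SimpleGraph V where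
  Adj x y := ∃ a, Lk G A R x y a
  symm := ⟨fun _ _ ⟨a, ha⟩ => ⟨a, ha.symm⟩⟩
  loopless := ⟨fun _ ⟨_, ha⟩ => ha.2.1 rfl⟩

/-- the graph of linked pairs whose colour (the neighbour of the link in `B ∖ R`) has rank `< k` -/
def FL (G : SimpleGraph V) (A B R : Finset V) (ρ : V → ℕ) (k : ℕ) : SimpleGraph V where
  Adj x y := ∃ a, Lk G A R x y a ∧ ∀ w ∈ B, w ∉ R → G.Adj a w → ρ w < k
  symm := ⟨fun _ _ ⟨a, ha, h⟩ => ⟨a, ha.symm, h⟩⟩
  loopless := ⟨fun _ ⟨_, ha, _⟩ => ha.2.1 rfl⟩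

/-- the linked pair `x y` (link `a`, colour `z`) is bad: at most two vertices separate `x` and `y` in
the graph of the smaller colours -/
def Bad (G : SimpleGraph V) (A B R : Finset V) (ρ : V → ℕ) (x y z a : V) : Prop :=
  Lk G A R x y a ∧ z ∈ B ∧ z ∉ R ∧ G.Adj a z ∧
    ∃ S : Finset V, S.card ≤ 2 ∧ x ∉ S ∧ y ∉ S ∧
      ¬ ∃ l, PathL (FL G A B R ρ (ρ z)) x y l ∧ ∀ w ∈ l, w ∉ S

lemma Bad.symm {G : SimpleGraph V} {A B R : Finset V} {ρ : V → ℕ} {x y z a : V}
    (h : Bad G A B R ρ x y z a) : Bad G A B R ρ y x z a := by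
  obtain ⟨h1, h2, h3, h4, S, h5, h6, h7, h8⟩ := h
  refine ⟨h1.symm, h2, h3, h4, S, h5, h7, h6, ?_⟩
  rintro ⟨l, hl, hS⟩
  exact h8 ⟨l.reverse, hl.reverse, fun w hw => hS w (List.mem_reverse.1 hw)⟩

/-- the graph of the bad linked pairs -/
def EB (G : SimpleGraph V) (A B R : Finset V) (ρ : V → ℕ) : SimpleGraph V where
  Adj x y := ∃ z a, Bad G A B R ρ x y z a
  symm := ⟨fun _ _ ⟨z, a, h⟩ => ⟨z, a, h.symm⟩⟩
  loopless := ⟨fun _ ⟨_, _, h⟩ => h.1.2.1 rfl⟩

end Whl
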