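import Pool.Agent.Whl.Ram

/-!
# Stable sets in sparse graphs of bounded clique number
-/

namespace Whl

open Finset TurMod

open Classical in
/-- all stable subsets of `X` -/
noncomputable def SS {V : Type*} (G : SimpleGraph V) (X : Finset V) : Finset (Finset V) :=
  X.powerset.filter (fun I => Stab G I)

/- MODULE ia -/
private lemma ia_growth (C m : ℕ) : ∃ l₀ : ℕ, ∀ l ≥ l₀, C * (l + 1) ^ m ≤ 2 ^ l := by
  have h := tendsto_pow_const_div_const_pow_of_one_lt m (r := (2 : ℝ)) (by norm_num)
  have hpos : (0 : ℝ) < 1 / (2 * C + 1) := by positivity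
  have h2 := h.eventually (gt_mem_nhds hpos)
  rw [Filter.eventually_atTop] at h2
  obtain ⟨N, hN⟩ := h2
  refine ⟨N, fun l hl => ?_⟩
  have h3 := hN (l + 1) (by omega)
  have h4 : (0 : ℝ) < 2 ^ (l + 1) := by positivity
  rw [div_lt_div_iff₀ h4 (by positivity)] at h3
  have h5 : (C : ℝ) * ((l : ℝ) + 1) ^ m ≤ 2 ^ l := by
    push_cast at h3
    have h6 : (0 : ℝ) ≤ ((l : ℝ) + 1) ^ m := by positivity
    rw [pow_succ] at h3
    nlinarith
  exact_mod_cast h5

private lemma ia_small {V : Type*} (X : Finset V) (j : ℕ) :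
    (X.powerset.filter (fun I => I.card < j)).card ≤ j * (X.card + 1) ^ j := by
  classical
  have h1 : X.powerset.filter (fun I => I.card < j)
      ⊆ (Finset.range j).biUnion (fun t => X.powersetCard t) := by
    intro I hI
    rw [Finset.mem_filter, Finset.mem_powerset] at hI
    rw [Finset.mem_biUnion]
    exact ⟨I.card, Finset.mem_range.2 hI.2, Finset.mem_powersetCard.2 ⟨hI.1, rfl⟩⟩
  refine (Finset.card_le_card h1).trans (Finset.card_biUnion_le.trans ?_)
  have h2 : ∀ t ∈ Finset.range j, (X.powersetCard t).card ≤ (X.card + 1) ^ j := by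
    intro t ht
    rw [Finset.card_powersetCard]
    refine (Nat.choose_le_pow X.card t).trans ?_
    refine (Nat.pow_le_pow_left (Nat.le_succ X.card) t).trans ?_
    exact Nat.pow_le_pow_right (Nat.succ_pos _) (Finset.mem_range.1 ht).le
  refine (Finset.sum_le_sum h2).trans ?_
  rw [Finset.sum_const, Finset.card_range, smul_eq_mul]

/-- The average size of a stable set is large if there are many stable sets. -/
theorem avg_stable (r h : ℕ) : ∃ i₀ : ℕ, ∀ {V : Type} (G : SimpleGraph V) (X : Finset V),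
    NoK G r X → i₀ ≤ (SS G X).card → h * ((SS G X).card + 1) ≤ ∑ I ∈ SS G X, I.card := by
  classical
  rcases Nat.eq_zero_or_pos r with hr | hr
  · refine ⟨0, fun G X hX _ => ?_⟩
    exfalso
    subst hr
    obtain ⟨x, hx, _⟩ := hX ∅ (Finset.empty_subset X) rfl
    simp at hx
  obtain ⟨r', rfl⟩ : ∃ r', r = r' + 1 := ⟨r - 1, by omega⟩
  obtain ⟨l₀, hl₀⟩ := ia_growth (2 * (4 * h)) ((r' + 1) * (4 * h))
  refine ⟨2 ^ ((l₀ + 1) ^ (r' + 1)) + 1, fun {V} G X hX hi => ?_⟩
  have hiX : (SS G X).card ≤ 2 ^ X.card := by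
    rw [← Finset.card_powerset]
    exact Finset.card_le_card (Finset.filter_subset _ _)
  have hx : (l₀ + 1) ^ (r' + 1) ≤ X.card := by
    by_contra hlt
    push Not at hlt
    have := Nat.pow_le_pow_right (n := 2) (by norm_num) hlt.le
    omega
  -- the largest l with l ^ (r' + 1) ≤ |X|
  set P : ℕ → Prop := fun l => l ^ (r' + 1) ≤ X.card with hP
  set l := Nat.findGreatest P X.card with hldef
  have hPl : P (l₀ + 1) := hx
  have hl1 : l₀ + 1 ≤ X.card := (Nat.le_self_pow (Nat.succ_ne_zero r') (l₀ + 1)).trans hx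
  have hl2 : l₀ + 1 ≤ l := Nat.le_findGreatest hl1 hPl
  have hPl' : P l := Nat.findGreatest_spec (P := P) hl1 hPl
  have hnl : X.card < (l + 1) ^ (r' + 1) := by
    by_contra hge
    push Not at hge
    have h1 : l + 1 ≤ X.card := (Nat.le_self_pow (Nat.succ_ne_zero r') (l + 1)).trans hge
    have h2 := Nat.le_findGreatest (P := P) h1 hge
    omega
  -- a stable set with l elements
  have hstab : ∃ I ⊆ X, Stab G I ∧ l ≤ I.card := by
    by_contra hno
    push Not at hno
    have h1 := ramsey_poly G r' l (by omega) X hX hno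
    have h2 : l ^ r' ≤ l ^ (r' + 1) := Nat.pow_le_pow_right (by omega) (Nat.le_succ r')
    have h3 : l ^ (r' + 1) ≤ X.card := hPl'
    omega
  obtain ⟨I₀, hI₀X, hI₀s, hI₀c⟩ := hstab
  have hi2 : 2 ^ l ≤ (SS G X).card := by
    refine (Nat.pow_le_pow_right (by norm_num) hI₀c).trans ?_
    rw [← Finset.card_powerset]
    apply Finset.card_le_card
    intro J hJ
    rw [Finset.mem_powerset] at hJ
    rw [SS, Finset.mem_filter, Finset.mem_powerset]
    exact ⟨hJ.trans hI₀X, fun x hx y hy => hI₀s x (hJ hx) y (hJ hy)⟩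
  have hsm : ((SS G X).filter (fun I => I.card < 4 * h)).card ≤ 4 * h * (X.card + 1) ^ (4 * h) := by
    refine le_trans (Finset.card_le_card ?_) (ia_small X (4 * h))
    intro I hI
    rw [Finset.mem_filter] at hI
    rw [Finset.mem_filter]
    exact ⟨(Finset.mem_filter.1 hI.1).1, hI.2⟩
  have hbd : 2 * (4 * h * (X.card + 1) ^ (4 * h)) ≤ 2 ^ l := by
    have h1 := hl₀ l (by omega)
    have h2 : (X.card + 1) ^ (4 * h) ≤ (l + 1) ^ ((r' + 1) * (4 * h)) := by
      rw [pow_mul (l + 1) (r' + 1) (4 * h)]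
      exact Nat.pow_le_pow_left hnl _
    calc 2 * (4 * h * (X.card + 1) ^ (4 * h))
        = 2 * (4 * h) * (X.card + 1) ^ (4 * h) := by ring
      _ ≤ 2 * (4 * h) * (l + 1) ^ ((r' + 1) * (4 * h)) := Nat.mul_le_mul_left _ h2
      _ ≤ 2 ^ l := h1
  have hsplit := Finset.card_filter_add_card_filter_not (s := SS G X) (fun I => I.card < 4 * h)
  have hsum : 4 * h * ((SS G X).filter (fun I => ¬ I.card < 4 * h)).card
      ≤ ∑ I ∈ SS G X, I.card := by
    refine le_trans ?_ (Finset.sum_le_sum_of_subset (Finset.filter_subset (fun I => ¬ I.card < 4 * h) _))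
    rw [mul_comm, ← smul_eq_mul]
    apply Finset.card_nsmul_le_sum
    intro I hI
    have := (Finset.mem_filter.1 hI).2
    omega
  have hpos : 1 ≤ (SS G X).card := le_trans Nat.one_le_two_pow hi2
  have h7 : (SS G X).card ≤ 2 * ((SS G X).filter (fun I => ¬ I.card < 4 * h)).card := by omega
  calc h * ((SS G X).card + 1) ≤ h * (2 * (SS G X).card) := Nat.mul_le_mul_left _ (by omega)
    _ ≤ h * (2 * (2 * ((SS G X).filter (fun I => ¬ I.card < 4 * h)).card)) :=
        Nat.mul_le_mul_left _ (Nat.mul_le_mul_left _ h7)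
    _ = 4 * h * ((SS G X).filter (fun I => ¬ I.card < 4 * h)).card := by ring
    _ ≤ _ := hsum
/- END ia -/

/- MODULE ib -/
section
open Classical

/-- the group of `W` -/
private noncomputable def ib_T {V : Type*} (G : SimpleGraph V) (v : V) (W : Finset V) : Finset V :=
  W.filter (fun w => w ≠ v ∧ ¬ G.Adj v w)

private noncomputable def ib_X {V : Type*} (G : SimpleGraph V) (U : Finset V) (v : V)
    (T : Finset V) : Finset V :=
  U.filter (fun u => G.Adj v u ∧ ∀ t ∈ T, ¬ G.Adj u t)

private lemma ib_fiber {V : Type*} (G : SimpleGraph V) (U : Finset V) (v : V) (hv : v ∈ U)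
    (T : Finset V) (hT : T ∈ (SS G U).image (ib_T G v)) :
    (SS G U).filter (fun W => ib_T G v W = T)
      = insert (insert v T) ((SS G (ib_X G U v T)).image (fun I => T ∪ I)) := by
  obtain ⟨W₀, hW₀, hW₀T⟩ := Finset.mem_image.1 hT
  rw [SS, Finset.mem_filter, Finset.mem_powerset] at hW₀
  have hTU : T ⊆ U := by
    rw [← hW₀T]; exact (Finset.filter_subset _ _).trans hW₀.1
  have hTs : Stab G T := by
    rw [← hW₀T]
    intro x hx y hy
    exact hW₀.2 x (Finset.filter_subset _ _ hx) y (Finset.filter_subset _ _ hy)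
  have hTv : ∀ w ∈ T, w ≠ v ∧ ¬ G.Adj v w := by
    rw [← hW₀T]
    intro w hw
    exact (Finset.mem_filter.1 hw).2
  ext W
  rw [Finset.mem_filter, Finset.mem_insert, Finset.mem_image, SS, Finset.mem_filter,
    Finset.mem_powerset]
  constructor
  · rintro ⟨⟨hWU, hWs⟩, hWT⟩
    by_cases hvW : v ∈ W
    · left
      ext w
      rw [Finset.mem_insert]
      constructor
      · intro hw
        by_cases hwv : w = v
        · exact Or.inl hwv
        · right
          rw [← hWT, ib_T, Finset.mem_filter]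
          exact ⟨hw, hwv, hWs v hvW w hw⟩
      · rintro (hw | hw)
        · rw [hw]; exact hvW
        · rw [← hWT] at hw
          exact Finset.filter_subset _ _ hw
    · right
      refine ⟨W.filter (G.Adj v), ?_, ?_⟩
      · rw [SS, Finset.mem_filter, Finset.mem_powerset]
        constructor
        · intro w hw
          rw [Finset.mem_filter] at hw
          rw [ib_X, Finset.mem_filter]
          refine ⟨hWU hw.1, hw.2, fun t ht => ?_⟩
          rw [← hWT] at ht
          exact hWs w hw.1 t (Finset.filter_subset _ _ ht)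
        · intro x hx y hy
          exact hWs x (Finset.filter_subset _ _ hx) y (Finset.filter_subset _ _ hy)
      · ext w
        rw [Finset.mem_union]
        constructor
        · rintro (hw | hw)
          · rw [← hWT] at hw
            exact Finset.filter_subset _ _ hw
          · exact Finset.filter_subset _ _ hw
        · intro hw
          by_cases hwa : G.Adj v w
          · right; rw [Finset.mem_filter]; exact ⟨hw, hwa⟩
          · left
            rw [← hWT, ib_T, Finset.mem_filter]
            exact ⟨hw, fun h => hvW (h ▸ hw), hwa⟩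
  · rintro (rfl | ⟨I, hI, rfl⟩)
    · refine ⟨⟨Finset.insert_subset hv hTU, ?_⟩, ?_⟩
      · intro x hx y hy
        rw [Finset.mem_insert] at hx hy
        rcases hx with rfl | hx
        · rcases hy with rfl | hy
          · exact G.loopless.irrefl _
          · exact (hTv y hy).2
        · rcases hy with rfl | hy
          · intro h; exact (hTv x hx).2 h.symm
          · exact hTs x hx y hy
      · ext w
        rw [ib_T, Finset.mem_filter, Finset.mem_insert]
        constructor
        · rintro ⟨h1 | h1, h2, h3⟩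
          · exact absurd h1 h2
          · exact h1
        · intro hw
          exact ⟨Or.inr hw, hTv w hw⟩
    · rw [SS, Finset.mem_filter, Finset.mem_powerset] at hI
      have hIX : ∀ w ∈ I, w ∈ U ∧ G.Adj v w ∧ ∀ t ∈ T, ¬ G.Adj w t := by
        intro w hw
        have := hI.1 hw
        rwa [ib_X, Finset.mem_filter] at this
      refine ⟨⟨Finset.union_subset hTU (fun w hw => (hIX w hw).1), ?_⟩, ?_⟩
      · intro x hx y hy
        rw [Finset.mem_union] at hx hy
        rcases hx with hx | hx
        · rcases hy with hy | hy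
          · exact hTs x hx y hy
          · intro h; exact (hIX y hy).2.2 x hx h.symm
        · rcases hy with hy | hy
          · exact (hIX x hx).2.2 y hy
          · exact hI.2 x hx y hy
      · ext w
        rw [ib_T, Finset.mem_filter, Finset.mem_union]
        constructor
        · rintro ⟨h1 | h1, h2, h3⟩
          · exact h1
          · exact absurd (hIX w h1).2.1 h3
        · intro hw
          exact ⟨Or.inl hw, hTv w hw⟩

private lemma ib_group {V : Type*} (G : SimpleGraph V) (U : Finset V) (v : V) (hv : v ∈ U)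
    (D h : ℕ) (T : Finset V) (hT : T ∈ (SS G U).image (ib_T G v))
    (hD : h * ((SS G (ib_X G U v T)).card + 1) ≤ D + ∑ I ∈ SS G (ib_X G U v T), I.card) :
    h * ((SS G U).filter (fun W => ib_T G v W = T)).card
      ≤ ∑ W ∈ (SS G U).filter (fun W => ib_T G v W = T),
          ((if v ∈ W then D else 0) + (W.filter (G.Adj v)).card) := by
  rw [ib_fiber G U v hv T hT]
  have hTv : ∀ w ∈ T, w ≠ v ∧ ¬ G.Adj v w := by
    obtain ⟨W₀, hW₀, hW₀T⟩ := Finset.mem_image.1 hT
    rw [← hW₀T]
    intro w hw
    exact (Finset.mem_filter.1 hw).2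
  have hIX : ∀ I ∈ SS G (ib_X G U v T), ∀ w ∈ I, G.Adj v w := by
    intro I hI w hw
    rw [SS, Finset.mem_filter, Finset.mem_powerset] at hI
    have := hI.1 hw
    rw [ib_X, Finset.mem_filter] at this
    exact this.2.1
  have hnv : ∀ I ∈ SS G (ib_X G U v T), v ∉ T ∪ I := by
    intro I hI hvm
    rw [Finset.mem_union] at hvm
    rcases hvm with hvm | hvm
    · exact (hTv v hvm).1 rfl
    · exact G.loopless.irrefl v (hIX I hI v hvm)
  have hninj : insert v T ∉ (SS G (ib_X G U v T)).image (fun I => T ∪ I) := by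
    intro hmem
    obtain ⟨I, hI, hIe⟩ := Finset.mem_image.1 hmem
    apply hnv I hI
    have : v ∈ insert v T := Finset.mem_insert_self v T
    rw [← hIe] at this
    exact this
  have hfilt : ∀ I ∈ SS G (ib_X G U v T), (T ∪ I).filter (G.Adj v) = I := by
    intro I hI
    ext w
    rw [Finset.mem_filter, Finset.mem_union]
    constructor
    · rintro ⟨h1 | h1, h2⟩
      · exact absurd h2 (hTv w h1).2
      · exact h1
    · intro hw
      exact ⟨Or.inr hw, hIX I hI w hw⟩
  have hinj : Set.InjOn (fun I => T ∪ I) (SS G (ib_X G U v T) : Set (Finset V)) := by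
    intro I hI J hJ hIJ
    have h1 := hfilt I (Finset.mem_coe.1 hI)
    have h2 := hfilt J (Finset.mem_coe.1 hJ)
    simp only at hIJ
    rw [← h1, ← h2, hIJ]
  rw [Finset.card_insert_of_notMem hninj, Finset.card_image_of_injOn hinj,
    Finset.sum_insert hninj, Finset.sum_image hinj]
  refine hD.trans ?_
  apply Nat.add_le_add
  · rw [if_pos (Finset.mem_insert_self v T)]
    exact Nat.le_add_right _ _
  · apply Finset.sum_le_sum
    intro I hI
    rw [if_neg (hnv I hI), hfilt I hI, zero_add]

end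

open Classical in
/-- The local inequality at a vertex `v ∈ U`. -/
theorem local_ineq (r h : ℕ) : ∃ D₀ : ℕ, ∀ D ≥ D₀, ∀ {V : Type} (G : SimpleGraph V)
    (U : Finset V), NoK G r U → ∀ v ∈ U,
    h * (SS G U).card ≤ ∑ W ∈ SS G U, ((if v ∈ W then D else 0) + (W.filter (G.Adj v)).card) := by
  obtain ⟨i₀, hi₀⟩ := avg_stable r h
  refine ⟨h * (i₀ + 1), fun D hD {V} G U hU v hv => ?_⟩
  have hmaps : ∀ W ∈ SS G U, ib_T G v W ∈ (SS G U).image (ib_T G v) := fun W hW =>
    Finset.mem_image_of_mem _ hW
  rw [← Finset.sum_fiberwise_of_maps_to hmaps, Finset.card_eq_sum_card_fiberwise hmaps,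
    Finset.mul_sum]
  apply Finset.sum_le_sum
  intro T hT
  refine ib_group G U v hv D h T hT ?_
  by_cases hc : i₀ ≤ (SS G (ib_X G U v T)).card
  · have h1 : NoK G r (ib_X G U v T) := by
      intro K hK hKc
      exact hU K (hK.trans (Finset.filter_subset _ _)) hKc
    exact (hi₀ G _ h1 hc).trans (Nat.le_add_left _ _)
  · push Not at hc
    refine le_trans ?_ (Nat.le_add_right _ _)
    exact (Nat.mul_le_mul_left h (by omega)).trans hD
/- END ib -/

/- MODULE ic -/
open Classical in
private lemma ic_exchange {V : Type*} (G : SimpleGraph V) (U W : Finset V) (hWU : W ⊆ U) (D : ℕ)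
    (hd : ∀ v ∈ U, dg G U v ≤ D) :
    ∑ v ∈ U, ((if v ∈ W then D else 0) + (W.filter (G.Adj v)).card) ≤ 2 * D * W.card := by
  rw [Finset.sum_add_distrib]
  have h1 : ∑ v ∈ U, (if v ∈ W then D else 0) = D * W.card := by
    rw [← Finset.sum_filter, Finset.sum_const, smul_eq_mul, mul_comm]
    congr 2
    ext v
    rw [Finset.mem_filter]
    exact ⟨fun h => h.2, fun h => ⟨hWU h, h⟩⟩
  have h2 : ∑ v ∈ U, (W.filter (G.Adj v)).card = ∑ w ∈ W, dg G U w := by
    have h3 : ∀ v ∈ U, (W.filter (G.Adj v)).card = ∑ w ∈ W, if G.Adj v w then 1 else 0 := by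
      intro v _
      rw [Finset.card_filter]
    rw [Finset.sum_congr rfl h3, Finset.sum_comm]
    refine Finset.sum_congr rfl fun w _ => ?_
    rw [dg, Finset.card_filter]
    refine Finset.sum_congr rfl fun v _ => ?_
    rw [G.adj_comm]
  have h4 : ∑ w ∈ W, dg G U w ≤ W.card * D := by
    rw [← smul_eq_mul]
    exact Finset.sum_le_card_nsmul _ _ _ (fun w hw => hd w (hWU hw))
  rw [h1, h2]
  calc D * W.card + ∑ w ∈ W, dg G U w ≤ D * W.card + W.card * D := Nat.add_le_add_left h4 _
    _ = 2 * D * W.card := by ring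

/-- LEMMA I. A graph of maximum degree at most `D` on `U` without clique of `r` elements has a stable set
`I` with `2 D |I| ≥ h |U|`, `D ≥ D₀(r, h)`. -/
theorem big_stable (r h : ℕ) : ∃ D₀ : ℕ, ∀ D ≥ D₀, ∀ {V : Type} (G : SimpleGraph V)
    (U : Finset V), NoK G r U → (∀ v ∈ U, dg G U v ≤ D) →
    ∃ I ⊆ U, Stab G I ∧ h * U.card ≤ 2 * D * I.card := by
  classical
  obtain ⟨D₀, hD₀⟩ := local_ineq r h
  refine ⟨D₀, fun D hD {V} G U hU hd => ?_⟩
  have h1 : ∀ v ∈ U, h * (SS G U).card
      ≤ ∑ W ∈ SS G U, ((if v ∈ W then D else 0) + (W.filter (G.Adj v)).card) := by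
    intro v hv
    exact hD₀ D hD G U hU v hv
  have h2 := Finset.sum_le_sum h1
  rw [Finset.sum_comm, Finset.sum_const, smul_eq_mul] at h2
  have hsub : ∀ W ∈ SS G U, W ⊆ U ∧ Stab G W := by
    intro W hW
    rw [SS, Finset.mem_filter, Finset.mem_powerset] at hW
    exact hW
  have h3 : ∑ W ∈ SS G U, ∑ v ∈ U, ((if v ∈ W then D else 0) + (W.filter (G.Adj v)).card)
      ≤ ∑ W ∈ SS G U, 2 * D * W.card :=
    Finset.sum_le_sum fun W hW => ic_exchange G U W (hsub W hW).1 D hd
  have h4 : ∑ W ∈ SS G U, h * U.card ≤ ∑ W ∈ SS G U, 2 * D * W.card := by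
    refine le_trans ?_ (h2.trans h3)
    rw [Finset.sum_const, smul_eq_mul]
    exact le_of_eq (by ring)
  have hne : (SS G U).Nonempty := by
    refine ⟨∅, ?_⟩
    rw [SS, Finset.mem_filter, Finset.mem_powerset]
    exact ⟨Finset.empty_subset U, fun x hx => absurd hx (Finset.notMem_empty x)⟩
  obtain ⟨W, hW, hWle⟩ := Finset.exists_le_of_sum_le hne h4
  exact ⟨W, (hsub W hW).1, (hsub W hW).2, hWle⟩
/- END ic -/

end Whl
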