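import Mathlib

set_option autoImplicit false

/-!
# Linearisation: from uniform hypergraphs to linear triple systems

Lemma L: let `A` be a large family of `m`-subsets `N a` of `B` such that every `s'`-subset of `B`
lies in fewer than `s` of them.  Then there are `A' ⊆ A` and `B' ⊆ B` such that the traces of the
sets `N a`, `a ∈ A'`, on `B'` have three elements and pairwise at most one common element, and
`C3 * |B'| ≤ |A'|`.
-/

namespace Whl.LinAux

open Finset

universe u v

/-- The conclusion of Lemma L. -/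
def LinC {α : Type u} {β : Type v} [DecidableEq β] (C3 : ℕ) (A : Finset α) (B : Finset β)
    (N : α → Finset β) : Prop :=
  ∃ A' ⊆ A, ∃ B' ⊆ B, A'.Nonempty ∧ (∀ a ∈ A', (N a ∩ B').card = 3) ∧
    (∀ a ∈ A', ∀ a' ∈ A', a ≠ a' → (N a ∩ N a' ∩ B').card ≤ 1) ∧ C3 * B'.card ≤ A'.card

/-- `π` is a bijection from `M` to the positions. -/
def Rb {β : Type v} {m : ℕ} (π : β → Fin m) (M : Finset β) : Prop :=
  ∀ i, ∃ b ∈ M, π b = i ∧ ∀ b' ∈ M, π b' = i → b' = b

/-- Greedy choice of an independent set. -/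
theorem greedy {α : Type u} [DecidableEq α] (r : α → α → Prop) [DecidableRel r]
    (hr : ∀ a b, r a b → r b a) (D : ℕ) (A : Finset α)
    (h : ∀ a ∈ A, (A.filter (fun a' => r a a')).card ≤ D) :
    ∃ A' ⊆ A, A.card ≤ (D + 1) * A'.card ∧ ∀ a ∈ A', ∀ a' ∈ A', a ≠ a' → ¬ r a a' := by
  induction hn : A.card using Nat.strong_induction_on generalizing A with
  | _ n ih =>
    rcases A.eq_empty_or_nonempty with h0 | ⟨a, ha⟩
    · subst h0
      exact ⟨∅, Finset.Subset.refl _, by simp at hn; omega, by simp⟩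
    · set A1 := (A.erase a).filter (fun a' => ¬ r a a') with hA1
      have h1 : A1 ⊆ A := fun x hx => Finset.mem_of_mem_erase (Finset.mem_filter.1 hx).1
      have h2 : A1.card < n := by
        rw [← hn]
        apply Finset.card_lt_card
        rw [Finset.ssubset_iff_of_subset h1]
        exact ⟨a, ha, by simp [hA1]⟩
      obtain ⟨A', h3, h4, h5⟩ := ih A1.card h2 A1 (fun x hx =>
        (Finset.card_le_card (Finset.filter_subset_filter _ h1)).trans (h x (h1 hx))) rfl
      have haA' : a ∉ A' := fun hx => by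
        have := h3 hx
        simp [hA1] at this
      refine ⟨insert a A', ?_, ?_, ?_⟩
      · intro x hx
        rcases Finset.mem_insert.1 hx with h6 | h6
        · rw [h6]; exact ha
        · exact h1 (h3 h6)
      · rw [Finset.card_insert_of_notMem haA']
        have h6 : A ⊆ insert a (A1 ∪ A.filter (fun a' => r a a')) := by
          intro x hx
          by_cases hxa : x = a
          · rw [hxa]; exact Finset.mem_insert_self _ _
          · apply Finset.mem_insert_of_mem
            by_cases hrx : r a x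
            · exact Finset.mem_union_right _ (Finset.mem_filter.2 ⟨hx, hrx⟩)
            · exact Finset.mem_union_left _ (Finset.mem_filter.2
                ⟨Finset.mem_erase.2 ⟨hxa, hx⟩, hrx⟩)
        have h7 := (Finset.card_le_card h6).trans (Finset.card_insert_le _ _)
        have h8 := Finset.card_union_le A1 (A.filter (fun a' => r a a'))
        have h9 := h a ha
        rw [hn] at h7
        nlinarith
      · intro x hx y hy hxy
        rcases Finset.mem_insert.1 hx with h6 | h6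
        · rcases Finset.mem_insert.1 hy with h7 | h7
          · exact absurd (h6.trans h7.symm) hxy
          · rw [h6]
            exact (Finset.mem_filter.1 (h3 h7)).2
        · rcases Finset.mem_insert.1 hy with h7 | h7
          · rw [h7]
            exact fun h8 => (Finset.mem_filter.1 (h3 h6)).2 (hr _ _ h8)
          · exact h5 x h6 y h7 hxy

/-- Many sets are rainbow for some colouring. -/
theorem exists_rb {α : Type u} {β : Type v} [DecidableEq α] [DecidableEq β] (A : Finset α)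
    (B : Finset β) (N : α → Finset β) (m : ℕ) (hm : 0 < m) (hN : ∀ a ∈ A, N a ⊆ B)
    (hc : ∀ a ∈ A, (N a).card = m) :
    ∃ π : β → Fin m, ∃ A1 ⊆ A, (∀ a ∈ A1, Rb π (N a)) ∧ A.card ≤ m ^ m * A1.card := by
  classical
  have : NeZero m := ⟨by omega⟩
  -- extension of a colouring of `B`
  set ex : (↥B → Fin m) → β → Fin m := fun f b => if h : b ∈ B then f ⟨b, h⟩ else 0 with hex
  set Rs : (↥B → Fin m) → Finset α := fun f => A.filter (fun a => Rb (ex f) (N a)) with hRs
  by_contra hcon
  push Not at hcon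
  have h1 : ∀ f : ↥B → Fin m, m ^ m * (Rs f).card < A.card := fun f =>
    hcon (ex f) (Rs f) (Finset.filter_subset _ _) (fun a ha => (Finset.mem_filter.1 ha).2)
  have h2 : ∀ a ∈ A, m ^ (Fintype.card ↥B - m) ≤
      ((Finset.univ : Finset (↥B → Fin m)).filter (fun f => Rb (ex f) (N a))).card := by
    intro a ha
    have e : N a ≃ Fin m := Finset.equivFinOfCardEq (hc a ha)
    set S : Finset (↥B → Fin m) := Fintype.piFinset (fun b : ↥B =>
      if h : (b : β) ∈ N a then {e ⟨b, h⟩} else Finset.univ) with hS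
    have h3 : S.card = m ^ (Fintype.card ↥B - m) := by
      rw [hS, Fintype.card_piFinset]
      have h4 : ∀ b : ↥B, ((if h : (b : β) ∈ N a then ({e ⟨b, h⟩} : Finset (Fin m))
          else Finset.univ)).card = if (b : β) ∈ N a then 1 else m := by
        intro b
        split_ifs with h
        · simp
        · simp
      rw [Finset.prod_congr rfl (fun b _ => h4 b), Finset.prod_ite, Finset.prod_const_one, one_mul,
        Finset.prod_const]
      congr 1
      have h5 : ((Finset.univ : Finset ↥B).filter (fun b : ↥B => (b : β) ∈ N a)).card = m := by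
        rw [← hc a ha]
        apply Finset.card_bij (fun (b : ↥B) _ => (b : β))
        · intro b hb
          exact (Finset.mem_filter.1 hb).2
        · intro b _ b' _ hbb
          exact Subtype.ext hbb
        · intro b hb
          exact ⟨⟨b, hN a ha hb⟩, by simp [hb], rfl⟩
      have h6 := Finset.card_filter_add_card_filter_not (s := (Finset.univ : Finset ↥B))
        (fun b : ↥B => (b : β) ∈ N a)
      rw [h5, Finset.card_univ] at h6
      omega
    rw [← h3]
    apply Finset.card_le_card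
    intro f hf
    rw [hS, Fintype.mem_piFinset] at hf
    rw [Finset.mem_filter]
    refine ⟨Finset.mem_univ _, ?_⟩
    have h7 : ∀ b (hb : b ∈ N a), ex f b = e ⟨b, hb⟩ := by
      intro b hb
      have h8 := hf ⟨b, hN a ha hb⟩
      simp only [hb, dite_true, Finset.mem_singleton] at h8
      simp only [hex, hN a ha hb, dite_true]
      exact h8
    intro i
    refine ⟨(e.symm i).1, (e.symm i).2, ?_, ?_⟩
    · rw [h7 _ (e.symm i).2]
      simp
    · intro b' hb' hi
      rw [h7 b' hb'] at hi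
      rw [← hi]
      simp
  have h3 : ∑ f : ↥B → Fin m, (Rs f).card =
      ∑ a ∈ A, ((Finset.univ : Finset (↥B → Fin m)).filter (fun f => Rb (ex f) (N a))).card := by
    simp only [hRs, Finset.card_filter]
    rw [Finset.sum_comm]
  rcases A.eq_empty_or_nonempty with h0 | ⟨a0, ha0⟩
  · have := h1 (fun _ => 0)
    rw [h0] at this
    simp at this
  have hBm : m ≤ Fintype.card ↥B := by
    rw [Fintype.card_coe, ← hc a0 ha0]
    exact Finset.card_le_card (hN a0 ha0)
  have h4 : A.card * m ^ (Fintype.card ↥B - m) ≤ ∑ f : ↥B → Fin m, (Rs f).card := by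
    rw [h3, ← smul_eq_mul, ← Finset.sum_const]
    exact Finset.sum_le_sum h2
  have h5 : ∑ f : ↥B → Fin m, m ^ m * (Rs f).card < ∑ _f : ↥B → Fin m, A.card :=
    Finset.sum_lt_sum_of_nonempty ⟨fun _ => 0, Finset.mem_univ _⟩ (fun f _ => h1 f)
  rw [← Finset.mul_sum, Finset.sum_const, Finset.card_univ, Fintype.card_fun, Fintype.card_fin,
    smul_eq_mul] at h5
  have h6 : m ^ Fintype.card ↥B = m ^ m * m ^ (Fintype.card ↥B - m) := by
    rw [← pow_add]
    congr 1
    omega
  rw [h6] at h5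
  have h7 := Nat.mul_le_mul_left (m ^ m) h4
  nlinarith

/-- The pair `(i, j)` of positions is light in `A`. -/
def Light {α : Type u} {β : Type v} [DecidableEq β] {m : ℕ} (π : β → Fin m) (N : α → Finset β)
    (c : ℕ) (A : Finset α) (i j : Fin m) : Prop :=
  ∀ b v, π b = i → π v = j → (A.filter (fun a => b ∈ N a ∧ v ∈ N a)).card ≤ c

theorem Light.mono {α : Type u} {β : Type v} [DecidableEq β] {m : ℕ} {π : β → Fin m}
    {N : α → Finset β} {c : ℕ} {A A' : Finset α} {i j : Fin m} (h : Light π N c A i j)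
    (hA : A' ⊆ A) : Light π N c A' i j :=
  fun b v hb hv => (Finset.card_le_card (Finset.filter_subset_filter _ hA)).trans (h b v hb hv)

/-- The induction hypothesis. -/
def LinH (C3 s' s p c : ℕ) : Prop :=
  ∀ (α : Type u) (β : Type v) [DecidableEq α] [DecidableEq β] (A : Finset α) (B : Finset β)
    (N : α → Finset β), (∀ a ∈ A, N a ⊆ B) → (∀ a ∈ A, (N a).card = p) → A.Nonempty →
    c * B.card ≤ A.card →
    (∀ J ⊆ B, J.card = s' → (A.filter (fun a => J ⊆ N a)).card < s) → LinC C3 A B N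

/-- The elements of `M` with position in `P` -/
def NP {β : Type v} [DecidableEq β] {m : ℕ} (π : β → Fin m) (P : Finset (Fin m)) (M : Finset β) :
    Finset β := M.filter (fun b => π b ∈ P)

theorem NP_card {β : Type v} [DecidableEq β] {m : ℕ} {π : β → Fin m} {P : Finset (Fin m)}
    {M : Finset β} (h : Rb π M) : (NP π P M).card = P.card := by
  classical
  apply Finset.card_bij (fun b _ => π b)
  · intro b hb
    exact (Finset.mem_filter.1 hb).2
  · intro b hb b' hb' hbb
    obtain ⟨c, _, _, hc⟩ := h (π b)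
    rw [hc b (Finset.mem_filter.1 hb).1 rfl, hc b' (Finset.mem_filter.1 hb').1 hbb.symm]
  · intro i hi
    obtain ⟨b, hb1, hb2, _⟩ := h i
    exact ⟨b, Finset.mem_filter.2 ⟨hb1, by rw [hb2]; exact hi⟩, hb2⟩

/-- ONE STEP. -/
theorem one_step {C3 s' s p c m : ℕ} (IH : LinH.{u, v} C3 s' s p c) (hp : 0 < p) {α : Type u}
    {β : Type v} [DecidableEq α] [DecidableEq β] (A : Finset α) (B : Finset β)
    (N : α → Finset β) (hN : ∀ a ∈ A, N a ⊆ B)
    (hs : ∀ J ⊆ B, J.card = s' + 1 → (A.filter (fun a => J ⊆ N a)).card < s)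
    (hL : ¬ LinC C3 A B N) (π : β → Fin m) (A1 : Finset α) (hA1 : A1 ⊆ A)
    (hrb : ∀ a ∈ A1, Rb π (N a)) (i : Fin m) (P : Finset (Fin m)) (hi : i ∉ P)
    (hP : P.card = p) :
    ∃ j ∈ P, ∃ A2 ⊆ A1, A1.card ≤ p * A2.card ∧ Light π N c A2 i j := by
  classical
  rcases A1.eq_empty_or_nonempty with hA10 | ⟨a1, ha1⟩
  · obtain ⟨j, hj⟩ : P.Nonempty := Finset.card_pos.1 (by omega)
    refine ⟨j, hj, A1, Finset.Subset.refl _, ?_, ?_⟩
    · rw [hA10]
      simp
    · intro b v _ _
      rw [hA10]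
      simp
  have hne : Nonempty β := by
    obtain ⟨b, _⟩ := hrb a1 ha1 i
    exact ⟨b⟩
  -- the bound for subsets of the link of `b`
  have key : ∀ b, π b = i → ∀ F ⊆ A1.filter (fun a => b ∈ N a),
      F.card ≤ c * (F.biUnion (fun a => NP π P (N a))).card := by
    intro b hb F hF
    by_contra hcon
    push Not at hcon
    set W := F.biUnion (fun a => NP π P (N a)) with hW
    have hFA1 : F ⊆ A1 := hF.trans (Finset.filter_subset _ _)
    have hWP : ∀ v ∈ W, π v ∈ P := by
      intro v hv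
      obtain ⟨a, _, ha⟩ := Finset.mem_biUnion.1 hv
      exact (Finset.mem_filter.1 ha).2
    have hWB : W ⊆ B := by
      intro v hv
      obtain ⟨a, ha, ha2⟩ := Finset.mem_biUnion.1 hv
      exact hN a (hA1 (hFA1 ha)) (Finset.mem_filter.1 ha2).1
    have hne : F.Nonempty := by
      rw [Finset.nonempty_iff_ne_empty]
      intro h0
      rw [h0] at hcon
      simp at hcon
    have h1 := IH α β F W (fun a => NP π P (N a))
      (fun a ha => Finset.subset_biUnion_of_mem (fun a => NP π P (N a)) ha)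
      (fun a ha => by rw [NP_card (hrb a (hFA1 ha)), hP]) hne hcon.le (by
        intro J hJ hJc
        have hbJ : b ∉ J := fun h => hi (hb ▸ hWP b (hJ h))
        obtain ⟨a0, ha0⟩ := hne
        have hbB : b ∈ B := hN a0 (hA1 (hFA1 ha0)) (Finset.mem_filter.1 (hF ha0)).2
        refine lt_of_le_of_lt (Finset.card_le_card ?_) (hs (insert b J) ?_ ?_)
        · intro a ha
          rw [Finset.mem_filter] at ha ⊢
          refine ⟨hA1 (hFA1 ha.1), ?_⟩
          intro x hx
          rcases Finset.mem_insert.1 hx with h2 | h2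
          · rw [h2]
            exact (Finset.mem_filter.1 (hF ha.1)).2
          · exact (Finset.mem_filter.1 (ha.2 h2)).1
        · intro x hx
          rcases Finset.mem_insert.1 hx with h2 | h2
          · rw [h2]; exact hbB
          · exact hWB (hJ h2)
        · rw [Finset.card_insert_of_notMem hbJ, hJc])
    obtain ⟨A', hA', B', hB', h2, h3, h4, h5⟩ := h1
    have h6 : ∀ a, NP π P (N a) ∩ B' = N a ∩ B' := by
      intro a
      ext x
      simp only [NP, Finset.mem_inter, Finset.mem_filter]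
      exact ⟨fun h => ⟨h.1.1, h.2⟩, fun h => ⟨⟨h.1, hWP x (hB' h.2)⟩, h.2⟩⟩
    refine hL ⟨A', hA'.trans (hFA1.trans hA1), B', hB'.trans hWB, h2, ?_, ?_, h5⟩
    · intro a ha
      rw [← h6]
      exact h3 a ha
    · intro a ha a' ha' hne
      refine le_trans (Finset.card_le_card ?_) (h4 a ha a' ha' hne)
      intro x hx
      simp only [NP, Finset.mem_inter, Finset.mem_filter] at hx ⊢
      exact ⟨⟨⟨hx.1.1, hWP x (hB' hx.2)⟩, ⟨hx.1.2, hWP x (hB' hx.2)⟩⟩, hx.2⟩
  -- Hall
  have hall : ∀ b, π b = i → ∃ ρ : α → β, (∀ a ∈ A1, b ∈ N a → ρ a ∈ NP π P (N a)) ∧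
      ∀ v, (A1.filter (fun a => b ∈ N a ∧ ρ a = v)).card ≤ c := by
    intro b hb
    set Lb := A1.filter (fun a => b ∈ N a) with hLb
    have h1 := (Finset.all_card_le_biUnion_card_iff_exists_injective
      (fun a : ↥Lb => (NP π P (N (a : α))) ×ˢ (Finset.univ : Finset (Fin c)))).1 (by
        intro T
        have h2 : (T.biUnion (fun a : ↥Lb => (NP π P (N (a : α))) ×ˢ
            (Finset.univ : Finset (Fin c)))) =
            ((T.map (Function.Embedding.subtype _)).biUnion (fun a => NP π P (N a))) ×ˢ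
              (Finset.univ : Finset (Fin c)) := by
          ext ⟨x, y⟩
          simp only [Finset.mem_biUnion, Finset.mem_product, Finset.mem_univ, and_true,
            Finset.mem_map, Function.Embedding.coe_subtype]
          constructor
          · rintro ⟨a, ha, hx⟩
            exact ⟨a, ⟨a, ha, rfl⟩, hx⟩
          · rintro ⟨a, ⟨a', ha', rfl⟩, hx⟩
            exact ⟨a', ha', hx⟩
        rw [h2, Finset.card_product, Finset.card_univ, Fintype.card_fin]
        have h3 := key b hb (T.map (Function.Embedding.subtype _)) (by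
          intro x hx
          obtain ⟨y, _, rfl⟩ := Finset.mem_map.1 hx
          exact y.2)
        rw [Finset.card_map] at h3
        linarith)
    obtain ⟨f, hf1, hf2⟩ := h1
    refine ⟨fun a => if h : a ∈ Lb then (f ⟨a, h⟩).1 else b, ?_, ?_⟩
    · intro a ha hba
      have h2 : a ∈ Lb := Finset.mem_filter.2 ⟨ha, hba⟩
      simp only [h2, dite_true]
      exact (Finset.mem_product.1 (hf2 ⟨a, h2⟩)).1
    · intro v
      have h2 : A1.filter (fun a => b ∈ N a ∧
          (if h : a ∈ Lb then (f ⟨a, h⟩).1 else b) = v) ⊆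
          ((Finset.univ : Finset ↥Lb).filter (fun a => (f a).1 = v)).map
            (Function.Embedding.subtype _) := by
        intro a ha
        obtain ⟨ha1, ha2, ha3⟩ := Finset.mem_filter.1 ha
        have h3 : a ∈ Lb := Finset.mem_filter.2 ⟨ha1, ha2⟩
        simp only [h3, dite_true] at ha3
        exact Finset.mem_map.2 ⟨⟨a, h3⟩, Finset.mem_filter.2 ⟨Finset.mem_univ _, ha3⟩, rfl⟩
      have h3 := Finset.card_le_card h2
      rw [Finset.card_map] at h3
      refine h3.trans ?_
      have h4 : ((Finset.univ : Finset ↥Lb).filter (fun a => (f a).1 = v)).card ≤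
          (({v} : Finset β) ×ˢ (Finset.univ : Finset (Fin c))).card := by
        apply Finset.card_le_card_of_injOn f
        · intro a ha
          have ha' := (Finset.mem_filter.1 ha).2
          exact Finset.mem_coe.2 (Finset.mem_product.2
            ⟨Finset.mem_singleton.2 ha', Finset.mem_univ _⟩)
        · exact fun x _ y _ h => hf1 h
      rw [Finset.card_product, Finset.card_singleton, one_mul, Finset.card_univ,
        Fintype.card_fin] at h4
      exact h4
  choose! ρ hρ1 hρ2 using hall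
  have hbx : ∀ a ∈ A1, ∃ b ∈ N a, π b = i ∧ ∀ b' ∈ N a, π b' = i → b' = b :=
    fun a ha => hrb a ha i
  choose! bx hb1 hb2 hb3 using hbx
  have h1 : ∀ a ∈ A1, ρ (bx a) a ∈ NP π P (N a) := fun a ha =>
    hρ1 (bx a) (hb2 a ha) a ha (hb1 a ha)
  -- the pigeonhole principle
  obtain ⟨j, hj, hj2⟩ : ∃ j ∈ P, A1.card ≤ p * (A1.filter (fun a => π (ρ (bx a) a) = j)).card := by
    by_contra hcon
    push Not at hcon
    have h2 : A1.card = ∑ j ∈ P, (A1.filter (fun a => π (ρ (bx a) a) = j)).card :=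
      Finset.card_eq_sum_card_fiberwise (fun a ha => (Finset.mem_filter.1 (h1 a ha)).2)
    have h3 : ∑ j ∈ P, p * (A1.filter (fun a => π (ρ (bx a) a) = j)).card < ∑ _j ∈ P, A1.card :=
      Finset.sum_lt_sum_of_nonempty (Finset.card_pos.1 (by omega)) hcon
    rw [← Finset.mul_sum, ← h2, Finset.sum_const, hP, smul_eq_mul] at h3
    omega
  refine ⟨j, hj, A1.filter (fun a => π (ρ (bx a) a) = j), Finset.filter_subset _ _, hj2, ?_⟩
  intro b v hb hv
  refine le_trans (Finset.card_le_card ?_) (hρ2 b hb v)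
  intro a ha
  rw [Finset.mem_filter, Finset.mem_filter] at ha
  obtain ⟨⟨ha1, ha2⟩, ha3, ha4⟩ := ha
  rw [Finset.mem_filter]
  refine ⟨ha1, ha3, ?_⟩
  have h4 : b = bx a := hb3 a ha1 b ha3 hb
  have h5 := (Finset.mem_filter.1 (h1 a ha1)).1
  obtain ⟨w, _, _, hw⟩ := hrb a ha1 j
  rw [h4, hw _ h5 ha2, hw v ha4 hv]

/-- Position `0` has `k` light partners. -/
theorem steps {C3 s' s p c : ℕ} (IH : LinH.{u, v} C3 s' s p c) (hp : 0 < p) {α : Type u}
    {β : Type v} [DecidableEq α] [DecidableEq β] (A : Finset α) (B : Finset β)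
    (N : α → Finset β) (hN : ∀ a ∈ A, N a ⊆ B)
    (hs : ∀ J ⊆ B, J.card = s' + 1 → (A.filter (fun a => J ⊆ N a)).card < s)
    (hL : ¬ LinC C3 A B N) (π : β → Fin (2 * p + 1)) (A1 : Finset α) (hA1 : A1 ⊆ A)
    (hrb : ∀ a ∈ A1, Rb π (N a)) (k : ℕ) (hk : k ≤ p + 1) :
    ∃ Q : Finset (Fin (2 * p + 1)), (0 : Fin (2 * p + 1)) ∉ Q ∧ Q.card = k ∧ ∃ A2 ⊆ A1,
      A1.card ≤ p ^ k * A2.card ∧ ∀ j ∈ Q, Light π N c A2 0 j := by
  classical
  induction k with
  | zero =>
    exact ⟨∅, by simp, rfl, A1, Finset.Subset.refl _, by simp, by simp⟩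
  | succ k ih =>
    obtain ⟨Q, h0, h1, A2, h2, h3, h4⟩ := ih (by omega)
    have h5 : p ≤ ((Finset.univ.erase (0 : Fin (2 * p + 1))) \ Q).card := by
      have h6 := Finset.le_card_sdiff Q (Finset.univ.erase (0 : Fin (2 * p + 1)))
      rw [Finset.card_erase_of_mem (Finset.mem_univ _), Finset.card_univ, Fintype.card_fin,
        h1] at h6
      omega
    obtain ⟨P, hP1, hP2⟩ := Finset.exists_subset_card_eq h5
    have h6 : (0 : Fin (2 * p + 1)) ∉ P := fun h => by
      have := hP1 h
      simp at this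
    obtain ⟨j, hj, A3, h7, h8, h9⟩ := one_step IH hp A B N hN hs hL π A2 (h2.trans hA1)
      (fun a ha => hrb a (h2 ha)) 0 P h6 hP2
    have hjQ : j ∉ Q := (Finset.mem_sdiff.1 (hP1 hj)).2
    refine ⟨insert j Q, ?_, ?_, A3, h7.trans h2, ?_, ?_⟩
    · intro h
      rcases Finset.mem_insert.1 h with h | h
      · exact h6 (h ▸ hj)
      · exact h0 h
    · rw [Finset.card_insert_of_notMem hjQ, h1]
    · calc A1.card ≤ p ^ k * A2.card := h3
        _ ≤ p ^ k * (p * A3.card) := Nat.mul_le_mul_left _ h8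
        _ = p ^ (k + 1) * A3.card := by ring
    · intro x hx
      rcases Finset.mem_insert.1 hx with h | h
      · rw [h]
        exact h9
      · exact (h4 x h).mono h7

/-- The conflicts are few. -/
theorem few {α : Type u} {β : Type v} [DecidableEq α] [DecidableEq β] {m : ℕ} {π : β → Fin m}
    {N : α → Finset β} {c : ℕ} {A : Finset α} {i j k : Fin m} (hij : Light π N c A i j)
    (hik : Light π N c A i k) (hjk : Light π N c A j k) {B' : Finset β}
    (hB' : ∀ b ∈ B', π b = i ∨ π b = j ∨ π b = k) (hrb : ∀ a ∈ A, Rb π (N a)) (a : α)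
    (ha : a ∈ A) :
    (A.filter (fun a' => a ≠ a' ∧ 2 ≤ (N a ∩ N a' ∩ B').card)).card ≤ 3 * c := by
  classical
  obtain ⟨x, hx1, hx2, hx3⟩ := hrb a ha i
  obtain ⟨y, hy1, hy2, hy3⟩ := hrb a ha j
  obtain ⟨z, hz1, hz2, hz3⟩ := hrb a ha k
  have h1 : A.filter (fun a' => a ≠ a' ∧ 2 ≤ (N a ∩ N a' ∩ B').card) ⊆
      (A.filter (fun a' => x ∈ N a' ∧ y ∈ N a') ∪ A.filter (fun a' => x ∈ N a' ∧ z ∈ N a')) ∪
        A.filter (fun a' => y ∈ N a' ∧ z ∈ N a') := by
    intro a' ha'
    obtain ⟨h1, _, h2⟩ := Finset.mem_filter.1 ha'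
    obtain ⟨u, hu, v, hv, huv⟩ := Finset.one_lt_card.1 (by omega : 1 < (N a ∩ N a' ∩ B').card)
    simp only [Finset.mem_inter] at hu hv
    have hu2 : u = x ∨ u = y ∨ u = z := by
      rcases hB' u hu.2 with h | h | h
      · exact Or.inl (hx3 u hu.1.1 h)
      · exact Or.inr (Or.inl (hy3 u hu.1.1 h))
      · exact Or.inr (Or.inr (hz3 u hu.1.1 h))
    have hv2 : v = x ∨ v = y ∨ v = z := by
      rcases hB' v hv.2 with h | h | h
      · exact Or.inl (hx3 v hv.1.1 h)
      · exact Or.inr (Or.inl (hy3 v hv.1.1 h))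
      · exact Or.inr (Or.inr (hz3 v hv.1.1 h))
    have hu3 := hu.1.2
    have hv3 := hv.1.2
    simp only [Finset.mem_union, Finset.mem_filter]
    rcases hu2 with rfl | rfl | rfl <;> rcases hv2 with rfl | rfl | rfl <;>
      first
      | exact absurd rfl huv
      | exact Or.inl (Or.inl ⟨h1, by assumption, by assumption⟩)
      | exact Or.inl (Or.inr ⟨h1, by assumption, by assumption⟩)
      | exact Or.inr ⟨h1, by assumption, by assumption⟩
  have h2 := Finset.card_le_card h1
  have h3 := Finset.card_union_le (A.filter (fun a' => x ∈ N a' ∧ y ∈ N a') ∪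
    A.filter (fun a' => x ∈ N a' ∧ z ∈ N a')) (A.filter (fun a' => y ∈ N a' ∧ z ∈ N a'))
  have h4 := Finset.card_union_le (A.filter (fun a' => x ∈ N a' ∧ y ∈ N a'))
    (A.filter (fun a' => x ∈ N a' ∧ z ∈ N a'))
  have h5 := hij x y hx2 hy2
  have h6 := hik x z hx2 hz2
  have h7 := hjk y z hy2 hz2
  omega

/-- **Lemma L**, induction step. -/
theorem lin_step {C3 s' s p c : ℕ} (IH : LinH.{u, v} C3 s' s p c) (hp : 0 < p) :
    LinH.{u, v} C3 (s' + 1) s (2 * p + 1)
      (C3 * ((2 * p + 1) ^ (2 * p + 1) * p ^ (p + 2) * (3 * c + 1))) := by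
  classical
  intro α β _ _ A B N hN hc hne hC hs
  by_contra hL
  obtain ⟨π, A1, hA1, hrb, h1⟩ := exists_rb A B N (2 * p + 1) (by omega) hN hc
  obtain ⟨Q, hQ0, hQc, A2, h2, h3, h4⟩ := steps IH hp A B N hN hs hL π A1 hA1 hrb (p + 1) le_rfl
  obtain ⟨j, hj⟩ : Q.Nonempty := Finset.card_pos.1 (by omega)
  obtain ⟨k, hk, A3, h5, h6, h7⟩ := one_step IH hp A B N hN hs hL π A2 (h2.trans hA1)
    (fun a ha => hrb a (h2 ha)) j (Q.erase j) (Finset.notMem_erase _ _)
    (by rw [Finset.card_erase_of_mem hj, hQc]; rfl)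
  have hkQ := Finset.mem_of_mem_erase hk
  have hkj : k ≠ j := Finset.ne_of_mem_erase hk
  have hj0 : j ≠ 0 := fun h => hQ0 (h ▸ hj)
  have hk0 : k ≠ 0 := fun h => hQ0 (h ▸ hkQ)
  set B' := B.filter (fun b => π b = 0 ∨ π b = j ∨ π b = k) with hB'
  have hA3 : ∀ a ∈ A3, Rb π (N a) := fun a ha => hrb a (h2 (h5 ha))
  have hfew := few (π := π) (N := N) (c := c) (A := A3) ((h4 j hj).mono h5) ((h4 k hkQ).mono h5) h7
    (B' := B') (fun b hb => (Finset.mem_filter.1 hb).2) hA3
  obtain ⟨A', h8, h9, h10⟩ := greedy (fun a a' => a ≠ a' ∧ 2 ≤ (N a ∩ N a' ∩ B').card)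
    (fun a b h => ⟨h.1.symm, by rw [Finset.inter_comm (N b) (N a)]; exact h.2⟩) (3 * c) A3 hfew
  have h11 : A.card ≤ (2 * p + 1) ^ (2 * p + 1) * p ^ (p + 2) * (3 * c + 1) * A'.card := by
    calc A.card ≤ (2 * p + 1) ^ (2 * p + 1) * A1.card := h1
      _ ≤ (2 * p + 1) ^ (2 * p + 1) * (p ^ (p + 1) * A2.card) := Nat.mul_le_mul_left _ h3
      _ ≤ (2 * p + 1) ^ (2 * p + 1) * (p ^ (p + 1) * (p * A3.card)) :=
        Nat.mul_le_mul_left _ (Nat.mul_le_mul_left _ h6)
      _ ≤ (2 * p + 1) ^ (2 * p + 1) * (p ^ (p + 1) * (p * ((3 * c + 1) * A'.card))) :=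
        Nat.mul_le_mul_left _ (Nat.mul_le_mul_left _ (Nat.mul_le_mul_left _ h9))
      _ = _ := by ring
  apply hL
  refine ⟨A', h8.trans (h5.trans (h2.trans hA1)), B', Finset.filter_subset _ _, ?_, ?_, ?_, ?_⟩
  · rw [← Finset.card_pos]
    have := Finset.card_pos.2 hne
    by_contra h12
    have h13 : A'.card = 0 := by omega
    rw [h13] at h11
    omega
  · intro a ha
    have haA3 := h8 ha
    have haA : a ∈ A := hA1 (h2 (h5 haA3))
    obtain ⟨x, hx1, hx2, hx3⟩ := hA3 a haA3 0
    obtain ⟨y, hy1, hy2, hy3⟩ := hA3 a haA3 j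
    obtain ⟨z, hz1, hz2, hz3⟩ := hA3 a haA3 k
    have h12 : N a ∩ B' = {x, y, z} := by
      ext w
      simp only [hB', Finset.mem_inter, Finset.mem_filter, Finset.mem_insert, Finset.mem_singleton]
      constructor
      · rintro ⟨hw1, _, h | h | h⟩
        · exact Or.inl (hx3 w hw1 h)
        · exact Or.inr (Or.inl (hy3 w hw1 h))
        · exact Or.inr (Or.inr (hz3 w hw1 h))
      · rintro (h | h | h)
        · rw [h]; exact ⟨hx1, hN a haA hx1, Or.inl hx2⟩
        · rw [h]; exact ⟨hy1, hN a haA hy1, Or.inr (Or.inl hy2)⟩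
        · rw [h]; exact ⟨hz1, hN a haA hz1, Or.inr (Or.inr hz2)⟩
    rw [h12]
    apply Finset.card_eq_three.2
    refine ⟨x, y, z, ?_, ?_, ?_, rfl⟩
    · intro h
      apply hj0
      rw [← hx2, ← hy2, h]
    · intro h
      apply hk0
      rw [← hx2, ← hz2, h]
    · intro h
      apply hkj
      rw [← hy2, ← hz2, h]
  · intro a ha a' ha' hne'
    have h12 := h10 a ha a' ha' hne'
    by_contra h13
    exact h12 ⟨hne', by omega⟩
  · set K := (2 * p + 1) ^ (2 * p + 1) * p ^ (p + 2) * (3 * c + 1) with hK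
    have hKpos : 0 < K := by positivity
    have h12 : B'.card ≤ B.card := Finset.card_le_card (Finset.filter_subset _ _)
    have h13 : K * (C3 * B'.card) ≤ K * A'.card := by
      calc K * (C3 * B'.card) ≤ K * (C3 * B.card) :=
            Nat.mul_le_mul_left _ (Nat.mul_le_mul_left _ h12)
        _ = C3 * K * B.card := by ring
        _ ≤ A.card := hC
        _ ≤ K * A'.card := h11
    exact Nat.le_of_mul_le_mul_left h13 hKpos

/-- **Lemma L.** -/
theorem lin_aux (s' s C3 : ℕ) : ∃ m C : ℕ, 0 < m ∧ LinH.{u, v} C3 s' s m C := by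
  induction s' with
  | zero =>
    refine ⟨1, s, one_pos, ?_⟩
    intro α β _ _ A B N hN hc hne hC hs
    exfalso
    obtain ⟨a, ha⟩ := hne
    have h1 := hs ∅ (Finset.empty_subset _) rfl
    simp only [Finset.empty_subset, Finset.filter_true] at h1
    have h2 : 1 ≤ B.card := by
      rw [← hc a ha]
      exact Finset.card_le_card (hN a ha)
    nlinarith
  | succ s' ih =>
    obtain ⟨p, c, hp, h⟩ := ih
    exact ⟨2 * p + 1, _, by omega, lin_step h hp⟩

/-- **Lemma L.** -/
theorem lin (s' s C3 : ℕ) : ∃ m C : ℕ, 0 < m ∧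
    ∀ (α : Type u) (β : Type v) [DecidableEq α] [DecidableEq β] (A : Finset α) (B : Finset β)
      (N : α → Finset β), (∀ a ∈ A, N a ⊆ B) → (∀ a ∈ A, (N a).card = m) → A.Nonempty →
      C * B.card ≤ A.card →
      (∀ J ⊆ B, J.card = s' → (A.filter (fun a => J ⊆ N a)).card < s) →
      ∃ A' ⊆ A, ∃ B' ⊆ B, A'.Nonempty ∧ (∀ a ∈ A', (N a ∩ B').card = 3) ∧
        (∀ a ∈ A', ∀ a' ∈ A', a ≠ a' → (N a ∩ N a' ∩ B').card ≤ 1) ∧
        C3 * B'.card ≤ A'.card :=
  lin_aux s' s C3

end Whl.LinAux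

namespace Whl

open Finset

/-- the conclusion of Lemma L -/
def LinC {V : Type} [DecidableEq V] (N : V → Finset V) (A B : Finset V) (C₃ : ℕ) : Prop :=
  ∃ A' ⊆ A, ∃ B' ⊆ B, A'.Nonempty ∧ (∀ a ∈ A', (N a ∩ B').card = 3) ∧
    (∀ a ∈ A', ∀ a' ∈ A', a ≠ a' → (N a ∩ N a' ∩ B').card ≤ 1) ∧ C₃ * B'.card ≤ A'.card

/-- Lemma L for the parameters `s'`, `s`, `C₃`, with constants `p`, `c` -/
def LinP (s' s C₃ p c : ℕ) : Prop :=
  ∀ {V : Type} [Fintype V] [DecidableEq V] (N : V → Finset V) (A B : Finset V), A.Nonempty →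
    (∀ a ∈ A, N a ⊆ B ∧ (N a).card = p) → c * B.card ≤ A.card →
    (∀ Q ⊆ B, Q.card = s' → (A.filter (fun a => Q ⊆ N a)).card < s) → LinC N A B C₃

/-- LEMMA L. -/
theorem linearise (s C₃ : ℕ) (s' : ℕ) : ∃ p c : ℕ, 1 ≤ p ∧ LinP s' s C₃ p c := by
  obtain ⟨m, C, hm, h⟩ := LinAux.lin_aux.{0, 0} s' s C₃
  refine ⟨m, C, hm, ?_⟩
  intro V _ _ N A B hne hN hc hs
  exact h V V A B N (fun a ha => (hN a ha).1) (fun a ha => (hN a ha).2) hne hc hs

end Whl
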