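import Pool.Agent.Whl.Ind

/-!
# The sampling lemma
-/

namespace Whl

open Finset TurMod

/- MODULE sa -/
private lemma sa_quarter (d : ℕ) (hd : 2 ≤ d) : (1 / 4 : ℝ) ≤ (1 - 1 / (d : ℝ)) ^ d := by
  have hd' : (2 : ℝ) ≤ d := by exact_mod_cast hd
  have hd0 : (0 : ℝ) < d := by linarith
  have h1 : (1 : ℝ) / d ≤ 1 / 2 := one_div_le_one_div_of_le (by norm_num) hd'
  have hb : (0 : ℝ) ≤ 1 - 1 / d := by linarith
  have h2 := one_add_mul_self_le_rpow_one_add (s := -(1 / (d : ℝ))) (by linarith)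
    (p := (d : ℝ) / 2) (by linarith)
  have h3 : 1 + (d : ℝ) / 2 * -(1 / (d : ℝ)) = 1 / 2 := by field_simp; norm_num
  rw [h3] at h2
  have h4 : (1 - 1 / (d : ℝ)) ^ d = ((1 + -(1 / (d : ℝ))) ^ ((d : ℝ) / 2)) ^ 2 := by
    rw [← Real.rpow_natCast _ 2, ← Real.rpow_mul (by linarith), ← Real.rpow_natCast _ d]
    congr 1
    push_cast
    ring
  rw [h4]
  nlinarith

/-- Counting functions with prescribed zeros.
PROOF. The number of functions `f : V → Fin d` with `f b = 0` on `J`, `f b ≠ 0` on `K` is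
`∏_b |C_b|` with `|C_b| = 1, d - 1, d` for `b` in `J`, in `K`, elsewhere (`Fintype.piFinset`,
`Fintype.card_piFinset`): `d ^ (n - |J| - |K|) (d-1)^|K|`.  `(1 - 1/d)^|K| ≥ (1 - 1/d)^(k d) ≥ 4^{-k}` as
`(1 - 1/d)^d ≥ 1/4` for `d ≥ 2` (increasing in `d`; or Bernoulli: `(1-1/d)^(d/2)…`; any proof). -/
theorem count_zeros {V : Type} [Fintype V] [DecidableEq V] (d : ℕ) (hd : 2 ≤ d) [NeZero d]
    (J K : Finset V) (hJK : Disjoint J K) (k : ℕ) (hK : K.card ≤ k * d) :
    ((d : ℝ) ^ Fintype.card V) / ((d : ℝ) ^ J.card * 4 ^ k) ≤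
      ((Finset.univ.filter (fun f : V → Fin d => (∀ b ∈ J, f b = 0) ∧ ∀ b ∈ K, f b ≠ 0)).card : ℝ) := by
  have hd' : (2 : ℝ) ≤ d := by exact_mod_cast hd
  have hd0 : (0 : ℝ) < d := by linarith
  set C : V → Finset (Fin d) := fun b =>
    if b ∈ J then {0} else if b ∈ K then Finset.univ.erase 0 else Finset.univ with hC
  have hE : Finset.univ.filter (fun f : V → Fin d => (∀ b ∈ J, f b = 0) ∧ ∀ b ∈ K, f b ≠ 0)
      = Fintype.piFinset C := by
    ext f
    simp only [mem_filter, mem_univ, true_and, Fintype.mem_piFinset, hC]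
    constructor
    · rintro ⟨h1, h2⟩ b
      by_cases hb : b ∈ J
      · simp [hb, h1 b hb]
      · by_cases hb' : b ∈ K
        · simp [hb, hb', h2 b hb']
        · simp [hb, hb']
    · intro h
      refine ⟨fun b hb => ?_, fun b hb => ?_⟩
      · have := h b
        simpa [hb] using this
      · have hb' : b ∉ J := fun hb' => (Finset.disjoint_left.1 hJK hb') hb
        have := h b
        simpa [hb, hb'] using this
  rw [hE, Fintype.card_piFinset]
  push_cast
  have hw : ∀ b, ((C b).card : ℝ) = (d : ℝ) * ((if b ∈ J then 1 / (d : ℝ) else 1) *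
      (if b ∈ K then (1 - 1 / (d : ℝ)) else 1)) := by
    intro b
    simp only [hC]
    by_cases hb : b ∈ J
    · have hb' : b ∉ K := Finset.disjoint_left.1 hJK hb
      simp only [hb, hb', if_true, if_false, card_singleton, Nat.cast_one, mul_one]
      field_simp
    · by_cases hb' : b ∈ K
      · simp only [hb, hb', if_true, if_false, one_mul]
        rw [Finset.card_erase_of_mem (mem_univ _), Finset.card_univ, Fintype.card_fin,
          Nat.cast_sub (by omega)]
        push_cast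
        field_simp
      · simp [hb, hb']
  rw [Finset.prod_congr rfl (fun b _ => hw b), Finset.prod_mul_distrib, Finset.prod_mul_distrib,
    Finset.prod_const, Finset.card_univ, Finset.prod_ite_mem, Finset.prod_ite_mem]
  simp only [Finset.univ_inter, Finset.prod_const]
  have hq := sa_quarter d hd
  have h1 : (1 : ℝ) / d ≤ 1 / 2 := one_div_le_one_div_of_le (by norm_num) hd'
  have hb : (0 : ℝ) ≤ 1 - 1 / d := by linarith
  have h2 : (1 / 4 : ℝ) ^ k ≤ (1 - 1 / (d : ℝ)) ^ K.card := by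
    calc (1 / 4 : ℝ) ^ k ≤ ((1 - 1 / (d : ℝ)) ^ d) ^ k := pow_le_pow_left₀ (by norm_num) hq k
      _ = (1 - 1 / (d : ℝ)) ^ (k * d) := by rw [← pow_mul, mul_comm]
      _ ≤ (1 - 1 / (d : ℝ)) ^ K.card :=
          pow_le_pow_of_le_one hb (by have := one_div_pos.2 hd0; linarith) hK
  calc (d : ℝ) ^ Fintype.card V / ((d : ℝ) ^ J.card * 4 ^ k)
      = (d : ℝ) ^ Fintype.card V * ((1 / (d : ℝ)) ^ J.card * (1 / 4 : ℝ) ^ k) := by
        rw [one_div_pow, one_div_pow]; field_simp
    _ ≤ _ := by gcongr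
/- END sa -/

/-- the sampled set -/
def Z {V : Type} {d : ℕ} [NeZero d] [DecidableEq V] (X : Finset V) (f : V → Fin d) : Finset V :=
  X.filter (fun v => f v = 0)

/-- the event of the sampling lemma: `a` is not sampled, exactly `m` of its neighbours in `X` are
sampled, and these have no sampled earlier neighbour -/
def Ev {V : Type} {d : ℕ} [NeZero d] (G : SimpleGraph V) (X : Finset V) (ρ : V → ℕ) (m : ℕ)
    (f : V → Fin d) (a : V) : Prop :=
  f a ≠ 0 ∧ (∃ J : Finset V, J.card = m ∧ (∀ b, b ∈ J ↔ b ∈ X ∧ G.Adj a b ∧ f b = 0)) ∧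
    ∀ b ∈ X, G.Adj a b → f b = 0 → ∀ u ∈ X, G.Adj b u → ρ u < ρ b → f u ≠ 0

/- MODULE sb -/
open Classical in
/-- The probability of the event.
PROOF. `supersat r m` gives `c, N₀`; `γ = c / 4 ^ (17 + m)`, `d₀ ≥ max N₀ 2`.  `N = {b ∈ X : G.Adj a b}` has
`d ≤ |N| ≤ 16 d` elements, and at least `c |N| ^ m ≥ c d ^ m` stable `m`-subsets `J`.  For such `J` let
`K = (N ∖ J) ∪ {a} ∪ {u ∈ X : u is adjacent to some b ∈ J, ρ u < ρ b}`; it is disjoint from `J` (`J` is
stable, `a ∉ N`), and `|K| ≤ 16 d + 1 + m d ≤ (17 + m) d`.  If `f = 0` on `J` and `f ≠ 0` on `K` then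
`Ev` holds and `J` is the set of the sampled neighbours, so the sets of these `f` are disjoint for
different `J`.  `count_zeros`: each has at least `d^|V| / (d^m 4^(17+m))` elements. -/
theorem prob_ev (r m : ℕ) : ∃ (γ : ℝ) (d₀ : ℕ), 0 < γ ∧ ∀ d ≥ d₀, ∀ [NeZero d] {V : Type}
    [Fintype V] (G : SimpleGraph V) (X : Finset V) (ρ : V → ℕ),
    NoK G r X → (∀ v ∈ X, (X.filter (fun u => G.Adj v u ∧ ρ u < ρ v)).card ≤ d) →
    ∀ a ∈ X, d ≤ dg G X a → dg G X a ≤ 16 * d →
    γ * (d : ℝ) ^ Fintype.card V ≤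
      ((Finset.univ.filter (fun f : V → Fin d => Ev G X ρ m f a)).card : ℝ) := by
  obtain ⟨c, N₀, hc, hS⟩ := supersat r m
  refine ⟨c / 4 ^ (17 + m), max N₀ 2, by positivity, ?_⟩
  intro d hd _ V _ G X ρ hK hback a ha hlo hhi
  have hd2 : 2 ≤ d := le_trans (le_max_right _ _) hd
  have hdN : N₀ ≤ d := le_trans (le_max_left _ _) hd
  have hd0 : (0 : ℝ) < d := by exact_mod_cast (by omega : 0 < d)
  set N := X.filter (fun w => G.Adj a w) with hN
  have hNc : N.card = dg G X a := by rw [hN, dg]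
  have hNX : N ⊆ X := filter_subset _ _
  have hS' := hS G N (fun K hK' hc' => hK K (hK'.trans hNX) hc') (by omega)
  set 𝒥 := (N.powersetCard m).filter (fun J => Stab G J) with h𝒥
  let Kf : Finset V → Finset V := fun J =>
    ((N \ J) ∪ {a}) ∪ J.biUnion (fun b => X.filter (fun u => G.Adj b u ∧ ρ u < ρ b))
  let F : Finset V → Finset (V → Fin d) := fun J =>
    Finset.univ.filter (fun f : V → Fin d => (∀ b ∈ J, f b = 0) ∧ ∀ b ∈ Kf J, f b ≠ 0)
  have hJ : ∀ J ∈ 𝒥, J ⊆ N ∧ J.card = m ∧ Stab G J := by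
    intro J hJ
    rw [h𝒥, mem_filter, mem_powersetCard] at hJ
    exact ⟨hJ.1.1, hJ.1.2, hJ.2⟩
  have haN : a ∉ N := by
    intro h
    rw [hN, mem_filter] at h
    exact G.loopless.irrefl a h.2
  have hdisj : ∀ J ∈ 𝒥, Disjoint J (Kf J) := by
    intro J hJ'
    obtain ⟨h1, h2, h3⟩ := hJ J hJ'
    rw [Finset.disjoint_left]
    intro b hb hb'
    simp only [Kf, mem_union, mem_sdiff, mem_singleton, mem_biUnion, mem_filter] at hb'
    rcases hb' with (⟨_, h⟩ | h) | ⟨b', hb1, _, hb2, _⟩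
    · exact h hb
    · exact haN (h ▸ h1 hb)
    · exact h3 b' hb1 b hb hb2
  have hcard : ∀ J ∈ 𝒥, (Kf J).card ≤ (17 + m) * d := by
    intro J hJ'
    obtain ⟨h1, h2, h3⟩ := hJ J hJ'
    have e1 : (Kf J).card ≤ ((N \ J).card + 1) + m * d := by
      refine (card_union_le _ _).trans (add_le_add ((card_union_le _ _).trans ?_) ?_)
      · simp
      · rw [← h2]
        exact card_biUnion_le_card_mul _ _ _ (fun b hb => hback b (hNX (h1 hb)))
    have e2 : (N \ J).card ≤ N.card := card_le_card sdiff_subset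
    have : (17 + m) * d = 16 * d + d + m * d := by ring
    omega
  have hF : ∀ J ∈ 𝒥, (d : ℝ) ^ Fintype.card V / ((d : ℝ) ^ m * 4 ^ (17 + m)) ≤ ((F J).card : ℝ) := by
    intro J hJ'
    have := count_zeros d hd2 J (Kf J) (hdisj J hJ') (17 + m) (hcard J hJ')
    rw [(hJ J hJ').2.1] at this
    exact this
  have hJf : ∀ J ∈ 𝒥, ∀ f ∈ F J, ∀ b, b ∈ J ↔ b ∈ X ∧ G.Adj a b ∧ f b = 0 := by
    intro J hJ' f hf b
    simp only [F, mem_filter, mem_univ, true_and] at hf
    constructor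
    · intro hb
      have := (hJ J hJ').1 hb
      rw [hN, mem_filter] at this
      exact ⟨this.1, this.2, hf.1 b hb⟩
    · rintro ⟨h1, h2, h3⟩
      by_contra hb
      refine hf.2 b ?_ h3
      simp only [Kf, mem_union, mem_sdiff, mem_singleton]
      exact Or.inl (Or.inl ⟨by rw [hN, mem_filter]; exact ⟨h1, h2⟩, hb⟩)
  have hdF : ∀ J ∈ 𝒥, ∀ J' ∈ 𝒥, J ≠ J' → Disjoint (F J) (F J') := by
    intro J h1 J' h2 hne
    rw [Finset.disjoint_left]
    intro f hf hf'
    apply hne
    ext b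
    rw [hJf J h1 f hf b, hJf J' h2 f hf' b]
  have hsub : 𝒥.biUnion F ⊆ Finset.univ.filter (fun f : V → Fin d => Ev G X ρ m f a) := by
    intro f hf
    rw [mem_biUnion] at hf
    obtain ⟨J, hJ', hf⟩ := hf
    have hf0 := hf
    simp only [F, mem_filter, mem_univ, true_and] at hf
    rw [mem_filter]
    refine ⟨mem_univ _, hf.2 a ?_, ⟨J, (hJ J hJ').2.1, hJf J hJ' f hf0⟩, ?_⟩
    · simp [Kf]
    · intro b hb hab hfb u hu hbu hρ
      apply hf.2 u
      simp only [Kf, mem_union, mem_biUnion, mem_filter]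
      exact Or.inr ⟨b, (hJf J hJ' f hf0 b).2 ⟨hb, hab, hfb⟩, hu, hbu, hρ⟩
  have hfin : ((𝒥.card : ℝ)) * ((d : ℝ) ^ Fintype.card V / ((d : ℝ) ^ m * 4 ^ (17 + m))) ≤
      ((Finset.univ.filter (fun f : V → Fin d => Ev G X ρ m f a)).card : ℝ) := by
    calc ((𝒥.card : ℝ)) * ((d : ℝ) ^ Fintype.card V / ((d : ℝ) ^ m * 4 ^ (17 + m)))
        = ∑ J ∈ 𝒥, ((d : ℝ) ^ Fintype.card V / ((d : ℝ) ^ m * 4 ^ (17 + m))) := by
          rw [sum_const, nsmul_eq_mul]
      _ ≤ ∑ J ∈ 𝒥, ((F J).card : ℝ) := sum_le_sum hF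
      _ = ((𝒥.biUnion F).card : ℝ) := by
          rw [card_biUnion hdF]; push_cast; rfl
      _ ≤ _ := by exact_mod_cast card_le_card hsub
  refine le_trans ?_ hfin
  have h1 : c * (d : ℝ) ^ m ≤ (𝒥.card : ℝ) := by
    refine le_trans ?_ hS'
    have : (d : ℝ) ≤ (N.card : ℝ) := by exact_mod_cast (by omega : d ≤ N.card)
    gcongr
  calc c / 4 ^ (17 + m) * (d : ℝ) ^ Fintype.card V
      = (c * (d : ℝ) ^ m) * ((d : ℝ) ^ Fintype.card V / ((d : ℝ) ^ m * 4 ^ (17 + m))) := by
        field_simp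
    _ ≤ _ := by gcongr
/- END sb -/

/- MODULE sc -/
open Classical in
/-- Few vertices of large degree.
PROOF. `vol G X ≤ 2 d |X|` (every edge inside `X` is counted once at its later end: `ρ` is injective on
`X`), so at most `|X| / 8` vertices have degree `> 16 d`. -/
theorem low_degree {V : Type} (G : SimpleGraph V) (X : Finset V) (ρ : V → ℕ) (d : ℕ)
    (hρ : Set.InjOn ρ X)
    (hback : ∀ v ∈ X, (X.filter (fun u => G.Adj v u ∧ ρ u < ρ v)).card ≤ d) :
    X.card ≤ 2 * (X.filter (fun a => dg G X a ≤ 16 * d)).card := by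
  have hvol : ∑ v ∈ X, dg G X v ≤ 2 * (d * X.card) := by
    have h1 : ∀ v ∈ X, dg G X v = (X.filter (fun u => G.Adj v u ∧ ρ u < ρ v)).card +
        (X.filter (fun u => G.Adj v u ∧ ρ v < ρ u)).card := by
      intro v hv
      rw [dg, ← card_union_of_disjoint]
      · congr 1
        ext u
        simp only [mem_filter, mem_union]
        constructor
        · rintro ⟨h1, h2⟩
          have hne : ρ u ≠ ρ v := by
            intro h
            have := hρ (mem_coe.2 h1) (mem_coe.2 hv) h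
            exact G.ne_of_adj h2 this.symm
          rcases lt_or_gt_of_ne hne with h | h
          · exact Or.inl ⟨h1, h2, h⟩
          · exact Or.inr ⟨h1, h2, h⟩
        · rintro (⟨h1, h2, _⟩ | ⟨h1, h2, _⟩) <;> exact ⟨h1, h2⟩
      · rw [Finset.disjoint_left]
        intro u hu hu'
        rw [mem_filter] at hu hu'
        omega
    have h2 : ∑ v ∈ X, (X.filter (fun u => G.Adj v u ∧ ρ v < ρ u)).card =
        ∑ v ∈ X, (X.filter (fun u => G.Adj v u ∧ ρ u < ρ v)).card := by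
      have := Finset.sum_card_bipartiteAbove_eq_sum_card_bipartiteBelow (s := X) (t := X)
        (fun v u => G.Adj v u ∧ ρ v < ρ u)
      simp only [bipartiteAbove, bipartiteBelow] at this
      rw [this]
      apply sum_congr rfl
      intro v _
      congr 1
      ext u
      simp only [mem_filter]
      constructor
      · rintro ⟨h1, h2, h3⟩; exact ⟨h1, h2.symm, h3⟩
      · rintro ⟨h1, h2, h3⟩; exact ⟨h1, h2.symm, h3⟩
    rw [sum_congr rfl h1, sum_add_distrib, h2]
    have h3 : ∑ v ∈ X, (X.filter (fun u => G.Adj v u ∧ ρ u < ρ v)).card ≤ d * X.card := by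
      calc _ ≤ ∑ v ∈ X, d := sum_le_sum hback
        _ = d * X.card := by rw [sum_const, smul_eq_mul, mul_comm]
    omega
  set S := X.filter (fun a => dg G X a ≤ 16 * d) with hS
  set B := X.filter (fun a => ¬ dg G X a ≤ 16 * d) with hB
  have hSB : S.card + B.card = X.card := by
    rw [hS, hB, card_filter_add_card_filter_not]
  have hBv : (16 * d + 1) * B.card ≤ ∑ v ∈ X, dg G X v := by
    calc (16 * d + 1) * B.card = ∑ v ∈ B, (16 * d + 1) := by
          rw [sum_const, smul_eq_mul, mul_comm]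
      _ ≤ ∑ v ∈ B, dg G X v := sum_le_sum (fun v hv => by
          rw [hB, mem_filter] at hv; omega)
      _ ≤ ∑ v ∈ X, dg G X v := sum_le_sum_of_subset (filter_subset _ _)
  by_contra hlt
  have hBS : S.card + 1 ≤ B.card := by omega
  have e1 : (16 * d + 1) * B.card ≤ 2 * (d * (S.card + B.card)) := by rw [hSB]; omega
  nlinarith [Nat.zero_le (d * B.card), Nat.mul_le_mul_left d hBS]
/- END sc -/

/- MODULE sd -/
private lemma sd_count {V : Type} [Fintype V] [DecidableEq V] (d : ℕ) [NeZero d] (v : V) :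
    d * (Finset.univ.filter (fun f : V → Fin d => f v = 0)).card = d ^ Fintype.card V := by
  have hE : Finset.univ.filter (fun f : V → Fin d => f v = 0) =
      Fintype.piFinset (fun b : V => if b = v then ({0} : Finset (Fin d)) else Finset.univ) := by
    ext f
    simp only [mem_filter, mem_univ, true_and, Fintype.mem_piFinset]
    constructor
    · intro h b
      by_cases hb : b = v
      · subst hb; simp [h]
      · simp [hb]
    · intro h
      have := h v
      simpa using this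
  rw [hE, Fintype.card_piFinset, ← Finset.mul_prod_erase univ _ (mem_univ v)]
  have h1 : ∏ x ∈ univ.erase v, (if x = v then ({0} : Finset (Fin d)) else Finset.univ).card =
      ∏ x ∈ univ.erase v, d := by
    apply Finset.prod_congr rfl
    intro x hx
    rw [if_neg (Finset.ne_of_mem_erase hx), card_univ, Fintype.card_fin]
  rw [h1, prod_const, card_erase_of_mem (mem_univ _), card_univ]
  have : 0 < Fintype.card V := Fintype.card_pos_iff.2 ⟨v⟩
  simp only [if_true, card_singleton, one_mul]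
  rw [← pow_succ']
  congr 1
  omega

open Classical in
/-- Averaging: some `f` has many good `a` and few sampled vertices.
PROOF. `γ, d₀` from `prob_ev`.  Let `A₀ = {a ∈ X : dg ≤ 16 d}`, `|A₀| ≥ |X| / 2` (`low_degree`).
`∑_f |{a ∈ A₀ : Ev f a}| ≥ γ |A₀| d^|V|`, `∑_f |Z X f| = |X| d^(|V|-1)` (for each `v` the number of `f` with
`f v = 0` is `d^(|V|-1)`).  So `∑_f (|{a ∈ A₀ : Ev}| - (γ d / 4) |Z X f|) ≥ (γ/2 - γ/4) |X| d^|V| > 0`. -/
theorem good_sample (r m : ℕ) : ∃ (γ : ℝ) (d₀ : ℕ), 0 < γ ∧ ∀ d ≥ d₀, ∀ [NeZero d] {V : Type}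
    [Fintype V] (G : SimpleGraph V) (X : Finset V) (ρ : V → ℕ), X.Nonempty → Set.InjOn ρ X →
    NoK G r X → (∀ v ∈ X, (X.filter (fun u => G.Adj v u ∧ ρ u < ρ v)).card ≤ d) →
    (∀ a ∈ X, d ≤ dg G X a) →
    ∃ f : V → Fin d, γ * d * ((Z X f).card : ℝ) <
      ((X.filter (fun a => dg G X a ≤ 16 * d ∧ Ev G X ρ m f a)).card : ℝ) := by
  obtain ⟨γ, d₀, hγ, hP⟩ := prob_ev r m
  refine ⟨γ / 4, d₀, by positivity, ?_⟩
  intro d hd _ V _ G X ρ hX hρ hK hback hdeg
  have hd0 : (0 : ℝ) < d := by exact_mod_cast (NeZero.pos d)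
  by_contra hcon
  push Not at hcon
  have hlow := low_degree G X ρ d hρ hback
  set A₀ := X.filter (fun a => dg G X a ≤ 16 * d) with hA₀
  -- the left sum
  have h1 : ∑ f : V → Fin d, ((X.filter (fun a => dg G X a ≤ 16 * d ∧ Ev G X ρ m f a)).card : ℝ) ≥
      γ * A₀.card * (d : ℝ) ^ Fintype.card V := by
    have e1 : ∑ f : V → Fin d, (X.filter (fun a => dg G X a ≤ 16 * d ∧ Ev G X ρ m f a)).card =
        ∑ a ∈ A₀, (Finset.univ.filter (fun f : V → Fin d => Ev G X ρ m f a)).card := by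
      have := Finset.sum_card_bipartiteAbove_eq_sum_card_bipartiteBelow
        (s := (Finset.univ : Finset (V → Fin d))) (t := A₀)
        (fun f a => Ev G X ρ m f a)
      simp only [bipartiteAbove, bipartiteBelow] at this
      rw [← this]
      apply sum_congr rfl
      intro f _
      rw [hA₀, filter_filter]
    have e2 : ∑ f : V → Fin d, ((X.filter (fun a => dg G X a ≤ 16 * d ∧ Ev G X ρ m f a)).card : ℝ) =
        ∑ a ∈ A₀, ((Finset.univ.filter (fun f : V → Fin d => Ev G X ρ m f a)).card : ℝ) := by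
      exact_mod_cast e1
    rw [e2]
    calc γ * A₀.card * (d : ℝ) ^ Fintype.card V = ∑ a ∈ A₀, γ * (d : ℝ) ^ Fintype.card V := by
          rw [sum_const, nsmul_eq_mul]; ring
      _ ≤ _ := by
          apply sum_le_sum
          intro a ha
          rw [hA₀, mem_filter] at ha
          exact hP d hd G X ρ hK hback a ha.1 (hdeg a ha.1) ha.2
  -- the right sum
  have h2 : ∑ f : V → Fin d, (γ / 4 * d * ((Z X f).card : ℝ)) =
      γ / 4 * X.card * (d : ℝ) ^ Fintype.card V := by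
    rw [← mul_sum]
    have e1 : ∑ f : V → Fin d, (Z X f).card =
        ∑ v ∈ X, (Finset.univ.filter (fun f : V → Fin d => f v = 0)).card := by
      have := Finset.sum_card_bipartiteAbove_eq_sum_card_bipartiteBelow
        (s := (Finset.univ : Finset (V → Fin d))) (t := X)
        (fun f v => f v = 0)
      simp only [bipartiteAbove, bipartiteBelow] at this
      rw [← this]
      rfl
    have e2 : d * ∑ f : V → Fin d, (Z X f).card = X.card * d ^ Fintype.card V := by
      rw [e1, mul_sum]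
      have : ∀ v ∈ X, d * (Finset.univ.filter (fun f : V → Fin d => f v = 0)).card =
          d ^ Fintype.card V := fun v _ => sd_count d v
      rw [sum_congr rfl this, sum_const, smul_eq_mul]
    have e3 : (d : ℝ) * ∑ f : V → Fin d, ((Z X f).card : ℝ) =
        X.card * (d : ℝ) ^ Fintype.card V := by exact_mod_cast e2
    calc γ / 4 * d * ∑ f : V → Fin d, ((Z X f).card : ℝ)
        = γ / 4 * (d * ∑ f : V → Fin d, ((Z X f).card : ℝ)) := by ring
      _ = _ := by rw [e3]; ring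
  have h3 : ∑ f : V → Fin d, ((X.filter (fun a => dg G X a ≤ 16 * d ∧ Ev G X ρ m f a)).card : ℝ) ≤
      ∑ f : V → Fin d, (γ / 4 * d * ((Z X f).card : ℝ)) := sum_le_sum (fun f _ => hcon f)
  rw [h2] at h3
  have h4 : γ * A₀.card * (d : ℝ) ^ Fintype.card V ≤ γ / 4 * X.card * (d : ℝ) ^ Fintype.card V :=
    h1.le.trans h3
  have hp : (0 : ℝ) < (d : ℝ) ^ Fintype.card V := by positivity
  have h5 : γ * A₀.card ≤ γ / 4 * X.card := le_of_mul_le_mul_right h4 hp
  have h6 : (X.card : ℝ) ≤ 2 * A₀.card := by exact_mod_cast hlow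
  have h7 : (0 : ℝ) < X.card := by exact_mod_cast hX.card_pos
  nlinarith
/- END sd -/

/- MODULE se -/
/-- LEMMA S.
PROOF. `good_sample r m` gives `γ, d₀`; choose `h` with `γ h ≥ 32 C` and `d ≥ d₀`, `16 d ≥ D₀` with `D₀` from
`big_stable r h`.  With the `f` of `good_sample`: `B'` = `{v ∈ X : f v = 0, no u ∈ X with G.Adj v u, ρ u < ρ v,
f u = 0}`, stable (the later of two adjacent vertices has the earlier one as earlier neighbour; `ρ` is
injective on `X`), `|B'| ≤ |Z X f|`.  `U = {a ∈ X : dg ≤ 16 d, Ev}` is not empty, degrees inside `U` are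
`≤ 16 d`; `big_stable` with `D = 16 d` gives a stable `A' ⊆ U` with `h |U| ≤ 32 d |A'|`.  So
`|A'| ≥ h γ d |Z| / (32 d) ≥ C |B'|`, and `A'` is not empty (`h ≥ 1`, `U` not empty).  For `a ∈ A'` the
neighbours in `B'` are the `J` of `Ev`, so `dg G B' a = m`.  `A'`, `B'` disjoint: `f a ≠ 0` on `A'`. -/
theorem sampling (r m C : ℕ) : ∃ d₀ : ℕ, ∀ d ≥ d₀, ∀ {V : Type} [Fintype V] (G : SimpleGraph V)
    (X : Finset V) (ρ : V → ℕ), X.Nonempty → Set.InjOn ρ X → NoK G r X →
    (∀ v ∈ X, dg G (X.filter (fun u => ρ u < ρ v)) v ≤ d) → (∀ a ∈ X, d ≤ dg G X a) →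
    ∃ A' ⊆ X, ∃ B' ⊆ X, A'.Nonempty ∧ Disjoint A' B' ∧ Stab G A' ∧ Stab G B' ∧
      (∀ a ∈ A', dg G B' a = m) ∧ C * B'.card ≤ A'.card := by
  classical
  obtain ⟨γ, d₀, hγ, hG⟩ := good_sample r m
  obtain ⟨h, hh⟩ := exists_nat_ge (32 * C / γ + 1)
  obtain ⟨D₀, hD⟩ := big_stable r h
  have hhγ : 32 * (C : ℝ) ≤ γ * h := by
    have h1 : 32 * (C : ℝ) / γ ≤ h := by linarith
    rw [div_le_iff₀ hγ] at h1
    linarith
  have hh1 : 1 ≤ h := by
    have : (1 : ℝ) ≤ h := by
      have : 0 ≤ 32 * (C : ℝ) / γ := by positivity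
      linarith
    exact_mod_cast this
  refine ⟨max d₀ (max D₀ 1), ?_⟩
  intro d hd V _ G X ρ hX hρ hK hback hdeg
  have hd1 : d₀ ≤ d := le_trans (le_max_left _ _) hd
  have hd2 : D₀ ≤ d := le_trans (le_trans (le_max_left _ _) (le_max_right _ _)) hd
  have hd3 : 1 ≤ d := le_trans (le_trans (le_max_right _ _) (le_max_right _ _)) hd
  have : NeZero d := ⟨by omega⟩
  have hd0 : (0 : ℝ) < d := by exact_mod_cast (by omega : 0 < d)
  have hback' : ∀ v ∈ X, (X.filter (fun u => G.Adj v u ∧ ρ u < ρ v)).card ≤ d := by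
    intro v hv
    have := hback v hv
    rw [dg, filter_filter] at this
    refine le_trans (card_le_card ?_) this
    intro u hu
    rw [mem_filter] at hu ⊢
    exact ⟨hu.1, hu.2.2, hu.2.1⟩
  obtain ⟨f, hf⟩ := hG d hd1 G X ρ hX hρ hK hback' hdeg
  set U := X.filter (fun a => dg G X a ≤ 16 * d ∧ Ev G X ρ m f a) with hU
  have hUX : U ⊆ X := filter_subset _ _
  obtain ⟨I, hIU, hI, hIc⟩ := hD (16 * d) (by omega) G U
    (fun K hK' hc' => hK K (hK'.trans hUX) hc') (by
      intro v hv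
      rw [hU, mem_filter] at hv
      refine le_trans (card_le_card ?_) hv.2.1
      exact filter_subset_filter _ hUX)
  set B' := X.filter (fun v => f v = 0 ∧ ∀ u ∈ X, G.Adj v u → ρ u < ρ v → f u ≠ 0) with hB'
  have hBZ : B'.card ≤ (Z X f).card := by
    apply card_le_card
    intro v hv
    rw [hB', mem_filter] at hv
    rw [Z, mem_filter]
    exact ⟨hv.1, hv.2.1⟩
  have hUpos : (0 : ℝ) < U.card := lt_of_le_of_lt (by positivity) hf
  have hIc' : (h : ℝ) * U.card ≤ 2 * (16 * d) * I.card := by exact_mod_cast hIc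
  have hIpos : (0 : ℝ) < I.card := by
    have h1 : (1 : ℝ) ≤ h := by exact_mod_cast hh1
    have h2 : 0 < (h : ℝ) * U.card := by positivity
    by_contra hneg
    have h3 : (I.card : ℝ) = 0 := le_antisymm (not_lt.1 hneg) (by positivity)
    rw [h3] at hIc'
    linarith
  refine ⟨I, hIU.trans hUX, B', filter_subset _ _, ?_, ?_, hI, ?_, ?_, ?_⟩
  · rw [← card_pos]; exact_mod_cast hIpos
  · rw [Finset.disjoint_left]
    intro a ha hb
    have h1 := hIU ha
    rw [hU, mem_filter] at h1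
    rw [hB', mem_filter] at hb
    exact h1.2.2.1 hb.2.1
  · intro x hx y hy hxy
    rw [hB', mem_filter] at hx hy
    have hne : ρ x ≠ ρ y := by
      intro he
      exact G.ne_of_adj hxy (hρ (mem_coe.2 hx.1) (mem_coe.2 hy.1) he)
    rcases lt_or_gt_of_ne hne with hlt | hlt
    · exact hy.2.2 x hx.1 hxy.symm hlt hx.2.1
    · exact hx.2.2 y hy.1 hxy hlt hy.2.1
  · intro a ha
    have h1 := hIU ha
    rw [hU, mem_filter] at h1
    obtain ⟨haX, _, hf0, ⟨J, hJm, hJ⟩, hE⟩ := h1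
    rw [← hJm, dg]
    congr 1
    ext b
    rw [mem_filter, hJ b, hB', mem_filter]
    constructor
    · rintro ⟨⟨h1, h2, _⟩, h3⟩
      exact ⟨h1, h3, h2⟩
    · rintro ⟨h1, h2, h3⟩
      exact ⟨⟨h1, h3, hE b h1 h2 h3⟩, h2⟩
  · have hZ : (B'.card : ℝ) ≤ (Z X f).card := by exact_mod_cast hBZ
    have e1 : (C : ℝ) * B'.card ≤ I.card := by
      have h2 : 32 * (C : ℝ) * (d * B'.card) ≤ γ * h * (d * B'.card) := by gcongr
      have h3 : γ * d * (B'.card : ℝ) ≤ U.card := le_trans (by gcongr) hf.le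
      have h4 : (h : ℝ) * (γ * d * (B'.card : ℝ)) ≤ h * U.card := by gcongr
      have h5 : 32 * (d : ℝ) * (C * B'.card) ≤ 32 * d * I.card := by linarith
      exact le_of_mul_le_mul_left h5 (by positivity)
    exact_mod_cast e1
/- END se -/

end Whl
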