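import Pool.Agent.Whl.Bad
import Pool.Agent.Whl.Smp
import Pool.Agent.Whl.Lin
import Pool.Agent.Whl.Core

/-!
# Wheel-free graphs are degree-bounded
-/

namespace Whl

open Finset TurMod

/- MODULE za -/
theorem wheel_of_sample {V : Type} [Fintype V] [DecidableEq V] (s p c : ℕ) (hp : 1 ≤ p)
    (hP : LinP s s 121 p c) (G : SimpleGraph V)
    (hK : ∀ P Q : Finset V, Disjoint P Q → P.card = s → Q.card = s → ∃ a ∈ P, ∃ b ∈ Q, ¬ G.Adj a b)
    (A' B' : Finset V) (hne : A'.Nonempty) (hd : Disjoint A' B') (hA : Stab G A')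
    (hB : Stab G B') (hdeg : ∀ a ∈ A', dg G B' a = p) (hc : c * B'.card ≤ A'.card) :
    HasWheel G := by
  classical
  set N : V → Finset V := fun a => B'.filter (fun w => G.Adj a w) with hN
  have hNdg : ∀ a, (N a).card = dg G B' a := by
    intro a
    unfold dg
    rw [hN]
  obtain ⟨A₁, hA₁, B₁, hB₁, hne₁, h3, hlin, hcard⟩ := hP N A' B' hne
    (fun a ha => ⟨Finset.filter_subset _ _, (hNdg a).trans (hdeg a ha)⟩) hc (by
      intro Q hQ hQc
      by_contra hcon
      push Not at hcon
      obtain ⟨P, hPs, hPc⟩ := Finset.exists_subset_card_eq hcon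
      obtain ⟨a, ha, b, hb, hab⟩ := hK P Q (by
        rw [Finset.disjoint_left]
        intro v hv hvQ
        exact Finset.disjoint_left.1 hd (Finset.mem_filter.1 (hPs hv)).1 (hQ hvQ)) hPc hQc
      have h1 := (Finset.mem_filter.1 (hPs ha)).2 hb
      exact hab (Finset.mem_filter.1 h1).2)
  have hNB : ∀ a, N a ∩ B₁ = B₁.filter (fun w => G.Adj a w) := by
    intro a
    ext w
    rw [Finset.mem_inter, hN, Finset.mem_filter, Finset.mem_filter]
    constructor
    · rintro ⟨⟨_, h⟩, h'⟩
      exact ⟨h', h⟩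
    · rintro ⟨h, h'⟩
      exact ⟨⟨hB₁ h, h'⟩, h⟩
  have hT : Trip G A₁ B₁ := by
    refine ⟨?_, ?_, ?_, ?_, ?_⟩
    · exact Finset.disjoint_of_subset_left hA₁ (Finset.disjoint_of_subset_right hB₁ hd)
    · intro x hx y hy
      exact hA x (hA₁ hx) y (hA₁ hy)
    · intro x hx y hy
      exact hB x (hB₁ hx) y (hB₁ hy)
    · intro a ha
      have := h3 a ha
      rw [hNB a] at this
      unfold dg
      exact this
    · intro a ha a' ha' hne'
      have h := hlin a ha a' ha' hne'
      unfold codeg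
      refine le_trans (Finset.card_le_card ?_) h
      intro w hw
      rw [Finset.mem_filter] at hw
      rw [Finset.mem_inter, Finset.mem_inter]
      exact ⟨⟨Finset.mem_filter.2 ⟨hB₁ hw.1, hw.2.1⟩, Finset.mem_filter.2 ⟨hB₁ hw.1, hw.2.2⟩⟩, hw.1⟩
  by_contra hw
  have h120 := thmA G A₁ B₁ hT hw
  obtain ⟨a, ha⟩ := hne₁
  have h4 := h3 a ha
  have h5 : (N a ∩ B₁).card ≤ B₁.card := Finset.card_le_card Finset.inter_subset_right
  omega
/- END za -/

/- MODULE zb -/
theorem degree_bounded (s : ℕ) : ∃ d₀ : ℕ, ∀ {V : Type} [Fintype V] (G : SimpleGraph V),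
    ¬ HasWheel G →
    (∀ P Q : Finset V, Disjoint P Q → P.card = s → Q.card = s → ∃ a ∈ P, ∃ b ∈ Q, ¬ G.Adj a b) →
    ∀ X : Finset V, X.Nonempty → ∃ v ∈ X, dg G X v < d₀ := by
  classical
  obtain ⟨p, c, hp, hP⟩ := linearise s 121 s
  obtain ⟨d₀, hd₀⟩ := sampling (2 * s) p c
  refine ⟨d₀, ?_⟩
  intro V _ G hw hK X₀ hX₀
  by_contra hcon
  push Not at hcon
  obtain ⟨d, hd, X, hX, hdeg, hdegen⟩ := exists_core G d₀ X₀ hX₀ hcon
  obtain ⟨ρ, hρ, hback⟩ := exists_rank G d X (fun U _ hU => hdegen U hU)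
  have hNoK : NoK G (2 * s) X := by
    intro K _ hKc
    obtain ⟨P, hPK, hPc⟩ := Finset.exists_subset_card_eq (show s ≤ K.card by omega)
    have hQc : (K \ P).card = s := by
      rw [Finset.card_sdiff_of_subset hPK]
      omega
    obtain ⟨a, ha, b, hb, hab⟩ := hK P (K \ P) Finset.disjoint_sdiff hPc hQc
    refine ⟨a, hPK ha, b, (Finset.mem_sdiff.1 hb).1, ?_, hab⟩
    rintro rfl
    exact (Finset.mem_sdiff.1 hb).2 ha
  obtain ⟨A', hA'X, B', hB'X, hne, hdisj, hA, hB, hdegA, hc⟩ :=
    hd₀ d hd G X ρ hX hρ hNoK hback hdeg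
  exact hw (wheel_of_sample s p c hp hP G hK A' B' hne hdisj hA hB hdegA hc)
/- END zb -/

/- MODULE zc -/
private lemma zc_stab {V : Type} [DecidableEq V] (w s : ℕ) (hs : 1 ≤ s) (G : SimpleGraph V)
    (hw : G.CliqueFree (w + 1)) (P : Finset V) (hP : P.card = s ^ w) :
    ∃ I ⊆ P, I.card = s ∧ Stab G I := by
  have hno : NoK G (w + 1) P := by
    intro K hK hKc
    by_contra hall
    push Not at hall
    apply hw K
    refine ⟨?_, hKc⟩
    intro x hx y hy hxy
    exact hall x (Finset.mem_coe.1 hx) y (Finset.mem_coe.1 hy) hxy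
  have hex : ∃ I ⊆ P, Stab G I ∧ s ≤ I.card := by
    by_contra hall
    push Not at hall
    have := ramsey_poly G w s hs P hno hall
    omega
  obtain ⟨I, hIP, hIs, hIc⟩ := hex
  obtain ⟨J, hJI, hJc⟩ := Finset.exists_subset_card_eq hIc
  exact ⟨J, hJI.trans hIP, hJc, fun x hx y hy => hIs x (hJI hx) y (hJI hy)⟩

/-- No clique with `w + 1` elements and no induced `K_{s,s}`: no `K_{S,S}` subgraph, `S = s ^ w` (`s ≥ 1`;
for `s = 0` the hypothesis `he` is false: the empty embedding).
PROOF. `P`, `Q` with `S` elements, completely joined.  `ramsey_poly` (`r = w`, `ℓ = s`) gives stable sets with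
at least `s` elements in `P` and in `Q`; take `s` elements of each: an induced `K_{s,s}`
(`completeBipartiteGraph (Fin s) (Fin s)`: `Sum.inl i` and `Sum.inr j` adjacent). -/
theorem no_biclique (w s : ℕ) {V : Type} (G : SimpleGraph V) (hw : G.CliqueFree (w + 1))
    (he : IsEmpty (completeBipartiteGraph (Fin s) (Fin s) ↪g G)) (P Q : Finset V)
    (hPQ : Disjoint P Q) (hP : P.card = s ^ w) (hQ : Q.card = s ^ w) :
    ∃ a ∈ P, ∃ b ∈ Q, ¬ G.Adj a b := by
  classical
  by_contra hall
  push Not at hall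
  rcases Nat.eq_zero_or_pos s with hs | hs
  · subst hs
    apply he.false
    exact
      { toFun := fun v => by
          rcases v with v | v
          · exact v.elim0
          · exact v.elim0
        inj' := by
          intro v
          rcases v with v | v
          · exact v.elim0
          · exact v.elim0
        map_rel_iff' := by
          intro v
          rcases v with v | v
          · exact v.elim0
          · exact v.elim0 }
  obtain ⟨I, hIP, hIc, hIs⟩ := zc_stab w s hs G hw P hP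
  obtain ⟨J, hJQ, hJc, hJs⟩ := zc_stab w s hs G hw Q hQ
  set eI := (Finset.equivFinOfCardEq hIc).symm with heI
  set eJ := (Finset.equivFinOfCardEq hJc).symm with heJ
  have hadj : ∀ (i j : Fin s), G.Adj (eI i : V) (eJ j : V) := fun i j =>
    hall _ (hIP (eI i).2) _ (hJQ (eJ j).2)
  have hne : ∀ (i j : Fin s), (eI i : V) ≠ (eJ j : V) := fun i j => (hadj i j).ne
  apply he.false
  refine
    { toFun := Sum.elim (fun i => (eI i : V)) (fun j => (eJ j : V))
      inj' := ?_
      map_rel_iff' := ?_ }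
  · rintro (i | i) (j | j) hij
    · simp only [Sum.elim_inl] at hij
      rw [eI.injective (Subtype.ext hij)]
    · exact absurd hij (hne i j)
    · exact absurd hij.symm (hne j i)
    · simp only [Sum.elim_inr] at hij
      rw [eJ.injective (Subtype.ext hij)]
  · rintro (i | i) (j | j)
    · simp only [completeBipartiteGraph_adj, Function.Embedding.coeFn_mk, Sum.elim_inl, Sum.isLeft_inl,
        Sum.isRight_inl, Bool.false_eq_true, and_false, false_and, or_self, iff_false]
      exact hIs _ (eI i).2 _ (eI j).2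
    · simp only [completeBipartiteGraph_adj, Function.Embedding.coeFn_mk, Sum.elim_inl, Sum.elim_inr,
        Sum.isLeft_inl, Sum.isRight_inr, true_and, true_or, iff_true]
      exact hadj i j
    · simp only [completeBipartiteGraph_adj, Function.Embedding.coeFn_mk, Sum.elim_inl, Sum.elim_inr,
        Sum.isLeft_inl, Sum.isRight_inr, true_and, or_true, iff_true]
      exact (hadj j i).symm
    · simp only [completeBipartiteGraph_adj, Function.Embedding.coeFn_mk, Sum.elim_inr, Sum.isLeft_inr,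
        Sum.isRight_inr, Bool.false_eq_true, and_false, false_and, or_self, iff_false]
      exact hJs _ (eJ i).2 _ (eJ j).2
/- END zc -/

/-- THEOREM 2. -/
theorem chi_bounded (w s : ℕ) : ∃ c : ℕ, ∀ {V : Type} [Finite V] (G : SimpleGraph V),
    ¬ HasWheel G → G.CliqueFree (w + 1) →
    IsEmpty (completeBipartiteGraph (Fin s) (Fin s) ↪g G) →
    G.Colorable c ∧ (Nonempty V → ∃ v, (G.neighborSet v).ncard ≤ c) := by
  classical
  obtain ⟨d₀, hd⟩ := degree_bounded (s ^ w)
  refine ⟨d₀ + 1, ?_⟩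
  intro V _ G hG hw he
  have := Fintype.ofFinite V
  have key : ∀ U : Finset V, U.Nonempty → ∃ v ∈ U, dg G U v ≤ d₀ := by
    intro U hU
    obtain ⟨v, hv, h⟩ := hd G hG (fun P Q h1 h2 h3 => no_biclique w s G hw he P Q h1 h2 h3) U hU
    exact ⟨v, hv, h.le⟩
  refine ⟨colorable_of_degen G d₀ key, fun hne => ?_⟩
  obtain ⟨v, _, hv⟩ := key Finset.univ Finset.univ_nonempty
  refine ⟨v, ?_⟩
  have h1 : (G.neighborSet v).ncard = dg G Finset.univ v := by
    unfold dg
    rw [← Set.ncard_coe_finset]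
    congr 1
    ext w
    simp
  omega

end Whl
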