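import Pool.Agent.Whl.Defs

/-!
# Ramsey's theorem, polynomial bound and supersaturation
-/

namespace Whl

open Finset TurMod

/- MODULE ma -/
/-- Ramsey: no clique with `r + 1` elements, all stable subsets have `< ℓ` elements: `|X| < ℓ ^ r`
(`r ≥ 0`, `ℓ ≥ 1`).
PROOF. Induction on `r` (for all `X`).  `r = 0`: no clique with one element, so `X = ∅`.  Step: let `I ⊆ X` be
a maximal stable subset, `|I| ≤ ℓ - 1`; every `x ∈ X ∖ I` has a neighbour in `I`, so
`X ⊆ I ∪ ⋃_{v ∈ I} (X ∩ N(v))`; `X ∩ N(v)` has no clique with `r + 1` elements (add `v`), so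
`|X ∩ N(v)| ≤ ℓ ^ r - 1` and `|X| ≤ (ℓ - 1) * ℓ ^ r < ℓ ^ (r+1)`. -/
theorem ramsey_poly {V : Type*} [DecidableEq V] (G : SimpleGraph V) (r ℓ : ℕ) (hℓ : 1 ≤ ℓ)
    (X : Finset V) (hX : NoK G (r + 1) X) (hI : ∀ I ⊆ X, Stab G I → I.card < ℓ) :
    X.card < ℓ ^ r := by
  classical
  induction r generalizing X with
  | zero =>
    have h0 : X = ∅ := by
      by_contra hne
      obtain ⟨x, hx⟩ := Finset.nonempty_iff_ne_empty.2 hne
      obtain ⟨a, ha, b, hb, hab, -⟩ := hX {x} (by simpa using hx) (by simp)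
      simp only [Finset.mem_singleton] at ha hb
      exact hab (ha.trans hb.symm)
    simp [h0]
  | succ r ih =>
    -- a maximal stable set
    have hne : (X.powerset.filter (fun I => Stab G I)).Nonempty :=
      ⟨∅, Finset.mem_filter.2 ⟨Finset.empty_mem_powerset _, by intro x hx; simp at hx⟩⟩
    obtain ⟨I, hImem, hImax⟩ := Finset.exists_max_image _ (fun I : Finset V => I.card) hne
    rw [Finset.mem_filter, Finset.mem_powerset] at hImem
    obtain ⟨hIX, hIst⟩ := hImem
    have hcov : X ⊆ I ∪ I.biUnion (fun v => X.filter (fun w => G.Adj v w)) := by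
      intro x hx
      by_cases hxI : x ∈ I
      · exact Finset.mem_union_left _ hxI
      · apply Finset.mem_union_right
        by_contra hno
        have hno' : ∀ v ∈ I, ¬ G.Adj v x := by
          intro v hv hadj
          exact hno (Finset.mem_biUnion.2 ⟨v, hv, Finset.mem_filter.2 ⟨hx, hadj⟩⟩)
        have hst : Stab G (insert x I) := by
          intro a ha b hb hab
          rw [Finset.mem_insert] at ha hb
          rcases ha with rfl | ha <;> rcases hb with rfl | hb
          · exact G.loopless.irrefl _ hab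
          · exact hno' b hb hab.symm
          · exact hno' a ha hab
          · exact hIst a ha b hb hab
        have := hImax (insert x I) (Finset.mem_filter.2 ⟨Finset.mem_powerset.2
          (Finset.insert_subset hx hIX), hst⟩)
        rw [Finset.card_insert_of_notMem hxI] at this
        omega
    have hN : ∀ v ∈ I, (X.filter (fun w => G.Adj v w)).card + 1 ≤ ℓ ^ r := by
      intro v hv
      have := ih (X.filter (fun w => G.Adj v w)) ?_ ?_
      · exact this
      · intro K hK hKc
        have hvK : v ∉ K := by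
          intro hvK
          exact G.loopless.irrefl _ (Finset.mem_filter.1 (hK hvK)).2
        obtain ⟨a, ha, b, hb, hab, hnab⟩ := hX (insert v K) (Finset.insert_subset (hIX hv)
          (hK.trans (Finset.filter_subset _ _))) (by rw [Finset.card_insert_of_notMem hvK, hKc])
        rw [Finset.mem_insert] at ha hb
        rcases ha with rfl | ha <;> rcases hb with rfl | hb
        · exact absurd rfl hab
        · exact absurd (Finset.mem_filter.1 (hK hb)).2 hnab
        · exact absurd (Finset.mem_filter.1 (hK ha)).2.symm hnab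
        · exact ⟨a, ha, b, hb, hab, hnab⟩
      · intro J hJ hJs
        exact hI J (hJ.trans (Finset.filter_subset _ _)) hJs
    have h1 : X.card ≤ I.card + ∑ v ∈ I, (X.filter (fun w => G.Adj v w)).card :=
      (Finset.card_le_card hcov).trans ((Finset.card_union_le _ _).trans
        (Nat.add_le_add_left Finset.card_biUnion_le _))
    have h2 : I.card + ∑ v ∈ I, (X.filter (fun w => G.Adj v w)).card ≤ I.card * ℓ ^ r := by
      have h3 : ∑ v ∈ I, ((X.filter (fun w => G.Adj v w)).card + 1) ≤ ∑ _v ∈ I, ℓ ^ r :=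
        Finset.sum_le_sum hN
      rw [Finset.sum_add_distrib, Finset.sum_const, Finset.sum_const, smul_eq_mul, smul_eq_mul,
        mul_one] at h3
      omega
    have h4 : I.card < ℓ := hI I hIX hIst
    have h5 : 0 < ℓ ^ r := Nat.pow_pos hℓ
    calc X.card ≤ I.card * ℓ ^ r := h1.trans h2
      _ < ℓ * ℓ ^ r := Nat.mul_lt_mul_of_pos_right h4 h5
      _ = ℓ ^ (r + 1) := by rw [pow_succ, mul_comm]
/- END ma -/

/- MODULE mb -/
open Classical in
/-- SUPERSATURATION. A graph without clique of `r` elements on `n` vertices has at least `c n ^ m` stable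
sets with `m` elements, `n ≥ N₀`.
PROOF. Let `R = m ^ r + m` (so that every subset of `X` with `R` elements contains a stable set with `m`
elements: `ramsey_poly`; a stable set with `≥ m` elements contains one with `m` elements).  Double count
the pairs `J ⊆ Y ⊆ X`, `|Y| = R`, `J` stable with `m` elements: `choose n R ≤ #J * choose (n-m) (R-m)`;
`choose n R * choose R m = choose n m * choose (n-m) (R-m)` (`Nat.choose_mul`), so
`#J ≥ choose n m / choose R m ≥ (n / m) ^ m / choose R m` (or `((n-m)/m!)…`, for `n ≥ 2 m`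
any bound `choose n m ≥ c n ^ m`). `m = 0`: one stable set. -/
theorem supersat (r m : ℕ) : ∃ (c : ℝ) (N₀ : ℕ), 0 < c ∧ ∀ {V : Type} (G : SimpleGraph V)
    (X : Finset V), NoK G r X → N₀ ≤ X.card →
    c * (X.card : ℝ) ^ m ≤ (((X.powersetCard m).filter (fun J => Stab G J)).card : ℝ) := by
  classical
  rcases Nat.eq_zero_or_pos m with rfl | hm
  · refine ⟨1, 0, one_pos, ?_⟩
    intro V G X _ _
    have : ((X.powersetCard 0).filter (fun J => Stab G J)) = {∅} := by
      ext J
      simp only [Finset.powersetCard_zero, Finset.mem_filter, Finset.mem_singleton]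
      constructor
      · exact fun h => h.1
      · rintro rfl
        exact ⟨rfl, by intro x hx; simp at hx⟩
    rw [this]
    simp
  obtain ⟨R, hR, hmR⟩ : ∃ R, m ^ (r - 1) ≤ R ∧ m ≤ R := ⟨m ^ (r - 1) + m, by omega, by omega⟩
  have hRpos : 0 < R := lt_of_lt_of_le hm hmR
  refine ⟨1 / (2 ^ R * (R.factorial : ℝ)), 2 * R, by positivity, ?_⟩
  intro V G X hX hXc
  have hr : r ≠ 0 := by
    rintro rfl
    obtain ⟨x, hx, -⟩ := hX ∅ (by simp) (by simp)
    simp at hx
  obtain ⟨r, rfl⟩ : ∃ q, r = q + 1 := ⟨r - 1, by omega⟩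
  simp only [Nat.add_sub_cancel] at hR
  set n := X.card with hn
  set 𝒥 := (X.powersetCard m).filter (fun J => Stab G J) with h𝒥
  have hsub : X.powersetCard R ⊆ 𝒥.biUnion (fun J => (X.powersetCard R).filter (fun Y => J ⊆ Y)) := by
    intro Y hY
    obtain ⟨hYX, hYc⟩ := Finset.mem_powersetCard.1 hY
    have : ∃ I ⊆ Y, Stab G I ∧ m ≤ I.card := by
      by_contra hno
      push Not at hno
      have := ramsey_poly G r m hm Y (fun K hK hKc => hX K (hK.trans hYX) hKc)
        (fun I hI hst => hno I hI hst)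
      omega
    obtain ⟨I, hIY, hIst, hIc⟩ := this
    obtain ⟨J, hJI, hJc⟩ := Finset.exists_subset_card_eq hIc
    refine Finset.mem_biUnion.2 ⟨J, ?_, Finset.mem_filter.2 ⟨hY, hJI.trans hIY⟩⟩
    rw [h𝒥, Finset.mem_filter, Finset.mem_powersetCard]
    exact ⟨⟨(hJI.trans hIY).trans hYX, hJc⟩, fun a ha b hb => hIst a (hJI ha) b (hJI hb)⟩
  have hfib : ∀ J ∈ 𝒥, ((X.powersetCard R).filter (fun Y => J ⊆ Y)).card ≤ n ^ (R - m) := by
    intro J hJ
    rw [h𝒥, Finset.mem_filter, Finset.mem_powersetCard] at hJ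
    have h1 : ((X.powersetCard R).filter (fun Y => J ⊆ Y)).card ≤ (X.powersetCard (R - m)).card := by
      refine Finset.card_le_card_of_injOn (fun Y => Y \ J) ?_ ?_
      · intro Y hY
        rw [Finset.mem_coe, Finset.mem_filter, Finset.mem_powersetCard] at hY
        rw [Finset.mem_coe, Finset.mem_powersetCard]
        refine ⟨Finset.sdiff_subset.trans hY.1.1, ?_⟩
        rw [Finset.card_sdiff_of_subset hY.2, hY.1.2, hJ.1.2]
      · intro Y hY Z hZ hYZ
        rw [Finset.mem_coe, Finset.mem_filter] at hY hZ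
        have hYZ' : Y \ J = Z \ J := hYZ
        rw [← Finset.sdiff_union_of_subset hY.2, ← Finset.sdiff_union_of_subset hZ.2, hYZ']
    rw [Finset.card_powersetCard] at h1
    exact h1.trans (Nat.choose_le_pow _ _)
  have hchoose : n.choose R ≤ 𝒥.card * n ^ (R - m) := by
    calc n.choose R = (X.powersetCard R).card := (Finset.card_powersetCard _ _).symm
      _ ≤ _ := Finset.card_le_card hsub
      _ ≤ ∑ J ∈ 𝒥, ((X.powersetCard R).filter (fun Y => J ⊆ Y)).card := Finset.card_biUnion_le
      _ ≤ ∑ _J ∈ 𝒥, n ^ (R - m) := Finset.sum_le_sum hfib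
      _ = _ := by rw [Finset.sum_const, smul_eq_mul]
  have hlow : ((n : ℝ) / 2) ^ R / (R.factorial : ℝ) ≤ (n.choose R : ℝ) := by
    refine le_trans ?_ (Nat.pow_le_choose R n)
    gcongr
    rw [Nat.cast_sub (by omega)]
    have : (2 * R : ℝ) ≤ n := by exact_mod_cast hXc
    push_cast
    linarith
  have hn0 : (0 : ℝ) < n := by
    have : 0 < n := by omega
    exact_mod_cast this
  have h6 : ((n : ℝ) / 2) ^ R / (R.factorial : ℝ) ≤ (𝒥.card : ℝ) * (n : ℝ) ^ (R - m) :=
    hlow.trans (by exact_mod_cast hchoose)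
  have h7 : (n : ℝ) ^ R = (n : ℝ) ^ m * (n : ℝ) ^ (R - m) := by
    rw [← pow_add]; congr 1; omega
  have h8 : 0 < (n : ℝ) ^ (R - m) := pow_pos hn0 _
  refine le_of_mul_le_mul_right ?_ h8
  calc 1 / (2 ^ R * (R.factorial : ℝ)) * (n : ℝ) ^ m * (n : ℝ) ^ (R - m)
      = ((n : ℝ) / 2) ^ R / (R.factorial : ℝ) := by
        rw [div_pow, h7]; field_simp
    _ ≤ _ := h6
/- END mb -/

end Whl
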