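import Pool.Agent.Whl.Defs

/-!
# Cycles of linked pairs give induced wheels
-/

namespace Whl

open Finset TurMod

variable {V : Type*}

/- MODULE ra -/
theorem cnt_index (M : V → V → Prop) (l : List V) :
    ∃ I : Finset ℕ, I.card = cnt M l ∧ ∀ i ∈ I, ∃ h : i + 1 < l.length,
      M (l[i]'(by omega)) (l[i + 1]'h) := by
  classical
  induction l with
  | nil => exact ⟨∅, by simp [cnt], by simp⟩
  | cons x t ih =>
    cases t with
    | nil => exact ⟨∅, by simp [cnt], by simp⟩
    | cons y t =>
      obtain ⟨I, hI, hM⟩ := ih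
      have h0 : (0 : ℕ) ∉ I.map ⟨Nat.succ, Nat.succ_injective⟩ := by
        simp
      by_cases hxy : M x y
      · refine ⟨insert 0 (I.map ⟨Nat.succ, Nat.succ_injective⟩), ?_, ?_⟩
        · rw [Finset.card_insert_of_notMem h0, Finset.card_map, hI]
          simp only [cnt, if_pos hxy]
          omega
        · intro i hi
          rcases Finset.mem_insert.1 hi with rfl | hi
          · exact ⟨by simp, by simpa using hxy⟩
          · obtain ⟨k, hk, rfl⟩ := Finset.mem_map.1 hi
            obtain ⟨h1, h2⟩ := hM k hk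
            refine ⟨by simpa using h1, ?_⟩
            simpa using h2
      · refine ⟨I.map ⟨Nat.succ, Nat.succ_injective⟩, ?_, ?_⟩
        · rw [Finset.card_map, hI]
          simp only [cnt, if_neg hxy]
          omega
        · intro i hi
          obtain ⟨k, hk, rfl⟩ := Finset.mem_map.1 hi
          obtain ⟨h1, h2⟩ := hM k hk
          refine ⟨by simpa using h1, ?_⟩
          simpa using h2

theorem cyc_index (M : V → V → Prop) (l : List V) (h : 3 ≤ cyc M l) :
    ∃ i j k : ℕ, i < j ∧ j < k ∧ k < l.length ∧ ∀ m, (m = i ∨ m = j ∨ m = k) →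
      ∃ (h1 : m < l.length) (h2 : (m + 1) % l.length < l.length),
        M (l[m]'h1) (l[(m + 1) % l.length]'h2) := by
  classical
  cases l with
  | nil => simp [cyc, cnt] at h
  | cons x t =>
    obtain ⟨I, hI, hM⟩ := cnt_index M ((x :: t) ++ [x])
    have hc : cyc M (x :: t) = cnt M ((x :: t) ++ [x]) := by simp [cyc]
    rw [hc, ← hI] at h
    obtain ⟨J, hJ, hJc⟩ := Finset.exists_subset_card_eq h
    set e := J.orderEmbOfFin hJc with he
    have hmem : ∀ a : Fin 3, e a ∈ I := fun a => hJ (Finset.orderEmbOfFin_mem J hJc a)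
    have key : ∀ m ∈ I, ∃ (h1 : m < (x :: t).length) (h2 : (m + 1) % (x :: t).length < (x :: t).length),
        M ((x :: t)[m]'h1) ((x :: t)[(m + 1) % (x :: t).length]'h2) := by
      intro m hm
      obtain ⟨h1, h2⟩ := hM m hm
      have h3 : m < (x :: t).length := by
        rw [List.length_append] at h1
        simp only [List.length_singleton] at h1
        omega
      refine ⟨h3, Nat.mod_lt _ (by simp), ?_⟩
      rw [List.getElem_append_left h3] at h2
      by_cases h4 : m + 1 < (x :: t).length
      · rw [List.getElem_append_left h4] at h2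
        have h5 : (m + 1) % (x :: t).length = m + 1 := Nat.mod_eq_of_lt h4
        simp only [h5]
        exact h2
      · have h6 : m + 1 = (x :: t).length := by omega
        rw [List.getElem_append_right (by omega)] at h2
        have h5 : (m + 1) % (x :: t).length = 0 := by rw [h6, Nat.mod_self]
        simp only [h5]
        simpa using h2
    refine ⟨e 0, e 1, e 2, e.strictMono (by decide), e.strictMono (by decide), ?_, ?_⟩
    · exact (key _ (hmem 2)).1
    · rintro m (rfl | rfl | rfl)
      · exact key _ (hmem 0)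
      · exact key _ (hmem 1)
      · exact key _ (hmem 2)
/- END ra -/

/- MODULE rb -/
private theorem rb_mod (x m : ℕ) (_hm : 0 < m) (hx : x < 2 * m) :
    x % m = if x < m then x else x - m := by
  split_ifs with h
  · exact Nat.mod_eq_of_lt h
  · rw [Nat.mod_eq_sub_mod (by omega), Nat.mod_eq_of_lt (by omega)]

private theorem rb_cyc (n : ℕ) (hn : 3 ≤ n) (u v : Fin (2 * n)) :
    (SimpleGraph.cycleGraph (2 * n)).Adj u v ↔
      (v.val + 1 = u.val ∨ (u.val = 0 ∧ v.val = 2 * n - 1)) ∨
      (u.val + 1 = v.val ∨ (v.val = 0 ∧ u.val = 2 * n - 1)) := by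
  rw [SimpleGraph.cycleGraph_adj']
  have hu := u.2
  have hv := v.2
  have h1 : (u - v).val = if u.val < v.val then 2 * n - v.val + u.val else u.val - v.val := by
    rw [Fin.sub_def]
    show (2 * n - v.val + u.val) % (2 * n) = _
    rw [rb_mod _ _ (by omega) (by omega)]
    split_ifs <;> omega
  have h2 : (v - u).val = if v.val < u.val then 2 * n - u.val + v.val else v.val - u.val := by
    rw [Fin.sub_def]
    show (2 * n - u.val + v.val) % (2 * n) = _
    rw [rb_mod _ _ (by omega) (by omega)]
    split_ifs <;> omega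
  rw [h1, h2]
  split_ifs <;> omega

theorem rim (G : SimpleGraph V) (A B R : Finset V) (hT : Trip G A B) (hR : R ⊆ B) (l : List V)
    (hl : CycL (FR G A R) l) :
    ∃ (lk : ℕ → V) (c : SimpleGraph.cycleGraph (2 * l.length) ↪g G),
      (∀ i (h : i < l.length) (h2 : (i + 1) % l.length < l.length),
        Lk G A R (l[i]'h) (l[(i + 1) % l.length]'h2) (lk i)) ∧
      (∀ i (h : i < l.length), c ⟨2 * i, by omega⟩ = l[i]'h ∧ c ⟨2 * i + 1, by omega⟩ = lk i) := by
  classical
  obtain ⟨x, y, ⟨hc, hn, hh, hlast⟩, h3, hadj⟩ := hl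
  set n := l.length with hnl
  have hmod : ∀ i, i < n → (i + 1) % n = if i + 1 < n then i + 1 else 0 := by
    intro i hi
    rw [rb_mod _ _ (by omega) (by omega)]
    split_ifs <;> omega
  have hmodlt : ∀ i, (i + 1) % n < n := fun i => Nat.mod_lt _ (by omega)
  have hstep : ∀ i (h : i < n), (FR G A R).Adj (l[i]'h) (l[(i + 1) % n]'(hmodlt i)) := by
    intro i hi
    by_cases h : i + 1 < n
    · have h1 : (i + 1) % n = i + 1 := Nat.mod_eq_of_lt h
      have h2 := List.IsChain.getElem hc i h
      simp only [h1]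
      exact h2
    · have h1 : (i + 1) % n = 0 := by
        rw [hmod i hi, if_neg h]
      have h2 : l[0]'(by omega) = x := by
        rw [List.head?_eq_getElem?, List.getElem?_eq_getElem (by omega)] at hh
        exact Option.some.inj hh
      have h3' : l[i]'hi = y := by
        rw [List.getLast?_eq_getElem?, List.getElem?_eq_getElem (by omega)] at hlast
        have h4 := Option.some.inj hlast
        have h5 : i = l.length - 1 := by omega
        simp only [h5]
        exact h4
      simp only [h1]
      rw [h2, h3']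
      exact hadj
  choose lk' hlk' using hstep
  set lk : ℕ → V := fun i => if h : i < n then lk' i h else x with hlkdef
  have hlk : ∀ i (h : i < n), Lk G A R (l[i]'h) (l[(i + 1) % n]'(hmodlt i)) (lk i) := by
    intro i hi
    have : lk i = lk' i hi := by rw [hlkdef]; simp only [dif_pos hi]
    rw [this]
    exact hlk' i hi
  have hinj : ∀ i j (hi : i < n) (hj : j < n), l[i]'hi = l[j]'hj → i = j := by
    intro i j hi hj h
    exact (List.Nodup.getElem_inj_iff hn).1 h
  -- neighbours of the links on the cycle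
  have hnb : ∀ i j (hi : i < n) (hj : j < n), G.Adj (lk i) (l[j]'hj) ↔ j = i ∨ j = (i + 1) % n := by
    intro i j hi hj
    obtain ⟨h1, h2, h3', h4, h5, h6, h7⟩ := hlk i hi
    constructor
    · intro h
      have hjR : l[j]'hj ∈ R := (hlk j hj).2.2.1
      rcases h7 _ hjR h with h8 | h8
      · left
        exact hinj _ _ _ _ h8
      · right
        exact hinj _ _ _ _ h8
    · rintro (h | h)
      · subst h
        exact h5
      · simp only [h]
        exact h6
  have hlkinj : ∀ i j, i < n → j < n → lk i = lk j → i = j := by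
    intro i j hi hj h
    by_contra hne
    have h1 := (hnb i i hi hi).2 (Or.inl rfl)
    have h2 := (hnb i ((i + 1) % n) hi (hmodlt i)).2 (Or.inr rfl)
    rw [h] at h1 h2
    have h3' := (hnb j i hj hi).1 h1
    have h4 := (hnb j ((i + 1) % n) hj (hmodlt i)).1 h2
    rw [hmod i hi] at h4
    have e := hmod j hj
    have hn3 : 3 ≤ n := h3
    rcases h3' with h5 | h5
    · exact hne h5
    · rcases h4 with h6 | h6
      · rw [e] at h5
        split_ifs at h5 h6 <;> omega
      · rw [e] at h5 h6
        split_ifs at h5 h6 <;> omega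
  have hlR : ∀ j (hj : j < n), l[j]'hj ∈ R := fun j hj => (hlk j hj).2.2.1
  have hlkA : ∀ j, j < n → lk j ∈ A := fun j hj => (hlk j hj).1
  set c : Fin (2 * n) → V := fun k =>
    if k.val % 2 = 0 then l[k.val / 2]'(by omega) else lk (k.val / 2) with hcdef
  have hce : ∀ k : Fin (2 * n), k.val % 2 = 0 → c k = l[k.val / 2]'(by omega) := by
    intro k hk
    rw [hcdef]
    simp only [hk, if_true]
  have hco : ∀ k : Fin (2 * n), k.val % 2 ≠ 0 → c k = lk (k.val / 2) := by
    intro k hk
    rw [hcdef]
    simp only [hk, if_false]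
  have hAB : ∀ v, v ∈ A → v ∈ B → False := fun v h1 h2 => Finset.disjoint_left.1 hT.disj h1 h2
  have hcinj : Function.Injective c := by
    intro a b hab
    apply Fin.ext
    by_cases ha : a.val % 2 = 0 <;> by_cases hb : b.val % 2 = 0
    · rw [hce a ha, hce b hb] at hab
      have := hinj _ _ _ _ hab
      omega
    · rw [hce a ha, hco b hb] at hab
      exact (hAB _ (hlkA (b.val / 2) (by omega)) (hab ▸ hR (hlR _ _))).elim
    · rw [hco a ha, hce b hb] at hab
      exact (hAB _ (hlkA (a.val / 2) (by omega)) (hab ▸ hR (hlR _ _))).elim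
    · rw [hco a ha, hco b hb] at hab
      have := hlkinj _ _ (by omega) (by omega) hab
      omega
  have hadjc : ∀ a b : Fin (2 * n), G.Adj (c a) (c b) ↔ (SimpleGraph.cycleGraph (2 * n)).Adj a b := by
    intro a b
    rw [rb_cyc n h3]
    have hA2 := a.2
    have hB2 := b.2
    by_cases ha : a.val % 2 = 0 <;> by_cases hb : b.val % 2 = 0
    · rw [hce a ha, hce b hb]
      constructor
      · intro h
        exact (hT.stB _ (hR (hlR _ _)) _ (hR (hlR _ _)) h).elim
      · intro h
        exfalso
        omega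
    · rw [hce a ha, hco b hb, G.adj_comm, hnb _ _ (by omega) (by omega), hmod _ (by omega)]
      split_ifs <;> omega
    · rw [hco a ha, hce b hb, hnb _ _ (by omega) (by omega), hmod _ (by omega)]
      split_ifs <;> omega
    · rw [hco a ha, hco b hb]
      constructor
      · intro h
        exact (hT.stA _ (hlkA _ (by omega)) _ (hlkA _ (by omega)) h).elim
      · intro h
        exfalso
        omega
  refine ⟨lk, ⟨⟨c, hcinj⟩, fun {a b} => hadjc a b⟩, fun i h h2 => hlk i h, ?_⟩
  intro i hi
  constructor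
  · show c _ = _
    rw [hce _ (by simp)]
    simp only [Nat.mul_div_cancel_left i (by norm_num : 0 < 2)]
  · show c _ = _
    rw [hco _ (by simp only; omega)]
    congr 1
    simp only
    omega
/- END rb -/

/- MODULE rc -/
theorem wheel_of_colour (G : SimpleGraph V) (A B R : Finset V) (hT : Trip G A B) (hR : R ⊆ B)
    (l : List V) (hl : CycL (FR G A R) l) (z : V) (hz : z ∈ B) (hzR : z ∉ R)
    (hc : 3 ≤ cyc (fun x y => ∃ a, Lk G A R x y a ∧ G.Adj a z) l) : HasWheel G := by
  classical
  obtain ⟨lk, c, hlk, hcc⟩ := rim G A B R hT hR l hl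
  obtain ⟨i, j, k, hij, hjk, hk, hM⟩ := cyc_index _ l hc
  have hn3 : 3 ≤ l.length := by
    obtain ⟨_, _, _, h, _⟩ := hl
    exact h
  have hadj : ∀ m, (m = i ∨ m = j ∨ m = k) → G.Adj (lk m) z := by
    intro m hm
    obtain ⟨h1, h2, a', ha', haz⟩ := hM m hm
    have hL := hlk m h1 h2
    have : lk m = a' := by
      by_contra hne
      have h3 := hT.lin (lk m) hL.1 a' ha'.1 hne
      have h4 : 2 ≤ codeg G B (lk m) a' := by
        unfold codeg
        rw [← Nat.lt_iff_add_one_le, Finset.one_lt_card]
        refine ⟨l[m]'h1, ?_, l[(m + 1) % l.length]'h2, ?_, hL.2.1⟩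
        · rw [Finset.mem_filter]
          exact ⟨hR hL.2.2.1, hL.2.2.2.2.1, ha'.2.2.2.2.1⟩
        · rw [Finset.mem_filter]
          exact ⟨hR hL.2.2.2.1, hL.2.2.2.2.2.1, ha'.2.2.2.2.2.1⟩
      omega
    rw [this]
    exact haz
  refine ⟨2 * l.length, by omega, c, z, ?_, ⟨2 * i + 1, by omega⟩, ⟨2 * j + 1, by omega⟩,
    ⟨2 * k + 1, by omega⟩, ?_, ?_, ?_, ?_, ?_, ?_⟩
  · rintro ⟨m, hm⟩
    have hm2 := m.2
    rcases Nat.even_or_odd' m.val with ⟨q, hq | hq⟩
    · have h1 := (hcc q (by omega)).1
      have h2 : (⟨2 * q, by omega⟩ : Fin (2 * l.length)) = m := Fin.ext hq.symm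
      rw [h2, hm] at h1
      have h3 := (hlk q (by omega) (Nat.mod_lt _ (by omega))).2.2.1
      rw [← h1] at h3
      exact hzR h3
    · have h1 := (hcc q (by omega)).2
      have h2 : (⟨2 * q + 1, by omega⟩ : Fin (2 * l.length)) = m := Fin.ext hq.symm
      rw [h2, hm] at h1
      have h3 := (hlk q (by omega) (Nat.mod_lt _ (by omega))).1
      rw [← h1] at h3
      exact Finset.disjoint_left.1 hT.disj h3 hz
  · simp only [ne_eq, Fin.mk.injEq]; omega
  · simp only [ne_eq, Fin.mk.injEq]; omega
  · simp only [ne_eq, Fin.mk.injEq]; omega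
  · rw [(hcc i (by omega)).2]
    exact (hadj i (Or.inl rfl)).symm
  · rw [(hcc j (by omega)).2]
    exact (hadj j (Or.inr (Or.inl rfl))).symm
  · rw [(hcc k (by omega)).2]
    exact (hadj k (Or.inr (Or.inr rfl))).symm

theorem wheel_of_triple (G : SimpleGraph V) (A B R : Finset V) (hT : Trip G A B) (hR : R ⊆ B)
    (l : List V) (hl : CycL (FR G A R) l) (a x y z : V) (ha : a ∈ A) (hxy : x ≠ y) (hxz : x ≠ z)
    (hyz : y ≠ z) (hx : x ∈ l) (hy : y ∈ l) (hz : z ∈ l) (hax : G.Adj a x) (hay : G.Adj a y)
    (haz : G.Adj a z) : HasWheel G := by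
  classical
  obtain ⟨lk, c, hlk, hcc⟩ := rim G A B R hT hR l hl
  have hn3 : 3 ≤ l.length := by
    obtain ⟨_, _, _, h, _⟩ := hl
    exact h
  obtain ⟨i, hi, hix⟩ := List.getElem_of_mem hx
  obtain ⟨j, hj, hjy⟩ := List.getElem_of_mem hy
  obtain ⟨k, hk, hkz⟩ := List.getElem_of_mem hz
  have hRi : ∀ q (hq : q < l.length), l[q]'hq ∈ R := fun q hq =>
    (hlk q hq (Nat.mod_lt _ (by omega))).2.2.1
  have hxR : x ∈ R := hix ▸ hRi i hi
  have hyR : y ∈ R := hjy ▸ hRi j hj
  have hzR : z ∈ R := hkz ▸ hRi k hk
  refine ⟨2 * l.length, by omega, c, a, ?_, ⟨2 * i, by omega⟩, ⟨2 * j, by omega⟩,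
    ⟨2 * k, by omega⟩, ?_, ?_, ?_, ?_, ?_, ?_⟩
  · rintro ⟨m, hm⟩
    have hm2 := m.2
    rcases Nat.even_or_odd' m.val with ⟨q, hq | hq⟩
    · have h1 := (hcc q (by omega)).1
      have h2 : (⟨2 * q, by omega⟩ : Fin (2 * l.length)) = m := Fin.ext hq.symm
      rw [h2, hm] at h1
      have h3 := hR (hRi q (by omega))
      rw [← h1] at h3
      exact Finset.disjoint_left.1 hT.disj ha h3
    · have h1 := (hcc q (by omega)).2
      have h2 : (⟨2 * q + 1, by omega⟩ : Fin (2 * l.length)) = m := Fin.ext hq.symm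
      rw [h2, hm] at h1
      have h3 := (hlk q (by omega) (Nat.mod_lt _ (by omega))).2.2.2.2.2.2
      rw [← h1] at h3
      have e1 := h3 x hxR hax
      have e2 := h3 y hyR hay
      have e3 := h3 z hzR haz
      rcases e1 with e1 | e1 <;> rcases e2 with e2 | e2 <;> rcases e3 with e3 | e3
      all_goals first
        | exact hxy (e1.trans e2.symm)
        | exact hxz (e1.trans e3.symm)
        | exact hyz (e2.trans e3.symm)
  · rintro h
    simp only [Fin.mk.injEq] at h
    have : i = j := by omega
    subst this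
    exact hxy (hix.symm.trans hjy)
  · rintro h
    simp only [Fin.mk.injEq] at h
    have : i = k := by omega
    subst this
    exact hxz (hix.symm.trans hkz)
  · rintro h
    simp only [Fin.mk.injEq] at h
    have : j = k := by omega
    subst this
    exact hyz (hjy.symm.trans hkz)
  · rw [(hcc i hi).1, hix]; exact hax
  · rw [(hcc j hj).1, hjy]; exact hay
  · rw [(hcc k hk).1, hkz]; exact haz
/- END rc -/

end Whl
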